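import Mathlib
set_option autoImplicit false
open Set Filter Topology MeasureTheory
open scoped ENNReal Manifold ContDiff

/-!
Riemannian metrics on a compact smooth manifold with boundary of dimension `d + 1`, their volume
measures and their Steklov eigenvalues.
-/

namespace Pool.Agent.W545.Man

/-- Euclidean space of dimension `d + 1` -/
abbrev EE (d : ℕ) := EuclideanSpace ℝ (Fin (d + 1))

/-- Euclidean space of dimension `d` -/
abbrev FF (d : ℕ) := EuclideanSpace ℝ (Fin d)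

/-- the inclusion `z ↦ (0, z)` of `ℝ^d` as the boundary of the half-space of dimension `d + 1` -/
def inj {d : ℕ} (z : FF d) : EE d := WithLp.toLp 2 (Fin.cons 0 z.ofLp)

variable (d : ℕ) (Ω : Type*) [TopologicalSpace Ω] [ChartedSpace (EuclideanHalfSpace (d + 1)) Ω]
  [IsManifold (𝓡∂ (d + 1)) ∞ Ω]

variable {d Ω} in
/-- The bilinear form `B` on the tangent space at `z`, read in the coordinates of the chart at `c`. -/
noncomputable def coeff
    (B : (z : Ω) → TangentSpace (𝓡∂ (d + 1)) z →L[ℝ] TangentSpace (𝓡∂ (d + 1)) z →L[ℝ] ℝ)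
    (c z : Ω) : EE d →L[ℝ] EE d →L[ℝ] ℝ :=
  (B z : EE d →L[ℝ] EE d →L[ℝ] ℝ).bilinearComp (tangentCoordChange (𝓡∂ (d + 1)) c z z)
    (tangentCoordChange (𝓡∂ (d + 1)) c z z)

/-- A smooth Riemannian metric on the manifold with boundary `Ω` of dimension `d + 1`: a scalar
product on every tangent space, whose coefficients in every chart are smooth up to the boundary. -/
structure RMetric where
  inner : (z : Ω) → TangentSpace (𝓡∂ (d + 1)) z →L[ℝ] TangentSpace (𝓡∂ (d + 1)) z →L[ℝ] ℝ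
  symm : ∀ z v w, inner z v w = inner z w v
  pos : ∀ z v, v ≠ 0 → 0 < inner z v v
  smooth : ∀ (c : Ω) (v w : EE d),
    ContDiffOn ℝ ∞ (fun y => coeff inner c ((extChartAt (𝓡∂ (d + 1)) c).symm y) v w)
      (extChartAt (𝓡∂ (d + 1)) c).target

variable {d Ω}

/-- the matrix of the metric at `z` in the chart at `c` -/
noncomputable def gram (g : RMetric d Ω) (c z : Ω) : Matrix (Fin (d + 1)) (Fin (d + 1)) ℝ :=
  Matrix.of fun i j => coeff g.inner c z (EuclideanSpace.single i 1) (EuclideanSpace.single j 1)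

/-- the matrix of the metric induced on the boundary, in the chart at `c`: the boundary is given by
the vanishing of the coordinate number `0` -/
noncomputable def bgram (g : RMetric d Ω) (c z : Ω) : Matrix (Fin d) (Fin d) ℝ :=
  (gram g c z).submatrix Fin.succ Fin.succ

/-- the differential of `u` at `x` -/
noncomputable def dif (u : Ω → ℝ) (x : Ω) : TangentSpace (𝓡∂ (d + 1)) x →L[ℝ] ℝ :=
  mfderiv (𝓡∂ (d + 1)) 𝓘(ℝ, ℝ) u x

/-- `|du|²_g` at the point `x`, the maximum of `du(v)² / g(v,v)` over the tangent vectors `v` -/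
noncomputable def gradSq (g : RMetric d Ω) (u : Ω → ℝ) (x : Ω) : ℝ≥0∞ :=
  ⨆ v : TangentSpace (𝓡∂ (d + 1)) x, ENNReal.ofReal (dif u x v ^ 2 / g.inner x v v)

section Measures

variable [MeasurableSpace Ω]

/-- `μ` is the Riemannian volume measure of `g`: in the chart at any point `c` it is
`√(det (g_ij)) dy` -/
def IsVolume (g : RMetric d Ω) (μ : Measure Ω) : Prop :=
  ∀ c : Ω, ∀ h : EE d → ℝ≥0∞, Measurable h →
    ∫⁻ x in (chartAt (EuclideanHalfSpace (d + 1)) c).source, h (extChartAt (𝓡∂ (d + 1)) c x) ∂μ =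
      ∫⁻ y in (extChartAt (𝓡∂ (d + 1)) c).target,
        h y * ENNReal.ofReal (√(gram g c ((extChartAt (𝓡∂ (d + 1)) c).symm y)).det)

/-- `ν` is the Riemannian measure on the boundary of the metric induced by `g` (regarded as a
measure on `Ω` carried by the boundary): in the chart at any point `c` it is the image of
`√(det (g_ij)) dz`, `i, j > 0`, on the hyperplane `y₀ = 0` -/
def IsBdryVolume (g : RMetric d Ω) (ν : Measure Ω) : Prop :=
  ∀ c : Ω, ∀ h : EE d → ℝ≥0∞, Measurable h →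
    ∫⁻ x in (chartAt (EuclideanHalfSpace (d + 1)) c).source, h (extChartAt (𝓡∂ (d + 1)) c x) ∂ν =
      ∫⁻ z in {z : FF d | inj z ∈ (extChartAt (𝓡∂ (d + 1)) c).target},
        h (inj z) * ENNReal.ofReal (√(bgram g c ((extChartAt (𝓡∂ (d + 1)) c).symm (inj z))).det)

/-- the Dirichlet energy `∫_Ω |du|²_g dμ` -/
noncomputable def energy (g : RMetric d Ω) (μ : Measure Ω) (u : Ω → ℝ) : ℝ≥0∞ :=
  ∫⁻ x, gradSq g u x ∂μ

/-- `∫_Σ u² dν` -/
noncomputable def bsq (ν : Measure Ω) (u : Ω → ℝ) : ℝ≥0∞ := ∫⁻ x, ENNReal.ofReal (u x ^ 2) ∂ν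

/-- the Steklov eigenvalue `σ_k` by its variational characterisation: the infimum, over the
`(k+1)`-dimensional spaces `V` of smooth functions on `Ω` (smooth up to the boundary) none of whose
nonzero elements vanishes on the boundary, of the maximum over `V` of the Rayleigh quotient -/
noncomputable def sigma (k : ℕ) (g : RMetric d Ω) (μ ν : Measure Ω) : ℝ≥0∞ :=
  ⨅ (V : Submodule ℝ C^∞⟮𝓡∂ (d + 1), Ω; 𝓘(ℝ, ℝ), ℝ⟯) (_ : Module.finrank ℝ V = k + 1)
    (_ : ∀ u ∈ V, u ≠ 0 → bsq ν u ≠ 0),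
    ⨆ (u ∈ V) (_ : u ≠ 0), energy g μ u / bsq ν u

/-- the normalised eigenvalue `σ_k |Ω|^((1-d)/(d+1)) |Σ|` -/
noncomputable def nsigma (k : ℕ) (g : RMetric d Ω) (μ ν : Measure Ω) : ℝ≥0∞ :=
  sigma k g μ ν * μ univ ^ ((1 - (d : ℝ)) / (d + 1)) * ν univ

end Measures

theorem coeff_smul (B : (z : Ω) → TangentSpace (𝓡∂ (d + 1)) z →L[ℝ] TangentSpace (𝓡∂ (d + 1)) z →L[ℝ] ℝ)
    (a : Ω → ℝ) (c z : Ω) : coeff (fun z => a z • B z) c z = a z • coeff B c z := by
  ext v w
  rfl

/-- smooth positive functions on `Ω` -/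
def PosFun (d : ℕ) (Ω : Type*) [TopologicalSpace Ω] [ChartedSpace (EuclideanHalfSpace (d + 1)) Ω] :=
  {f : C^∞⟮𝓡∂ (d + 1), Ω; 𝓘(ℝ, ℝ), ℝ⟯ // ∀ x, 0 < f x}

/-- the conformal metric `f² g` -/
noncomputable def conf (g : RMetric d Ω) (f : PosFun d Ω) : RMetric d Ω where
  inner z := (f.1 z ^ 2) • g.inner z
  symm z v w := by
    show f.1 z ^ 2 * g.inner z v w = f.1 z ^ 2 * g.inner z w v
    rw [g.symm]
  pos z v hv := by
    show 0 < f.1 z ^ 2 * g.inner z v v
    exact mul_pos (pow_pos (f.2 z) 2) (g.pos z v hv)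
  smooth c v w := by
    simp only [coeff_smul]
    have h1 : ContMDiffOn 𝓘(ℝ, EE d) 𝓘(ℝ, ℝ) ∞ (fun y => f.1 ((extChartAt (𝓡∂ (d + 1)) c).symm y))
        (extChartAt (𝓡∂ (d + 1)) c).target :=
      f.1.contMDiff.comp_contMDiffOn (contMDiffOn_extChartAt_symm c)
    exact (h1.contDiffOn.pow 2).mul (g.smooth c v w)

variable [MeasurableSpace Ω]

/-- the conformal eigenvalue: the supremum over the conformal class of `g` of the normalised
Steklov eigenvalue number `k` -/
noncomputable def confSup (k : ℕ) (g : RMetric d Ω) : ℝ≥0∞ :=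
  ⨆ (f : PosFun d Ω) (μ : Measure Ω) (ν : Measure Ω) (_ : IsVolume (conf g f) μ)
    (_ : IsBdryVolume (conf g f) ν), nsigma k (conf g f) μ ν

end Pool.Agent.W545.Man
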