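import Mathlib
set_option autoImplicit false
open Set Filter Topology MeasureTheory Metric
open scoped ENNReal NNReal

namespace Pool.Agent.W545.Man

/-- squared norm as an extended nonnegative real -/
noncomputable def sq (a : ℝ) : ℝ≥0∞ := ENNReal.ofReal (a ^ 2)

theorem sq_add_le (a b : ℝ) : sq (a + b) ≤ 2 * sq a + 2 * sq b := by
  unfold sq
  rw [← ENNReal.ofReal_ofNat 2, ← ENNReal.ofReal_mul (by norm_num), ← ENNReal.ofReal_mul (by norm_num),
    ← ENNReal.ofReal_add (by positivity) (by positivity)]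
  apply ENNReal.ofReal_le_ofReal
  nlinarith [sq_nonneg (a - b)]

/-- one-dimensional estimate -/
theorem seg1 {f f' : ℝ → ℝ} (hf' : ContinuousOn f' (Icc 0 1))
    (hd : ∀ t ∈ Icc (0:ℝ) 1, HasDerivWithinAt f (f' t) (Icc 0 1) t) :
    sq (f 0 - f 1) ≤ ∫⁻ t in Icc (0:ℝ) 1, sq (f' t) := by
  have h1 : ∫ τ in (0:ℝ)..1, f' τ = f 1 - f 0 := by
    apply intervalIntegral.integral_eq_sub_of_hasDerivAt_of_le zero_le_one
    · exact fun t ht => (hd t ht).continuousWithinAt
    · intro x hx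
      exact (hd x (Ioo_subset_Icc_self hx)).hasDerivAt (Icc_mem_nhds hx.1 hx.2)
    · apply ContinuousOn.intervalIntegrable
      rwa [uIcc_of_le zero_le_one]
  have hsq : ContinuousOn (fun t => f' t ^ 2) (Icc 0 1) := hf'.pow 2
  have hi : IntegrableOn (fun t => f' t ^ 2) (Icc (0:ℝ) 1) := hsq.integrableOn_Icc
  have hi1 : IntegrableOn f' (Icc (0:ℝ) 1) := hf'.integrableOn_Icc
  unfold sq
  rw [← ofReal_integral_eq_lintegral_ofReal hi (Eventually.of_forall fun t => sq_nonneg _)]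
  apply ENNReal.ofReal_le_ofReal
  rw [intervalIntegral.integral_of_le zero_le_one, ← integral_Icc_eq_integral_Ioc] at h1
  set c := f 1 - f 0 with hc
  have h2 : 0 ≤ ∫ t in Icc (0:ℝ) 1, (f' t - c) ^ 2 := integral_nonneg fun t => sq_nonneg _
  have h3 : ∫ t in Icc (0:ℝ) 1, (f' t - c) ^ 2 = (∫ t in Icc (0:ℝ) 1, f' t ^ 2) - c ^ 2 := by
    have e : ∀ t, (f' t - c) ^ 2 = (f' t ^ 2 - 2 * c * f' t) + c ^ 2 := fun t => by ring
    simp only [e]
    rw [integral_add, integral_sub hi (hi1.const_mul _), integral_const_mul, h1]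
    · simp; ring
    · exact hi.sub (hi1.const_mul _)
    · exact integrable_const _
  rw [h3] at h2
  have : (f 0 - f 1) ^ 2 = c ^ 2 := by rw [hc]; ring
  linarith

variable {E : Type*} [NormedAddCommGroup E] [NormedSpace ℝ E]

/-- estimate along a segment -/
theorem seg {K : Set E} (hK : Convex ℝ K) {w : E → ℝ} {L : E → (E →L[ℝ] ℝ)}
    (hL : ContinuousOn L K) (hw : ∀ y ∈ K, HasFDerivWithinAt w (L y) K y) {x z : E}
    (hx : x ∈ K) (hz : z ∈ K) :
    sq (w x - w z) ≤ ENNReal.ofReal (‖z - x‖ ^ 2) *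
      ∫⁻ t in Icc (0:ℝ) 1, K.indicator (fun y => sq ‖L y‖) (x + t • (z - x)) := by
  have hmaps : ∀ t ∈ Icc (0:ℝ) 1, x + t • (z - x) ∈ K := by
    intro t ht
    exact hK.add_smul_sub_mem hx hz ht
  have hcurve : ∀ t : ℝ, HasDerivAt (fun t : ℝ => x + t • (z - x)) (z - x) t := by
    intro t
    simpa using ((hasDerivAt_id t).smul_const (z - x)).const_add x
  have h1 := seg1 (f := fun t => w (x + t • (z - x))) (f' := fun t => L (x + t • (z - x)) (z - x))
    (by
      have : ContinuousOn (fun t : ℝ => L (x + t • (z - x))) (Icc 0 1) :=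
        hL.comp (Continuous.continuousOn (by fun_prop)) hmaps
      exact this.clm_apply continuousOn_const)
    (by
      intro t ht
      exact (hw _ (hmaps t ht)).comp_hasDerivWithinAt t (hcurve t).hasDerivWithinAt hmaps)
  simp only [zero_smul, add_zero, one_smul, add_sub_cancel] at h1
  refine h1.trans ?_
  rw [← lintegral_const_mul']
  · apply lintegral_mono_ae
    filter_upwards [ae_restrict_mem measurableSet_Icc] with t ht
    rw [indicator_of_mem (hmaps t ht)]
    unfold sq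
    rw [← ENNReal.ofReal_mul (by positivity)]
    apply ENNReal.ofReal_le_ofReal
    have := (L (x + t • (z - x))).le_opNorm (z - x)
    rw [Real.norm_eq_abs] at this
    calc (L (x + t • (z - x)) (z - x)) ^ 2 = |L (x + t • (z - x)) (z - x)| ^ 2 := by rw [sq_abs]
      _ ≤ (‖L (x + t • (z - x))‖ * ‖z - x‖) ^ 2 := by gcongr
      _ = _ := by ring
  · exact ENNReal.ofReal_ne_top

variable [MeasurableSpace E] [BorelSpace E] [FiniteDimensional ℝ E] (μ : Measure E)
  [μ.IsAddHaarMeasure]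

/-- scaling and translating in an integral -/
theorem lintegral_homothety {F : E → ℝ≥0∞} (hF : Measurable F) {t : ℝ} (ht : 0 < t) (a : E) :
    ∫⁻ z, F (a + t • z) ∂μ = ENNReal.ofReal ((t ^ Module.finrank ℝ E)⁻¹) * ∫⁻ y, F y ∂μ := by
  have h1 : ∫⁻ z, F (a + t • z) ∂μ = ∫⁻ y, F (a + y) ∂(Measure.map (fun z => t • z) μ) :=
    (lintegral_map (f := fun y => F (a + y)) (g := fun z : E => t • z)
      (hF.comp (measurable_const_add a)) (measurable_const_smul t)).symm
  rw [h1, Measure.map_addHaar_smul μ ht.ne', lintegral_smul_measure, smul_eq_mul,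
    lintegral_add_left_eq_self, abs_of_pos (by positivity)]

/-- Tonelli for three variables -/
theorem tonelli3 {X Z T : Type*} [MeasurableSpace X] [MeasurableSpace Z] [MeasurableSpace T]
    {α : Measure X} {β : Measure Z} {γ : Measure T} [SFinite α] [SFinite β] [SFinite γ]
    {G : X → Z → T → ℝ≥0∞} (hG : Measurable fun p : X × Z × T => G p.1 p.2.1 p.2.2) :
    ∫⁻ x, ∫⁻ z, ∫⁻ t, G x z t ∂γ ∂β ∂α = ∫⁻ t, ∫⁻ x, ∫⁻ z, G x z t ∂β ∂α ∂γ := by
  have h1 : ∀ x, ∫⁻ z, ∫⁻ t, G x z t ∂γ ∂β = ∫⁻ t, ∫⁻ z, G x z t ∂β ∂γ := by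
    intro x
    apply lintegral_lintegral_swap
    exact (hG.comp (measurable_const.prodMk measurable_id)).aemeasurable
  simp only [h1]
  apply lintegral_lintegral_swap
  apply Measurable.aemeasurable
  have : Measurable fun q : (X × T) × Z => G q.1.1 q.2 q.1.2 :=
    hG.comp ((measurable_fst.comp measurable_fst).prodMk
      (measurable_snd.prodMk (measurable_snd.comp measurable_fst)))
  exact this.lintegral_prod_right'

/-- the bulk estimate -/
theorem bulk {K Z : Set E} (hK : Convex ℝ K) (hZK : Z ⊆ K) {w : E → ℝ} {L : E → (E →L[ℝ] ℝ)}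
    (hL : ContinuousOn L K) (hw : ∀ y ∈ K, HasFDerivWithinAt w (L y) K y)
    (hH : Measurable (K.indicator fun y => sq ‖L y‖)) (hKm : MeasurableSet K)
    (hZm : MeasurableSet Z) {ρ : ℝ} (hρ : ∀ x ∈ K, ∀ z ∈ K, ‖z - x‖ ≤ ρ) :
    ∫⁻ x in K, ∫⁻ z in Z, sq (w x - w z) ∂μ ∂μ ≤
      ENNReal.ofReal (ρ ^ 2) * (ENNReal.ofReal (2 ^ Module.finrank ℝ E) * μ K *
        ∫⁻ y in K, sq ‖L y‖ ∂μ) := by
  set H := K.indicator fun y => sq ‖L y‖ with hHdef
  set n := Module.finrank ℝ E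
  have step1 : ∫⁻ x in K, ∫⁻ z in Z, sq (w x - w z) ∂μ ∂μ ≤
      ∫⁻ x in K, ∫⁻ z in Z, ∫⁻ t in Icc (0:ℝ) 1,
        ENNReal.ofReal (ρ ^ 2) * H (x + t • (z - x)) ∂volume ∂μ ∂μ := by
    apply setLIntegral_mono' hKm
    intro x hx
    apply setLIntegral_mono' hZm
    intro z hz
    refine (seg hK hL hw hx (hZK hz)).trans ?_
    rw [lintegral_const_mul' _ _ ENNReal.ofReal_ne_top]
    gcongr
    exact hρ x hx z (hZK hz)
  have hG : Measurable fun p : E × E × ℝ =>
      ENNReal.ofReal (ρ ^ 2) * H (p.1 + p.2.2 • (p.2.1 - p.1)) := by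
    apply Measurable.const_mul
    apply hH.comp
    fun_prop
  rw [tonelli3 hG] at step1
  refine step1.trans ?_
  have step2 : ∀ t ∈ Icc (0:ℝ) 1, ∫⁻ x in K, ∫⁻ z in Z,
      ENNReal.ofReal (ρ ^ 2) * H (x + t • (z - x)) ∂μ ∂μ ≤
      ENNReal.ofReal (ρ ^ 2) * (ENNReal.ofReal (2 ^ n) * μ K * ∫⁻ y in K, sq ‖L y‖ ∂μ) := by
    intro t ht
    have hint : ∫⁻ y, H y ∂μ = ∫⁻ y in K, sq ‖L y‖ ∂μ := lintegral_indicator hKm _
    rw [← hint]
    by_cases ht2 : 1 / 2 ≤ t
    · have hin : ∀ x, ∫⁻ z in Z, ENNReal.ofReal (ρ ^ 2) * H (x + t • (z - x)) ∂μ ≤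
          ENNReal.ofReal (ρ ^ 2) * (ENNReal.ofReal (2 ^ n) * ∫⁻ y, H y ∂μ) := by
        intro x
        rw [lintegral_const_mul' _ _ ENNReal.ofReal_ne_top]
        gcongr
        calc ∫⁻ z in Z, H (x + t • (z - x)) ∂μ ≤ ∫⁻ z, H (x + t • (z - x)) ∂μ :=
              setLIntegral_le_lintegral _ _
          _ = ∫⁻ z, H ((x - t • x) + t • z) ∂μ := by
              congr 1; ext z; congr 1; rw [smul_sub]; abel
          _ = ENNReal.ofReal ((t ^ n)⁻¹) * ∫⁻ y, H y ∂μ :=
              lintegral_homothety μ hH (by linarith) _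
          _ ≤ _ := by
              gcongr
              rw [← inv_pow]
              have : t⁻¹ ≤ 2 := by
                rw [inv_le_comm₀ (by linarith) (by norm_num)]; linarith
              have h0 : 0 ≤ t⁻¹ := by positivity
              gcongr
      calc ∫⁻ x in K, ∫⁻ z in Z, ENNReal.ofReal (ρ ^ 2) * H (x + t • (z - x)) ∂μ ∂μ
          ≤ ∫⁻ x in K, ENNReal.ofReal (ρ ^ 2) * (ENNReal.ofReal (2 ^ n) * ∫⁻ y, H y ∂μ) ∂μ :=
            lintegral_mono fun x => hin x
        _ = _ := by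
            rw [setLIntegral_const]; ring
    · push Not at ht2
      have hm : Measurable fun p : E × E => ENNReal.ofReal (ρ ^ 2) * H (p.1 + t • (p.2 - p.1)) := by
        apply Measurable.const_mul
        apply hH.comp
        fun_prop
      rw [lintegral_lintegral_swap hm.aemeasurable]
      have hin : ∀ z, ∫⁻ x in K, ENNReal.ofReal (ρ ^ 2) * H (x + t • (z - x)) ∂μ ≤
          ENNReal.ofReal (ρ ^ 2) * (ENNReal.ofReal (2 ^ n) * ∫⁻ y, H y ∂μ) := by
        intro z
        rw [lintegral_const_mul' _ _ ENNReal.ofReal_ne_top]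
        gcongr
        calc ∫⁻ x in K, H (x + t • (z - x)) ∂μ ≤ ∫⁻ x, H (x + t • (z - x)) ∂μ :=
              setLIntegral_le_lintegral _ _
          _ = ∫⁻ x, H (t • z + (1 - t) • x) ∂μ := by
              congr 1; ext x; congr 1; rw [smul_sub, sub_smul, one_smul]; abel
          _ = ENNReal.ofReal (((1 - t) ^ n)⁻¹) * ∫⁻ y, H y ∂μ :=
              lintegral_homothety μ hH (by linarith) _
          _ ≤ _ := by
              gcongr
              rw [← inv_pow]
              have : (1 - t)⁻¹ ≤ 2 := by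
                rw [inv_le_comm₀ (by linarith) (by norm_num)]; linarith
              have h0 : 0 ≤ (1 - t)⁻¹ := inv_nonneg.2 (by linarith)
              gcongr
      calc ∫⁻ z in Z, ∫⁻ x in K, ENNReal.ofReal (ρ ^ 2) * H (x + t • (z - x)) ∂μ ∂μ
          ≤ ∫⁻ z in Z, ENNReal.ofReal (ρ ^ 2) * (ENNReal.ofReal (2 ^ n) * ∫⁻ y, H y ∂μ) ∂μ :=
            lintegral_mono fun x => hin x
        _ = ENNReal.ofReal (ρ ^ 2) * (ENNReal.ofReal (2 ^ n) * μ Z * ∫⁻ y, H y ∂μ) := by
            rw [setLIntegral_const]; ring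
        _ ≤ _ := by gcongr
  calc _ ≤ ∫⁻ _ in Icc (0:ℝ) 1, ENNReal.ofReal (ρ ^ 2) *
        (ENNReal.ofReal (2 ^ n) * μ K * ∫⁻ y in K, sq ‖L y‖ ∂μ) :=
        setLIntegral_mono' measurableSet_Icc step2
    _ = _ := by rw [setLIntegral_const]; simp

end Pool.Agent.W545.Man
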