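import Mathlib
import Pool.Agent.W545.Man.Seg
set_option autoImplicit false
open Set Filter Topology MeasureTheory Metric
open scoped ENNReal NNReal

namespace Pool.Agent.W545.Man

variable {E F : Type*} [NormedAddCommGroup E] [NormedSpace ℝ E] [MeasurableSpace E] [BorelSpace E]
  [FiniteDimensional ℝ E] (μ : Measure E) [μ.IsAddHaarMeasure]
  [NormedAddCommGroup F] [NormedSpace ℝ F] [MeasurableSpace F] [BorelSpace F]
  [FiniteDimensional ℝ F] (ν : Measure F) [ν.IsAddHaarMeasure]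

theorem vol_ball_le (x : F) {r s : ℝ} (hr : 0 < r) (hs : 0 ≤ s) (x0 : F) :
    ν (closedBall x (s * r)) = ENNReal.ofReal (s ^ Module.finrank ℝ F) * ν (closedBall x0 r) := by
  rw [Measure.addHaar_closedBall ν x (by positivity), Measure.addHaar_closedBall ν x0 hr.le,
    mul_pow, ENNReal.ofReal_mul (by positivity), mul_assoc]

omit [MeasurableSpace E] [BorelSpace E] [FiniteDimensional ℝ E] in
/-- the volume bound -/
theorem slice_vol (ι : F →L[ℝ] E) (π : E →L[ℝ] F) (hπι : ∀ x, π (ι x) = x)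
    (hπ : ∀ y, ‖π y‖ ≤ ‖y‖) (x0 : F) {r : ℝ} (hr : 0 < r) (p : E) {t : ℝ} (ht : 0 < t) :
    ν {x ∈ closedBall x0 r | ι x + t⁻¹ • (p - ι x) ∈ closedBall (ι x0) r} ≤
      ENNReal.ofReal ((2 * t) ^ Module.finrank ℝ F) * ν (closedBall x0 r) := by
  by_cases h2 : t ≤ 1 / 2
  · have h1t : 0 < 1 - t := by linarith
    rw [← vol_ball_le ν ((1 - t)⁻¹ • (π p - t • x0)) hr (by positivity) x0]
    apply measure_mono
    rintro x ⟨-, hx⟩
    rw [mem_closedBall, dist_eq_norm] at hx ⊢
    have e1 : t • (ι x + t⁻¹ • (p - ι x) - ι x0) = p - (1 - t) • ι x - t • ι x0 := by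
      rw [smul_sub, smul_add, smul_inv_smul₀ ht.ne', sub_smul, one_smul]; abel
    have h3 : ‖p - (1 - t) • ι x - t • ι x0‖ ≤ t * r := by
      rw [← e1, norm_smul, Real.norm_eq_abs, abs_of_pos ht]
      gcongr
    have h4 : ‖π p - (1 - t) • x - t • x0‖ ≤ t * r := by
      refine le_trans ?_ h3
      have := hπ (p - (1 - t) • ι x - t • ι x0)
      rwa [map_sub, map_sub, map_smul, map_smul, hπι, hπι] at this
    have e2 : x - (1 - t)⁻¹ • (π p - t • x0) = -((1 - t)⁻¹ • (π p - (1 - t) • x - t • x0)) := by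
      rw [smul_sub, smul_sub, smul_sub, inv_smul_smul₀ h1t.ne']; abel
    rw [e2, norm_neg, norm_smul, Real.norm_eq_abs, abs_of_pos (by positivity)]
    calc (1 - t)⁻¹ * ‖π p - (1 - t) • x - t • x0‖ ≤ 2 * (t * r) := by
          gcongr
          rw [inv_le_comm₀ h1t (by norm_num)]; linarith
      _ = 2 * t * r := by ring
  · push Not at h2
    calc ν {x ∈ closedBall x0 r | ι x + t⁻¹ • (p - ι x) ∈ closedBall (ι x0) r}
        ≤ ν (closedBall x0 r) := measure_mono (sep_subset _ _)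
      _ = 1 * ν (closedBall x0 r) := (one_mul _).symm
      _ ≤ _ := by
          gcongr
          rw [← ENNReal.ofReal_one]
          apply ENNReal.ofReal_le_ofReal
          exact one_le_pow₀ (by linarith)

/-- the trace estimate -/
theorem trace_est (ι : F →L[ℝ] E) (π : E →L[ℝ] F) (ht : E →L[ℝ] ℝ) (hπι : ∀ x, π (ι x) = x)
    (hπ : ∀ y, ‖π y‖ ≤ ‖y‖) (hιt : ∀ x, ht (ι x) = 0)
    (hn : Module.finrank ℝ E = Module.finrank ℝ F + 1)
    {x0 : F} {r : ℝ} (hr : 0 < r) {K Z : Set E} (hK : Convex ℝ K) (hKm : MeasurableSet K)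
    (hZm : MeasurableSet Z) (hDK : ∀ x ∈ closedBall x0 r, ι x ∈ K) (hZK : Z ⊆ K)
    (hKr : K ⊆ closedBall (ι x0) r)
    (hZ1 : ∀ z ∈ Z, r / 2 ≤ ht z) (hZ2 : ∀ z ∈ Z, ht z ≤ r)
    {w : E → ℝ} {L : E → (E →L[ℝ] ℝ)}
    (hL : ContinuousOn L K) (hw : ∀ y ∈ K, HasFDerivWithinAt w (L y) K y)
    (hH : Measurable (K.indicator fun y => sq ‖L y‖)) :
    ∫⁻ x in closedBall x0 r, ∫⁻ z in Z, sq (w (ι x) - w z) ∂μ ∂ν ≤
      ENNReal.ofReal ((2 * r) ^ 2) * (ENNReal.ofReal (2 ^ Module.finrank ℝ F) *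
        ν (closedBall x0 r) * ∫⁻ y in K, sq ‖L y‖ ∂μ) := by
  set H := K.indicator fun y => sq ‖L y‖ with hHdef
  set d := Module.finrank ℝ F
  set D := closedBall x0 r
  have hDm : MeasurableSet D := isClosed_closedBall.measurableSet
  have hint : ∫⁻ y, H y ∂μ = ∫⁻ y in K, sq ‖L y‖ ∂μ := lintegral_indicator hKm _
  have step1 : ∫⁻ x in D, ∫⁻ z in Z, sq (w (ι x) - w z) ∂μ ∂ν ≤
      ∫⁻ x in D, ∫⁻ z in Z, ∫⁻ t in Ioc (0:ℝ) 1,
        ENNReal.ofReal ((2 * r) ^ 2) * H (ι x + t • (z - ι x)) ∂volume ∂μ ∂ν := by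
    apply setLIntegral_mono' hDm
    intro x hx
    apply setLIntegral_mono' hZm
    intro z hz
    refine (seg hK hL hw (hDK x hx) (hZK hz)).trans ?_
    rw [lintegral_const_mul' _ _ ENNReal.ofReal_ne_top, setLIntegral_congr Ioc_ae_eq_Icc.symm]
    gcongr
    have h1 := hKr (hDK x hx)
    have h2 := hKr (hZK hz)
    rw [mem_closedBall, dist_eq_norm] at h1 h2
    calc ‖z - ι x‖ = ‖(z - ι x0) - (ι x - ι x0)‖ := by congr 1; abel
      _ ≤ ‖z - ι x0‖ + ‖ι x - ι x0‖ := norm_sub_le _ _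
      _ ≤ 2 * r := by linarith
  refine step1.trans ?_
  have hG : Measurable fun p : F × E × ℝ =>
      ENNReal.ofReal ((2 * r) ^ 2) * H (ι p.1 + p.2.2 • (p.2.1 - ι p.1)) := by
    apply Measurable.const_mul
    apply hH.comp
    have := ι.continuous.measurable
    fun_prop
  rw [tonelli3 hG]
  -- change of variables
  have step2 : ∀ t ∈ Ioc (0:ℝ) 1, ∀ x : F, ∫⁻ z in Z,
      ENNReal.ofReal ((2 * r) ^ 2) * H (ι x + t • (z - ι x)) ∂μ =
      ENNReal.ofReal ((2 * r) ^ 2) * (ENNReal.ofReal ((t ^ (d + 1))⁻¹) *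
        ∫⁻ p, Z.indicator 1 (ι x + t⁻¹ • (p - ι x)) * H p ∂μ) := by
    intro t ht x
    rw [lintegral_const_mul' _ _ ENNReal.ofReal_ne_top]
    congr 1
    have hΦ : Measurable fun p => Z.indicator (1 : E → ℝ≥0∞) (ι x + t⁻¹ • (p - ι x)) * H p := by
      apply Measurable.mul _ hH
      exact (measurable_one.indicator hZm).comp (by fun_prop)
    rw [← hn, ← lintegral_homothety μ hΦ ht.1 (ι x - t • ι x), ← lintegral_indicator hZm]
    congr 1
    ext z
    have e1 : ι x - t • ι x + t • z = ι x + t • (z - ι x) := by rw [smul_sub]; abel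
    rw [e1, add_sub_cancel_left, inv_smul_smul₀ ht.1.ne', add_sub_cancel]
    by_cases hz : z ∈ Z
    · simp [hz]
    · simp [hz]
  have step3 : ∫⁻ t in Ioc (0:ℝ) 1, ∫⁻ x in D, ∫⁻ z in Z,
      ENNReal.ofReal ((2 * r) ^ 2) * H (ι x + t • (z - ι x)) ∂μ ∂ν ∂volume =
      ENNReal.ofReal ((2 * r) ^ 2) * ∫⁻ t in Ioc (0:ℝ) 1, ∫⁻ x in D, ∫⁻ p,
        ENNReal.ofReal ((t ^ (d + 1))⁻¹) * (Z.indicator 1 (ι x + t⁻¹ • (p - ι x)) * H p)
          ∂μ ∂ν ∂volume := by
    rw [← lintegral_const_mul' _ _ ENNReal.ofReal_ne_top]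
    apply setLIntegral_congr_fun measurableSet_Ioc
    intro t ht
    dsimp only
    rw [← lintegral_const_mul' _ _ ENNReal.ofReal_ne_top]
    congr 1
    ext x
    rw [step2 t ht x, ← lintegral_const_mul' _ _ ENNReal.ofReal_ne_top]
  rw [step3]
  gcongr
  -- Tonelli again
  have hG2 : Measurable fun q : ℝ × F × E => ENNReal.ofReal ((q.1 ^ (d + 1))⁻¹) *
      (Z.indicator (1 : E → ℝ≥0∞) (ι q.2.1 + q.1⁻¹ • (q.2.2 - ι q.2.1)) * H q.2.2) := by
    apply Measurable.mul
    · fun_prop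
    · apply Measurable.mul
      · have := ι.continuous.measurable
        exact (measurable_one.indicator hZm).comp (by fun_prop)
      · exact hH.comp (by fun_prop)
  rw [tonelli3 hG2, ← hint, ← lintegral_const_mul' _ _ (by
    apply ENNReal.mul_ne_top ENNReal.ofReal_ne_top
    exact (isCompact_closedBall x0 r).measure_lt_top.ne)]
  apply lintegral_mono
  intro p
  dsimp only
  -- bracket
  have bracket : ∫⁻ t in Ioc (0:ℝ) 1, ∫⁻ x in D, ENNReal.ofReal ((t ^ (d + 1))⁻¹) *
      Z.indicator (1 : E → ℝ≥0∞) (ι x + t⁻¹ • (p - ι x)) ∂ν ≤ ENNReal.ofReal (2 ^ d) * ν D := by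
    set a := ht p / r with ha
    have hb : ∀ t ∈ Ioc (0:ℝ) 1, ∫⁻ x in D, ENNReal.ofReal ((t ^ (d + 1))⁻¹) *
        Z.indicator (1 : E → ℝ≥0∞) (ι x + t⁻¹ • (p - ι x)) ∂ν ≤
        (Icc a (2 * a)).indicator (fun _ => ENNReal.ofReal (2 ^ d * a⁻¹) * ν D) t := by
      intro t htt
      by_cases hta : t ∈ Icc a (2 * a)
      · rw [indicator_of_mem hta]
        have ha0 : 0 < a := by
          have h1 := hta.1; have h2 := hta.2; have := htt.1
          linarith
        rw [lintegral_const_mul' _ _ ENNReal.ofReal_ne_top]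
        have hle : ∫⁻ x in D, Z.indicator (1 : E → ℝ≥0∞) (ι x + t⁻¹ • (p - ι x)) ∂ν ≤
            ENNReal.ofReal ((2 * t) ^ d) * ν D := by
          refine le_trans ?_ (slice_vol ν ι π hπι hπ x0 hr p htt.1)
          have hms : MeasurableSet {x | x ∈ D ∧ ι x + t⁻¹ • (p - ι x) ∈ closedBall (ι x0) r} := by
            apply MeasurableSet.inter hDm
            have hc : Continuous fun x => ι x + t⁻¹ • (p - ι x) := by
              have := ι.continuous
              fun_prop
            exact (isClosed_closedBall.preimage hc).measurableSet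
          rw [← lintegral_indicator_one hms, ← lintegral_indicator hDm]
          apply lintegral_mono
          intro x
          by_cases hxD : x ∈ D
          · rw [indicator_of_mem hxD]
            by_cases hxZ : ι x + t⁻¹ • (p - ι x) ∈ Z
            · rw [indicator_of_mem hxZ, indicator_of_mem]
              · simp
              · exact ⟨hxD, hKr (hZK hxZ)⟩
            · rw [indicator_of_notMem hxZ]; exact zero_le
          · rw [indicator_of_notMem hxD]; exact zero_le
        calc ENNReal.ofReal ((t ^ (d + 1))⁻¹) *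
            ∫⁻ x in D, Z.indicator (1 : E → ℝ≥0∞) (ι x + t⁻¹ • (p - ι x)) ∂ν
            ≤ ENNReal.ofReal ((t ^ (d + 1))⁻¹) * (ENNReal.ofReal ((2 * t) ^ d) * ν D) := by gcongr
          _ = ENNReal.ofReal ((t ^ (d + 1))⁻¹ * (2 * t) ^ d) * ν D := by
              rw [ENNReal.ofReal_mul (by have := htt.1; positivity), mul_assoc]
          _ ≤ _ := by
              have : (t ^ (d + 1))⁻¹ * (2 * t) ^ d = 2 ^ d * t⁻¹ := by
                have := htt.1
                rw [mul_pow, pow_succ]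
                field_simp
              rw [this]
              gcongr
              exact hta.1
      · rw [indicator_of_notMem hta]
        have hz : ∀ x, Z.indicator (1 : E → ℝ≥0∞) (ι x + t⁻¹ • (p - ι x)) = 0 := by
          intro x
          apply indicator_of_notMem
          intro hx
          apply hta
          have h1 := hZ1 _ hx
          have h2 := hZ2 _ hx
          have e : ht (ι x + t⁻¹ • (p - ι x)) = t⁻¹ * ht p := by
            simp [hιt]
          rw [e] at h1 h2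
          have ht0 := htt.1
          rw [inv_mul_eq_div, div_le_iff₀ ht0] at h2
          rw [inv_mul_eq_div, le_div_iff₀ ht0] at h1
          constructor
          · rw [ha, div_le_iff₀ hr]; linarith
          · rw [ha, mul_div_assoc', le_div_iff₀ hr]; linarith
        simp [hz]
    calc ∫⁻ t in Ioc (0:ℝ) 1, ∫⁻ x in D, ENNReal.ofReal ((t ^ (d + 1))⁻¹) *
        Z.indicator (1 : E → ℝ≥0∞) (ι x + t⁻¹ • (p - ι x)) ∂ν
        ≤ ∫⁻ t in Ioc (0:ℝ) 1,
          (Icc a (2 * a)).indicator (fun _ => ENNReal.ofReal (2 ^ d * a⁻¹) * ν D) t :=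
          setLIntegral_mono' measurableSet_Ioc hb
      _ ≤ ∫⁻ t, (Icc a (2 * a)).indicator (fun _ => ENNReal.ofReal (2 ^ d * a⁻¹) * ν D) t :=
          setLIntegral_le_lintegral _ _
      _ = ENNReal.ofReal (2 ^ d * a⁻¹) * ν D * volume (Icc a (2 * a)) := by
          rw [lintegral_indicator measurableSet_Icc, setLIntegral_const]
      _ ≤ _ := by
          rw [Real.volume_Icc]
          by_cases ha0 : 0 < a
          · rw [mul_right_comm, ← ENNReal.ofReal_mul (by positivity)]
            gcongr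
            have : 2 ^ d * a⁻¹ * (2 * a - a) = 2 ^ d := by field_simp; ring
            rw [this]
          · rw [show ENNReal.ofReal (2 * a - a) = 0 from ENNReal.ofReal_of_nonpos (by linarith)]
            simp
  calc ∫⁻ t in Ioc (0:ℝ) 1, ∫⁻ x in D, ENNReal.ofReal ((t ^ (d + 1))⁻¹) *
      (Z.indicator (1 : E → ℝ≥0∞) (ι x + t⁻¹ • (p - ι x)) * H p) ∂ν ∂volume
      = (∫⁻ t in Ioc (0:ℝ) 1, ∫⁻ x in D, ENNReal.ofReal ((t ^ (d + 1))⁻¹) *
      Z.indicator (1 : E → ℝ≥0∞) (ι x + t⁻¹ • (p - ι x)) ∂ν) * H p := by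
        have hm1 : Measurable fun q : ℝ × F => ENNReal.ofReal ((q.1 ^ (d + 1))⁻¹) *
            Z.indicator (1 : E → ℝ≥0∞) (ι q.2 + q.1⁻¹ • (p - ι q.2)) := by
          apply Measurable.mul
          · fun_prop
          · have := ι.continuous.measurable
            exact (measurable_one.indicator hZm).comp (by fun_prop)
        rw [← lintegral_mul_const _ hm1.lintegral_prod_right']
        congr 1
        ext t
        rw [← lintegral_mul_const]
        · congr 1; ext x; ring
        · exact hm1.comp (measurable_const.prodMk measurable_id)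
    _ ≤ _ := by gcongr

end Pool.Agent.W545.Man
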