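import Mathlib
import Pool.Agent.W545.Man.Defs
import Pool.Agent.W545.Man.Trace
set_option autoImplicit false
open Set Filter Topology MeasureTheory Metric
open scoped ENNReal Manifold ContDiff

namespace Pool.Agent.W545.Man

variable {d : ℕ}

/-- `inj` as a linear map -/
noncomputable def injL (d : ℕ) : FF d →L[ℝ] EE d :=
  LinearMap.toContinuousLinearMap
    { toFun := inj
      map_add' := by
        intro x y; ext i
        refine Fin.cases ?_ (fun j => ?_) i
        · simp [inj]
        · simp [inj]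
      map_smul' := by
        intro a x; ext i
        refine Fin.cases ?_ (fun j => ?_) i
        · simp [inj]
        · simp [inj] }

/-- the projection to the last `d` coordinates -/
noncomputable def tailL (d : ℕ) : EE d →L[ℝ] FF d :=
  LinearMap.toContinuousLinearMap
    { toFun := fun y => WithLp.toLp 2 fun i => y (Fin.succ i)
      map_add' := by intro x y; ext i; simp
      map_smul' := by intro a x; ext i; simp }

theorem injL_apply (x : FF d) : injL d x = inj x := rfl

theorem inj_zero_coord (x : FF d) : inj x 0 = 0 := rfl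

theorem tail_inj (x : FF d) : tailL d (injL d x) = x := by
  ext i
  rfl

theorem norm_tail_le (y : EE d) : ‖tailL d y‖ ≤ ‖y‖ := by
  rw [EuclideanSpace.norm_eq, EuclideanSpace.norm_eq]
  apply Real.sqrt_le_sqrt
  rw [Fin.sum_univ_succ]
  have : 0 ≤ ‖y 0‖ ^ 2 := sq_nonneg _
  have e : ∀ i, ‖(tailL d y) i‖ = ‖y (Fin.succ i)‖ := fun i => rfl
  simp only [e]
  linarith

theorem norm_inj (x : FF d) : ‖inj x‖ = ‖x‖ := by
  rw [EuclideanSpace.norm_eq, EuclideanSpace.norm_eq, Fin.sum_univ_succ]
  have e : ∀ i, ‖inj x (Fin.succ i)‖ = ‖x i‖ := fun i => rfl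
  simp [inj_zero_coord, e]

theorem inj_sub (x y : FF d) : inj x - inj y = inj (x - y) := by
  rw [← injL_apply, ← injL_apply, ← injL_apply, map_sub]

/-- half ball -/
def HB (x0 : FF d) (r : ℝ) : Set (EE d) := closedBall (inj x0) r ∩ {y | 0 ≤ y 0}

/-- top ball -/
noncomputable def ZB (x0 : FF d) (r : ℝ) : Set (EE d) :=
  closedBall (inj x0 + EuclideanSpace.single 0 (3 / 4 * r)) (r / 4)

theorem abs_coord_le (y : EE d) (i : Fin (d + 1)) : |y i| ≤ ‖y‖ := by
  have := PiLp.norm_apply_le y i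
  rwa [Real.norm_eq_abs] at this

theorem ZB_coord {x0 : FF d} {r : ℝ} {z : EE d} (hz : z ∈ ZB x0 r) :
    r / 2 ≤ z 0 ∧ z 0 ≤ r := by
  unfold ZB at hz
  rw [mem_closedBall, dist_eq_norm] at hz
  have h1 := (abs_coord_le _ 0).trans hz
  have e : (z - (inj x0 + EuclideanSpace.single 0 (3 / 4 * r)) : EE d) 0 = z 0 - 3 / 4 * r := by
    simp [inj_zero_coord]
  rw [e, abs_le] at h1
  constructor <;> linarith [h1.1, h1.2]

theorem ZB_sub {x0 : FF d} {r : ℝ} (hr : 0 < r) : ZB x0 r ⊆ HB x0 r := by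
  intro z hz
  refine ⟨?_, ?_⟩
  · unfold ZB at hz
    rw [mem_closedBall, dist_eq_norm] at hz ⊢
    have h1 : ‖z - inj x0‖ ≤ ‖z - (inj x0 + EuclideanSpace.single 0 (3 / 4 * r))‖ +
        ‖(EuclideanSpace.single 0 (3 / 4 * r) : EE d)‖ := by
      have := norm_add_le (z - (inj x0 + EuclideanSpace.single 0 (3 / 4 * r)))
        (EuclideanSpace.single 0 (3 / 4 * r) : EE d)
      refine le_trans (le_of_eq ?_) this
      congr 1; abel
    have h2 : ‖(EuclideanSpace.single 0 (3 / 4 * r) : EE d)‖ = 3 / 4 * r := by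
      rw [PiLp.norm_single, Real.norm_eq_abs, abs_of_pos (by positivity)]
    linarith
  · have := (ZB_coord hz).1
    show 0 ≤ z 0
    linarith

theorem HB_convex (x0 : FF d) (r : ℝ) : Convex ℝ (HB x0 r) :=
  (convex_closedBall _ _).inter (EuclideanHalfSpace.convex (n := d + 1))

theorem halfspace_closed : IsClosed {y : EE d | 0 ≤ y 0} := by
  have : Continuous fun y : EE d => y 0 := by fun_prop
  exact isClosed_le continuous_const this

theorem HB_compact (x0 : FF d) (r : ℝ) : IsCompact (HB x0 r) :=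
  (isCompact_closedBall _ _).inter_right halfspace_closed

theorem HB_meas (x0 : FF d) (r : ℝ) : MeasurableSet (HB x0 r) := (HB_compact x0 r).measurableSet

theorem inj_mem_HB {x0 x : FF d} {r : ℝ} : inj x ∈ HB x0 r ↔ x ∈ closedBall x0 r := by
  unfold HB
  rw [mem_inter_iff, mem_closedBall, mem_closedBall, dist_eq_norm, dist_eq_norm, inj_sub, norm_inj]
  constructor
  · exact fun h => h.1
  · intro h
    refine ⟨h, ?_⟩
    show 0 ≤ inj x 0
    rw [inj_zero_coord]

theorem sq_meas_ind {K : Set (EE d)} (hK : IsCompact K) {L : EE d → (EE d →L[ℝ] ℝ)}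
    (hL : ContinuousOn L K) : Measurable (K.indicator fun y => sq ‖L y‖) := by
  have h1 : ContinuousOn (fun y => sq ‖L y‖) K := by
    unfold sq
    exact ENNReal.continuous_ofReal.comp_continuousOn ((hL.norm).pow 2)
  classical
  have := h1.measurable_piecewise (continuousOn_const (c := (0:ℝ≥0∞)) (s := Kᶜ)) hK.measurableSet
  convert this using 1
  ext y
  by_cases hy : y ∈ K <;> simp [hy]

/-- the constant in the trace estimate -/
noncomputable def CT (d : ℕ) : ℝ≥0∞ :=
  ENNReal.ofReal (4 * 2 ^ d * 4 ^ (d + 1)) * (volume (ball (0 : FF d) 1) / volume (ball (0 : EE d) 1))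

theorem vball_pos : volume (ball (0 : EE d) 1) ≠ 0 := (measure_ball_pos _ _ one_pos).ne'

theorem vball_top : volume (ball (0 : EE d) 1) ≠ ⊤ := measure_ball_lt_top.ne

theorem CT_ne_top (d : ℕ) : CT d ≠ ⊤ := by
  unfold CT
  apply ENNReal.mul_ne_top ENNReal.ofReal_ne_top
  exact ENNReal.div_ne_top measure_ball_lt_top.ne vball_pos

theorem ZB_vol {x0 : FF d} {r : ℝ} (hr : 0 < r) : volume (ZB x0 r) =
    ENNReal.ofReal ((r / 4) ^ (d + 1)) * volume (ball (0 : EE d) 1) := by
  unfold ZB
  rw [Measure.addHaar_closedBall _ _ (by positivity), finrank_euclideanSpace_fin]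

/-- Poincaré trace inequality on a half ball of radius `r`, scaling correctly -/
theorem trace_scale {x0 : FF d} {r : ℝ} (hr : 0 < r) {w : EE d → ℝ} {L : EE d → (EE d →L[ℝ] ℝ)}
    (hL : ContinuousOn L (HB x0 r)) (hw : ∀ y ∈ HB x0 r, HasFDerivWithinAt w (L y) (HB x0 r) y)
    (hwc : ContinuousOn w (HB x0 r)) :
    ∃ c : ℝ, ∫⁻ x in closedBall x0 r, sq (w (inj x) - c) ≤
      CT d * ENNReal.ofReal r * ∫⁻ y in HB x0 r, sq ‖L y‖ := by
  have hmain := trace_est volume volume (injL d) (tailL d)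
    (EuclideanSpace.proj (𝕜 := ℝ) (0 : Fin (d + 1))) tail_inj norm_tail_le (fun x => rfl)
    (by rw [finrank_euclideanSpace_fin, finrank_euclideanSpace_fin]) hr (HB_convex x0 r)
    (HB_meas x0 r) (Z := ZB x0 r) isClosed_closedBall.measurableSet
    (fun x hx => inj_mem_HB.2 hx) (ZB_sub hr) inter_subset_left (fun z hz => (ZB_coord hz).1)
    (fun z hz => (ZB_coord hz).2) hL hw (sq_meas_ind (HB_compact x0 r) hL)
  -- swap and choose
  have hZpos : volume (ZB x0 r) ≠ 0 := by
    rw [ZB_vol hr]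
    have := vball_pos (d := d)
    have h2 : ENNReal.ofReal ((r / 4) ^ (d + 1)) ≠ 0 := by
      rw [Ne, ENNReal.ofReal_eq_zero, not_le]; positivity
    exact mul_ne_zero h2 this
  have hZtop : volume (ZB x0 r) ≠ ⊤ := (isCompact_closedBall _ _).measure_lt_top.ne
  have hcont : ContinuousOn (fun p : FF d × EE d => sq (w (injL d p.1) - w p.2))
      (closedBall x0 r ×ˢ ZB x0 r) := by
    unfold sq
    apply ENNReal.continuous_ofReal.comp_continuousOn
    apply ContinuousOn.pow
    apply ContinuousOn.sub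
    · exact hwc.comp ((injL d).continuous.comp continuous_fst).continuousOn
        (fun p hp => inj_mem_HB.2 hp.1)
    · exact hwc.comp continuous_snd.continuousOn (fun p hp => ZB_sub hr hp.2)
  have hDm : MeasurableSet (closedBall x0 r) := isClosed_closedBall.measurableSet
  have hZm : MeasurableSet (ZB x0 r) := isClosed_closedBall.measurableSet
  have haem : AEMeasurable (fun p : FF d × EE d => sq (w (injL d p.1) - w p.2))
      ((volume.restrict (closedBall x0 r)).prod (volume.restrict (ZB x0 r))) := by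
    rw [Measure.prod_restrict]
    exact hcont.aemeasurable (hDm.prod hZm)
  rw [lintegral_lintegral_swap haem] at hmain
  obtain ⟨z, hz, hle⟩ := exists_le_setLAverage (f := fun z => ∫⁻ x in closedBall x0 r,
    sq (w (injL d x) - w z)) hZpos hZtop (by
      exact (haem.prod_swap).lintegral_prod_right')
  refine ⟨w z, hle.trans ?_⟩
  rw [setLAverage_eq]
  refine (ENNReal.div_le_div_right hmain _).trans ?_
  rw [ZB_vol hr, finrank_euclideanSpace_fin, Measure.addHaar_closedBall _ _ hr.le,
    finrank_euclideanSpace_fin]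
  unfold CT
  set I0 := ∫⁻ y in HB x0 r, sq ‖L y‖
  set vF := volume (ball (0 : FF d) 1)
  set vE := volume (ball (0 : EE d) 1)
  apply le_of_eq
  rw [ENNReal.div_eq_inv_mul, ENNReal.div_eq_inv_mul, ENNReal.mul_inv (by
    left; rw [Ne, ENNReal.ofReal_eq_zero, not_le]; positivity) (by left; exact ENNReal.ofReal_ne_top),
    ← ENNReal.ofReal_inv_of_pos (by positivity)]
  have e : (r / 4) ^ (d + 1) ≠ 0 := by positivity
  have key : ENNReal.ofReal (((r / 4) ^ (d + 1))⁻¹) * (ENNReal.ofReal ((2 * r) ^ 2) *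
      ENNReal.ofReal (2 ^ d) * ENNReal.ofReal (r ^ d)) =
      ENNReal.ofReal (4 * 2 ^ d * 4 ^ (d + 1)) * ENNReal.ofReal r := by
    rw [← ENNReal.ofReal_mul (by positivity), ← ENNReal.ofReal_mul (by positivity),
      ← ENNReal.ofReal_mul (by positivity), ← ENNReal.ofReal_mul (by positivity)]
    congr 1
    rw [div_pow, pow_succ r]
    field_simp
    ring
  calc ENNReal.ofReal (((r / 4) ^ (d + 1))⁻¹) * vE⁻¹ *
      (ENNReal.ofReal ((2 * r) ^ 2) * (ENNReal.ofReal (2 ^ d) * (ENNReal.ofReal (r ^ d) * vF) * I0))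
      = (ENNReal.ofReal (((r / 4) ^ (d + 1))⁻¹) * (ENNReal.ofReal ((2 * r) ^ 2) *
      ENNReal.ofReal (2 ^ d) * ENNReal.ofReal (r ^ d))) * (vE⁻¹ * vF) * I0 := by ring
    _ = _ := by rw [key]; ring

end Pool.Agent.W545.Man
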