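import Mathlib
import Pool.Agent.W545.Man.Seg
set_option autoImplicit false
open Set Filter Topology MeasureTheory Metric
open scoped ENNReal NNReal

namespace Pool.Agent.W545.Man

variable {X : Type*} [MeasurableSpace X]

/-- the property that local bounds `D` on the sets `U a` give a bound `C D` on `A` -/
def PP {J : Type*} (κ : Measure X) (U : J → Set X) (A : Set X) : Prop :=
  ∃ C : ℝ≥0∞, C ≠ ⊤ ∧ ∀ u : X → ℝ, Measurable u → ∀ D : ℝ≥0∞,
    (∀ a, ∃ c : ℝ, ∫⁻ x in U a, sq (u x - c) ∂κ ≤ D) → ∃ c : ℝ, ∫⁻ x in A, sq (u x - c) ∂κ ≤ C * D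

theorem PP_base {J : Type*} (κ : Measure X) (U : J → Set X) (a : J) : PP κ U (U a) :=
  ⟨1, ENNReal.one_ne_top, fun u _ D h => by simpa using h a⟩

theorem sq_shift (u c c' : ℝ) : sq (u - c) ≤ 2 * sq (u - c') + 2 * sq (c' - c) := by
  have := sq_add_le (u - c') (c' - c)
  rwa [sub_add_sub_cancel] at this

theorem sq_meas {u : X → ℝ} (hu : Measurable u) (c : ℝ) : Measurable fun x => sq (u x - c) := by
  unfold sq
  fun_prop

theorem PP_union {J : Type*} {κ : Measure X} [IsFiniteMeasure κ] {U : J → Set X} {A B : Set X}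
    (hB : MeasurableSet B) (hA : PP κ U A) (hB' : PP κ U B) (hAB : κ (A ∩ B) ≠ 0) :
    PP κ U (A ∪ B) := by
  obtain ⟨CA, hCA, hA⟩ := hA
  obtain ⟨CB, hCB, hB'⟩ := hB'
  have hABt : κ (A ∩ B) ≠ ⊤ := measure_ne_top _ _
  refine ⟨CA + (2 * CB + 2 * ((2 * CA + 2 * CB) / κ (A ∩ B) * κ B)), ?_, ?_⟩
  · have : (2 * CA + 2 * CB) / κ (A ∩ B) ≠ ⊤ := by
      apply ENNReal.div_ne_top _ hAB
      finiteness
    finiteness
  intro u hu D hD
  obtain ⟨c, hc⟩ := hA u hu D hD
  obtain ⟨c', hc'⟩ := hB' u hu D hD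
  refine ⟨c, ?_⟩
  -- compare the constants
  have h1 : sq (c' - c) * κ (A ∩ B) ≤ (2 * CA + 2 * CB) * D := by
    calc sq (c' - c) * κ (A ∩ B) = ∫⁻ _ in A ∩ B, sq (c' - c) ∂κ := by rw [setLIntegral_const]
      _ ≤ ∫⁻ x in A ∩ B, (2 * sq (u x - c) + 2 * sq (u x - c')) ∂κ := by
          apply lintegral_mono
          intro x
          have := sq_add_le (c' - u x) (u x - c)
          rw [sub_add_sub_cancel] at this
          refine this.trans ?_
          rw [add_comm]
          have e : sq (c' - u x) = sq (u x - c') := by unfold sq; congr 1; ring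
          rw [e]
      _ = 2 * ∫⁻ x in A ∩ B, sq (u x - c) ∂κ + 2 * ∫⁻ x in A ∩ B, sq (u x - c') ∂κ := by
          rw [lintegral_add_left ((sq_meas hu c).const_mul _), lintegral_const_mul _ (sq_meas hu c),
            lintegral_const_mul _ (sq_meas hu c')]
      _ ≤ 2 * (CA * D) + 2 * (CB * D) := by
          gcongr
          · exact (lintegral_mono_set inter_subset_left).trans hc
          · exact (lintegral_mono_set inter_subset_right).trans hc'
      _ = _ := by ring
  have h2 : sq (c' - c) ≤ (2 * CA + 2 * CB) / κ (A ∩ B) * D := by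
    rw [← ENNReal.mul_le_mul_iff_left hAB hABt]
    refine h1.trans_eq ?_
    rw [ENNReal.div_eq_inv_mul]
    calc (2 * CA + 2 * CB) * D = (κ (A ∩ B))⁻¹ * κ (A ∩ B) * ((2 * CA + 2 * CB) * D) := by
          rw [ENNReal.inv_mul_cancel hAB hABt, one_mul]
      _ = _ := by ring
  calc ∫⁻ x in A ∪ B, sq (u x - c) ∂κ
      ≤ ∫⁻ x in A, sq (u x - c) ∂κ + ∫⁻ x in B, sq (u x - c) ∂κ := lintegral_union_le _ _ _
    _ ≤ CA * D + ∫⁻ x in B, (2 * sq (u x - c') + 2 * sq (c' - c)) ∂κ := by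
        gcongr with x
        exact sq_shift _ _ _
    _ = CA * D + (2 * ∫⁻ x in B, sq (u x - c') ∂κ + 2 * sq (c' - c) * κ B) := by
        rw [lintegral_add_right _ measurable_const, lintegral_const_mul _ (sq_meas hu c'),
          setLIntegral_const]
    _ ≤ CA * D + (2 * (CB * D) + 2 * ((2 * CA + 2 * CB) / κ (A ∩ B) * D) * κ B) := by
        gcongr
    _ = _ := by ring

/-- the chain lemma -/
theorem chain [TopologicalSpace X] [BorelSpace X] [ConnectedSpace X] (κ : Measure X)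
    [IsFiniteMeasure κ] [κ.IsOpenPosMeasure] {J : Type*} [Finite J] (U : J → Set X)
    (hU : ∀ a, IsOpen (U a)) (hcov : ⋃ a, U a = univ) : PP κ U univ := by
  classical
  have := Fintype.ofFinite J
  obtain ⟨x0⟩ : Nonempty X := inferInstance
  obtain ⟨a0, ha0⟩ : ∃ a, x0 ∈ U a := by
    have : x0 ∈ ⋃ a, U a := by rw [hcov]; trivial
    simpa using this
  -- families with the property
  let S : Set (Finset J) := {s | a0 ∈ s ∧ PP κ U (⋃ a ∈ s, U a)}
  have hne : ({a0} : Finset J) ∈ S := by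
    refine ⟨by simp, ?_⟩
    simpa using PP_base κ U a0
  obtain ⟨s, hs, hmax⟩ := (Set.toFinite S).exists_maximal ⟨_, hne⟩
  by_cases hall : (⋃ a ∈ s, U a) = univ
  · rw [← hall]; exact hs.2
  exfalso
  have hop1 : IsOpen (⋃ a ∈ s, U a) := isOpen_biUnion fun a _ => hU a
  have hop2 : IsOpen (⋃ a ∈ sᶜ, U a) := isOpen_biUnion fun a _ => hU a
  have hcov2 : (⋃ a ∈ s, U a) ∪ (⋃ a ∈ sᶜ, U a) = univ := by
    rw [eq_univ_iff_forall]
    intro x
    have : x ∈ ⋃ a, U a := by rw [hcov]; trivial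
    obtain ⟨a, ha⟩ := mem_iUnion.1 this
    by_cases has : a ∈ s
    · left; exact mem_biUnion has ha
    · right; exact mem_biUnion (by simpa using has) ha
  have hn2 : (⋃ a ∈ sᶜ, U a).Nonempty := by
    by_contra hcon
    rw [not_nonempty_iff_eq_empty] at hcon
    rw [hcon, union_empty] at hcov2
    exact hall hcov2
  have hmeet : ((⋃ a ∈ s, U a) ∩ (⋃ a ∈ sᶜ, U a)).Nonempty := by
    have hpre : IsPreconnected (univ : Set X) := isPreconnected_univ
    have := hpre _ _ hop1 hop2 (by rw [hcov2]) ⟨x0, trivial, mem_biUnion hs.1 ha0⟩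
      (by rw [univ_inter]; exact hn2)
    rwa [univ_inter] at this
  obtain ⟨x, hx1, hx2⟩ := hmeet
  obtain ⟨b, hb, hxb⟩ := mem_iUnion₂.1 hx2
  have hb' : b ∉ s := by simpa using hb
  have hpos : κ ((⋃ a ∈ s, U a) ∩ U b) ≠ 0 := by
    apply IsOpen.measure_ne_zero κ (hop1.inter (hU b)) ⟨x, hx1, hxb⟩
  have hnew : insert b s ∈ S := by
    refine ⟨Finset.mem_insert_of_mem hs.1, ?_⟩
    have : (⋃ a ∈ insert b s, U a) = (⋃ a ∈ s, U a) ∪ U b := by
      rw [Finset.set_biUnion_insert, union_comm]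
    rw [this]
    exact PP_union (hU b).measurableSet hs.2 (PP_base κ U b) hpos
  exact hb' (hmax hnew (Finset.subset_insert b s) (Finset.mem_insert_self b s))

end Pool.Agent.W545.Man
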