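import Mathlib
import Pool.Agent.W545.Man.Defs
import Pool.Agent.W545.Man.Seg
set_option autoImplicit false
open Set Filter Topology MeasureTheory
open scoped ENNReal Manifold ContDiff

namespace Pool.Agent.W545.Man

variable {d : ℕ} {Ω : Type*} [TopologicalSpace Ω] [ChartedSpace (EuclideanHalfSpace (d + 1)) Ω]
  [IsManifold (𝓡∂ (d + 1)) ∞ Ω]

/-- the chart -/
noncomputable abbrev ph (d : ℕ) {Ω : Type*} [TopologicalSpace Ω]
    [ChartedSpace (EuclideanHalfSpace (d + 1)) Ω] (c : Ω) : PartialEquiv Ω (EE d) := extChartAt (𝓡∂ (d + 1)) c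

/-- `u` in the chart -/
noncomputable def loc (d : ℕ) {Ω : Type*} [TopologicalSpace Ω]
    [ChartedSpace (EuclideanHalfSpace (d + 1)) Ω] (c : Ω) (u : Ω → ℝ) (y : EE d) : ℝ := u ((ph d c).symm y)

/-- derivative of `u` in the chart -/
noncomputable def Dloc (d : ℕ) {Ω : Type*} [TopologicalSpace Ω]
    [ChartedSpace (EuclideanHalfSpace (d + 1)) Ω] (c : Ω) (u : Ω → ℝ) (y : EE d) : EE d →L[ℝ] ℝ :=
  fderivWithin ℝ (loc d c u) (range (𝓡∂ (d + 1))) y

theorem coeff_apply (B : (z : Ω) → TangentSpace (𝓡∂ (d + 1)) z →L[ℝ] TangentSpace (𝓡∂ (d + 1)) z →L[ℝ] ℝ)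
    (c z : Ω) (v w : EE d) : coeff B c z v w =
      (B z : EE d →L[ℝ] EE d →L[ℝ] ℝ) (tangentCoordChange (𝓡∂ (d + 1)) c z z v)
        (tangentCoordChange (𝓡∂ (d + 1)) c z z w) := rfl

theorem tcc_inv {c z : Ω} (hz : z ∈ (ph d c).source) (v : EE d) :
    tangentCoordChange (𝓡∂ (d + 1)) z c z (tangentCoordChange (𝓡∂ (d + 1)) c z z v) = v := by
  rw [tangentCoordChange_comp ⟨⟨hz, mem_extChartAt_source z⟩, hz⟩, tangentCoordChange_self hz]

theorem tcc_inv' {c z : Ω} (hz : z ∈ (ph d c).source) (v : EE d) :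
    tangentCoordChange (𝓡∂ (d + 1)) c z z (tangentCoordChange (𝓡∂ (d + 1)) z c z v) = v := by
  rw [tangentCoordChange_comp ⟨⟨mem_extChartAt_source z, hz⟩, mem_extChartAt_source z⟩,
    tangentCoordChange_self (mem_extChartAt_source z)]

theorem coeff_symm (g : RMetric d Ω) (c z : Ω) (v w : EE d) :
    coeff g.inner c z v w = coeff g.inner c z w v := g.symm _ _ _

theorem coeff_pos (g : RMetric d Ω) {c z : Ω} (hz : z ∈ (ph d c).source) {v : EE d} (hv : v ≠ 0) :
    0 < coeff g.inner c z v v := by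
  rw [coeff_apply]
  apply g.pos
  intro h
  apply hv
  have := tcc_inv hz v
  rw [h] at this
  rw [← this]
  exact map_zero _

omit [IsManifold (𝓡∂ (d + 1)) ∞ Ω] in
theorem has_dif {u : Ω → ℝ} {x : Ω} (hu : MDifferentiableAt (𝓡∂ (d + 1)) 𝓘(ℝ, ℝ) u x) :
    HasFDerivWithinAt (loc d x u) (dif u x : EE d →L[ℝ] ℝ) (range (𝓡∂ (d + 1))) (ph d x x) :=
  hu.hasMFDerivAt.2

theorem has_Dloc {u : Ω → ℝ} {c x : Ω} (hx : x ∈ (ph d c).source)
    (hu : MDifferentiableAt (𝓡∂ (d + 1)) 𝓘(ℝ, ℝ) u x) :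
    HasFDerivWithinAt (loc d c u)
      ((dif u x : EE d →L[ℝ] ℝ).comp (tangentCoordChange (𝓡∂ (d + 1)) c x x))
      (range (𝓡∂ (d + 1))) (ph d c x) := by
  have h1 := has_dif hu
  have h2 := hasFDerivWithinAt_tangentCoordChange (I := 𝓡∂ (d + 1)) (x := c) (y := x) (z := x)
    ⟨hx, mem_extChartAt_source x⟩
  have e0 : (ph d x ∘ (ph d c).symm) (ph d c x) = ph d x x := by
    simp only [Function.comp_apply]
    rw [(ph d c).left_inv hx]
  rw [← e0] at h1
  have hmaps : MapsTo (ph d x ∘ (ph d c).symm) (range (𝓡∂ (d + 1))) (range (𝓡∂ (d + 1))) := by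
    intro y _
    exact mem_range_self _
  have h3 := h1.comp (ph d c x) h2 hmaps
  apply h3.congr_of_eventuallyEq
  · have : ∀ᶠ y in 𝓝[range (𝓡∂ (d + 1))] (ph d c x), (ph d c).symm y ∈ (ph d x).source := by
      have hc : ContinuousWithinAt (ph d c).symm (range (𝓡∂ (d + 1))) (ph d c x) :=
        (continuousAt_extChartAt_symm' hx).continuousWithinAt
      apply hc
      rw [(ph d c).left_inv hx]
      exact (isOpen_extChartAt_source x).mem_nhds (mem_extChartAt_source x)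
    filter_upwards [this] with y hy
    simp only [loc, Function.comp_apply]
    rw [(ph d x).left_inv hy]
  · simp only [loc, Function.comp_apply]
    rw [(ph d c).left_inv hx, (ph d x).left_inv (mem_extChartAt_source x)]

theorem Dloc_eq {u : Ω → ℝ} {c x : Ω} (hx : x ∈ (ph d c).source)
    (hu : MDifferentiableAt (𝓡∂ (d + 1)) 𝓘(ℝ, ℝ) u x) :
    Dloc d c u (ph d c x) = (dif u x : EE d →L[ℝ] ℝ).comp (tangentCoordChange (𝓡∂ (d + 1)) c x x) :=
  (has_Dloc hx hu).fderivWithin ((𝓡∂ (d + 1)).uniqueDiffOn _ (mem_range_self _))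

/-- `|du|²` in the chart -/
theorem gradSq_chart (g : RMetric d Ω) {u : Ω → ℝ} {c x : Ω} (hx : x ∈ (ph d c).source)
    (hu : MDifferentiableAt (𝓡∂ (d + 1)) 𝓘(ℝ, ℝ) u x) :
    gradSq g u x = ⨆ v : EE d, ENNReal.ofReal ((Dloc d c u (ph d c x) v) ^ 2 / coeff g.inner c x v v) := by
  unfold gradSq
  apply le_antisymm
  · apply iSup_le
    intro v
    refine le_iSup_of_le (tangentCoordChange (𝓡∂ (d + 1)) x c x v) ?_
    rw [coeff_apply, Dloc_eq hx hu, ContinuousLinearMap.comp_apply]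
    have e := tcc_inv' hx v
    exact (congrArg (fun v' : EE d => ENNReal.ofReal (((dif u x : EE d →L[ℝ] ℝ) v') ^ 2 /
      ((g.inner x : EE d →L[ℝ] EE d →L[ℝ] ℝ) v' v'))) e.symm).le
  · apply iSup_le
    intro v
    refine le_iSup_of_le (tangentCoordChange (𝓡∂ (d + 1)) c x x v) ?_
    rw [coeff_apply, Dloc_eq hx hu, ContinuousLinearMap.comp_apply]
    exact le_refl _

theorem sup_le_of_bound {L : EE d →L[ℝ] ℝ} {B : EE d → ℝ} {a : ℝ} (ha : 0 < a)
    (hB : ∀ v, a * ‖v‖ ^ 2 ≤ B v) :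
    ⨆ v : EE d, ENNReal.ofReal ((L v) ^ 2 / B v) ≤ ENNReal.ofReal (a⁻¹ * ‖L‖ ^ 2) := by
  apply iSup_le
  intro v
  apply ENNReal.ofReal_le_ofReal
  by_cases hv : v = 0
  · subst hv; simp; positivity
  have hv' : 0 < ‖v‖ := norm_pos_iff.2 hv
  have h1 : 0 < a * ‖v‖ ^ 2 := by positivity
  have h2 := L.le_opNorm v
  calc (L v) ^ 2 / B v ≤ (L v) ^ 2 / (a * ‖v‖ ^ 2) := by
        gcongr
        exact hB v
    _ ≤ (‖L‖ * ‖v‖) ^ 2 / (a * ‖v‖ ^ 2) := by
        gcongr ?_ / _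
        rw [← sq_abs, ← Real.norm_eq_abs]
        gcongr
    _ = a⁻¹ * ‖L‖ ^ 2 := by field_simp

theorem le_sup_of_bound {L : EE d →L[ℝ] ℝ} {B : EE d → ℝ} {b : ℝ} (hb : 0 < b)
    (hB0 : ∀ v, v ≠ 0 → 0 < B v) (hB : ∀ v, B v ≤ b * ‖v‖ ^ 2) :
    ENNReal.ofReal (b⁻¹ * ‖L‖ ^ 2) ≤ ⨆ v : EE d, ENNReal.ofReal ((L v) ^ 2 / B v) := by
  set v := (InnerProductSpace.toDual ℝ (EE d)).symm L with hv
  refine le_iSup_of_le v ?_
  apply ENNReal.ofReal_le_ofReal
  have h1 : L v = ‖v‖ ^ 2 := by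
    have : L = InnerProductSpace.toDual ℝ (EE d) v := by rw [hv]; simp
    rw [this, InnerProductSpace.toDual_apply_apply, real_inner_self_eq_norm_sq]
  have h2 : ‖L‖ = ‖v‖ := by rw [hv]; simp
  by_cases hv0 : v = 0
  · rw [h2, hv0]; simp
  have hv' : 0 < ‖v‖ := norm_pos_iff.2 hv0
  rw [h1, h2, le_div_iff₀ (hB0 v hv0)]
  calc b⁻¹ * ‖v‖ ^ 2 * B v ≤ b⁻¹ * ‖v‖ ^ 2 * (b * ‖v‖ ^ 2) := by
        gcongr
        exact hB v
    _ = (‖v‖ ^ 2) ^ 2 := by field_simp

/-- smoothness of `u` in the chart -/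
theorem loc_contDiff {u : Ω → ℝ} (hu : ContMDiff (𝓡∂ (d + 1)) 𝓘(ℝ, ℝ) ∞ u) (c : Ω) :
    ContDiffOn ℝ ∞ (loc d c u) (ph d c).target :=
  (hu.comp_contMDiffOn (contMDiffOn_extChartAt_symm c)).contDiffOn

omit [IsManifold (𝓡∂ (d + 1)) ∞ Ω] in
theorem target_nhds {c : Ω} {y : EE d} (hy : y ∈ (ph d c).target) :
    (ph d c).target ∈ 𝓝[range (𝓡∂ (d + 1))] y :=
  extChartAt_target_mem_nhdsWithin_of_mem hy

theorem Dloc_has {u : Ω → ℝ} (hu : ContMDiff (𝓡∂ (d + 1)) 𝓘(ℝ, ℝ) ∞ u) {c : Ω} {y : EE d}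
    (hy : y ∈ (ph d c).target) :
    HasFDerivWithinAt (loc d c u) (Dloc d c u y) (range (𝓡∂ (d + 1))) y := by
  have h1 := ((loc_contDiff hu c).differentiableOn (by simp)) y hy
  exact (h1.mono_of_mem_nhdsWithin (target_nhds hy)).hasFDerivWithinAt

theorem Dloc_cont {u : Ω → ℝ} (hu : ContMDiff (𝓡∂ (d + 1)) 𝓘(ℝ, ℝ) ∞ u) (c : Ω) :
    ContinuousOn (Dloc d c u) (ph d c).target := by
  have hud : UniqueDiffOn ℝ (ph d c).target := uniqueDiffOn_extChartAt_target c
  have h1 := (loc_contDiff hu c).continuousOn_fderivWithin hud (by simp)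
  apply h1.congr
  intro y hy
  exact ((Dloc_has hu hy).mono (extChartAt_target_subset_range c)).fderivWithin (hud y hy) |>.symm

/-- the coefficient functions are continuous in the chart -/
theorem coeff_cont (g : RMetric d Ω) (c : Ω) (v w : EE d) :
    ContinuousOn (fun y => coeff g.inner c ((ph d c).symm y) v w) (ph d c).target :=
  (g.smooth c v w).continuousOn

theorem coeff_sum (g : RMetric d Ω) (c z : Ω) (v w : EE d) :
    coeff g.inner c z v w = ∑ i, ∑ j, v i * w j * gram g c z i j := by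
  have hv : v = ∑ i, v i • EuclideanSpace.single i (1:ℝ) := by
    ext k; simp [Finset.sum_apply, Pi.single_apply]
  have hw : w = ∑ i, w i • EuclideanSpace.single i (1:ℝ) := by
    ext k; simp [Finset.sum_apply, Pi.single_apply]
  conv_lhs => rw [hv, hw]
  simp only [map_sum, map_smul, sum_apply, smul_apply,
    smul_eq_mul, gram, Matrix.of_apply, Finset.mul_sum]
  rw [Finset.sum_comm]
  refine Finset.sum_congr rfl fun i _ => Finset.sum_congr rfl fun j _ => ?_
  ring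

theorem coeff_cont2 (g : RMetric d Ω) (c : Ω) :
    ContinuousOn (fun q : EE d × EE d => coeff g.inner c ((ph d c).symm q.1) q.2 q.2)
      ((ph d c).target ×ˢ univ) := by
  have : (fun q : EE d × EE d => coeff g.inner c ((ph d c).symm q.1) q.2 q.2) =
      fun q => ∑ i, ∑ j, q.2 i * q.2 j * gram g c ((ph d c).symm q.1) i j := by
    funext q; exact coeff_sum g c _ _ _
  rw [this]
  refine continuousOn_finsetSum _ fun i _ => continuousOn_finsetSum _ fun j _ => ?_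
  have h1 : Continuous fun q : EE d × EE d => q.2 i * q.2 j := by fun_prop
  have h2 : ContinuousOn (fun y => gram g c ((ph d c).symm y) i j) (ph d c).target :=
    coeff_cont g c _ _
  have h3 : ContinuousOn (fun q : EE d × EE d => gram g c ((ph d c).symm q.1) i j)
      ((ph d c).target ×ˢ univ) := h2.comp continuousOn_fst (fun q hq => hq.1)
  exact h1.continuousOn.mul h3

theorem coeff_bounds (g : RMetric d Ω) (c : Ω) {K : Set (EE d)} (hK : IsCompact K)
    (hKt : K ⊆ (ph d c).target) : ∃ a b : ℝ, 0 < a ∧ 0 < b ∧ ∀ y ∈ K, ∀ v,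
      a * ‖v‖ ^ 2 ≤ coeff g.inner c ((ph d c).symm y) v v ∧
      coeff g.inner c ((ph d c).symm y) v v ≤ b * ‖v‖ ^ 2 := by
  by_cases hne : K.Nonempty
  swap
  · rw [not_nonempty_iff_eq_empty] at hne
    exact ⟨1, 1, one_pos, one_pos, fun y hy => by simp [hne] at hy⟩
  set S : Set (EE d) := Metric.sphere 0 1
  have hS : IsCompact S := isCompact_sphere 0 1
  have hSne : S.Nonempty := ⟨EuclideanSpace.single 0 1, by simp [S]⟩
  have hf : ContinuousOn (fun q : EE d × EE d => coeff g.inner c ((ph d c).symm q.1) q.2 q.2)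
      (K ×ˢ S) := (coeff_cont2 g c).mono (prod_mono hKt (subset_univ _))
  obtain ⟨p, hp, hpmin⟩ := (hK.prod hS).exists_isMinOn (hne.prod hSne) hf
  obtain ⟨q, hq, hqmax⟩ := (hK.prod hS).exists_isMaxOn (hne.prod hSne) hf
  have hpos : ∀ y ∈ K, ∀ v ∈ S, 0 < coeff g.inner c ((ph d c).symm y) v v := by
    intro y hy v hv
    apply coeff_pos g ((ph d c).map_target (hKt hy))
    rintro rfl
    simp [S] at hv
  refine ⟨_, _, hpos p.1 hp.1 p.2 hp.2, hpos q.1 hq.1 q.2 hq.2, ?_⟩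
  intro y hy v
  by_cases hv : v = 0
  · subst hv; simp
  have hv' : 0 < ‖v‖ := norm_pos_iff.2 hv
  have hunit : ‖v‖⁻¹ • v ∈ S := by
    simp [S, norm_smul, hv'.ne']
  have hscale : coeff g.inner c ((ph d c).symm y) v v =
      coeff g.inner c ((ph d c).symm y) (‖v‖⁻¹ • v) (‖v‖⁻¹ • v) * ‖v‖ ^ 2 := by
    simp only [map_smul, smul_apply, smul_eq_mul]
    field_simp
  rw [hscale]
  have h1 := hpmin (show (y, ‖v‖⁻¹ • v) ∈ K ×ˢ S from ⟨hy, hunit⟩)
  have h2 := hqmax (show (y, ‖v‖⁻¹ • v) ∈ K ×ˢ S from ⟨hy, hunit⟩)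
  simp only [mem_ofPred_eq] at h1 h2
  exact ⟨by gcongr, by gcongr⟩

theorem gram_posDef (g : RMetric d Ω) {c z : Ω} (hz : z ∈ (ph d c).source) :
    (gram g c z).PosDef := by
  rw [Matrix.posDef_iff_dotProduct_mulVec]
  refine ⟨?_, ?_⟩
  · ext i j
    rw [Matrix.conjTranspose_apply, star_trivial]
    exact coeff_symm g c z _ _
  · intro x hx
    have h1 := coeff_sum g c z (WithLp.toLp 2 x) (WithLp.toLp 2 x)
    have h2 : 0 < coeff g.inner c z (WithLp.toLp 2 x) (WithLp.toLp 2 x) := by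
      apply coeff_pos g hz
      intro h
      apply hx
      exact congrArg WithLp.ofLp h
    rw [h1] at h2
    have h3 : star x ⬝ᵥ (gram g c z).mulVec x = ∑ i, ∑ j, (WithLp.toLp 2 x : EE d) i *
        (WithLp.toLp 2 x : EE d) j * gram g c z i j := by
      simp only [dotProduct, Matrix.mulVec, star_trivial, Finset.mul_sum]
      refine Finset.sum_congr rfl fun i _ => Finset.sum_congr rfl fun j _ => ?_
      ring
    rw [h3]
    exact h2

theorem bgram_posDef (g : RMetric d Ω) {c z : Ω} (hz : z ∈ (ph d c).source) :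
    (bgram g c z).PosDef := (gram_posDef g hz).submatrix (Fin.succ_injective d)

theorem gram_cont (g : RMetric d Ω) (c : Ω) :
    ContinuousOn (fun y => gram g c ((ph d c).symm y)) (ph d c).target := by
  apply continuousOn_pi.2
  intro i
  apply continuousOn_pi.2
  intro j
  exact coeff_cont g c _ _

/-- bounds for the density of the volume -/
theorem det_bounds (g : RMetric d Ω) (c : Ω) {K : Set (EE d)} (hK : IsCompact K)
    (hKt : K ⊆ (ph d c).target) : ∃ a b : ℝ, 0 < a ∧ 0 < b ∧ ∀ y ∈ K,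
      a ≤ √(gram g c ((ph d c).symm y)).det ∧ √(gram g c ((ph d c).symm y)).det ≤ b := by
  by_cases hne : K.Nonempty
  swap
  · rw [not_nonempty_iff_eq_empty] at hne
    exact ⟨1, 1, one_pos, one_pos, fun y hy => by simp [hne] at hy⟩
  have hf : ContinuousOn (fun y => √(gram g c ((ph d c).symm y)).det) K := by
    apply ContinuousOn.sqrt
    exact Continuous.comp_continuousOn (Continuous.matrix_det continuous_id)
      ((gram_cont g c).mono hKt)
  obtain ⟨p, hp, hpmin⟩ := hK.exists_isMinOn hne hf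
  obtain ⟨q, hq, hqmax⟩ := hK.exists_isMaxOn hne hf
  have hpos : ∀ y ∈ K, 0 < √(gram g c ((ph d c).symm y)).det := fun y hy =>
    Real.sqrt_pos.2 (gram_posDef g ((ph d c).map_target (hKt hy))).det_pos
  exact ⟨_, _, hpos p hp, hpos q hq, fun y hy => ⟨hpmin hy, hqmax hy⟩⟩

/-- bounds for the density of the boundary volume -/
theorem bdet_bounds (g : RMetric d Ω) (c : Ω) {K : Set (EE d)} (hK : IsCompact K)
    (hKt : K ⊆ (ph d c).target) : ∃ a b : ℝ, 0 < a ∧ 0 < b ∧ ∀ y ∈ K,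
      a ≤ √(bgram g c ((ph d c).symm y)).det ∧ √(bgram g c ((ph d c).symm y)).det ≤ b := by
  by_cases hne : K.Nonempty
  swap
  · rw [not_nonempty_iff_eq_empty] at hne
    exact ⟨1, 1, one_pos, one_pos, fun y hy => by simp [hne] at hy⟩
  have hf : ContinuousOn (fun y => √(bgram g c ((ph d c).symm y)).det) K := by
    apply ContinuousOn.sqrt
    refine Continuous.comp_continuousOn (g := fun A : Matrix (Fin (d + 1)) (Fin (d + 1)) ℝ =>
      (A.submatrix Fin.succ Fin.succ).det) ?_ ((gram_cont g c).mono hKt)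
    exact Continuous.matrix_det (Continuous.matrix_submatrix continuous_id _ _)
  obtain ⟨p, hp, hpmin⟩ := hK.exists_isMinOn hne hf
  obtain ⟨q, hq, hqmax⟩ := hK.exists_isMaxOn hne hf
  have hpos : ∀ y ∈ K, 0 < √(bgram g c ((ph d c).symm y)).det := fun y hy =>
    Real.sqrt_pos.2 (bgram_posDef g ((ph d c).map_target (hKt hy))).det_pos
  exact ⟨_, _, hpos p hp, hpos q hq, fun y hy => ⟨hpmin hy, hqmax hy⟩⟩

end Pool.Agent.W545.Man
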