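import Mathlib
import Pool.Agent.W545.Man.Defs
import Pool.Agent.W545.Man.Chart
import Pool.Agent.W545.Man.HalfBall
set_option autoImplicit false
open Set Filter Topology MeasureTheory Metric
open scoped ENNReal Manifold ContDiff

namespace Pool.Agent.W545.Man

variable {d : ℕ} {Ω : Type*} [TopologicalSpace Ω] [ChartedSpace (EuclideanHalfSpace (d + 1)) Ω]
  [IsManifold (𝓡∂ (d + 1)) ∞ Ω]

/-- the subset of `Ω` which corresponds to `K` in the chart at `c` -/
def UK (d : ℕ) {Ω : Type*} [TopologicalSpace Ω] [ChartedSpace (EuclideanHalfSpace (d + 1)) Ω]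
    (c : Ω) (K : Set (EE d)) : Set Ω := (ph d c).source ∩ (ph d c) ⁻¹' K

omit [IsManifold (𝓡∂ (d + 1)) ∞ Ω] in
theorem UK_eq {c : Ω} {K : Set (EE d)} (hK : K ⊆ (ph d c).target) :
    UK d c K = (ph d c).symm '' K := by
  ext x
  constructor
  · rintro ⟨h1, h2⟩
    exact ⟨ph d c x, h2, (ph d c).left_inv h1⟩
  · rintro ⟨y, hy, rfl⟩
    exact ⟨(ph d c).map_target (hK hy), by
      show (ph d c) ((ph d c).symm y) ∈ K
      rwa [(ph d c).right_inv (hK hy)]⟩

omit [IsManifold (𝓡∂ (d + 1)) ∞ Ω] in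
theorem UK_compact {c : Ω} {K : Set (EE d)} (hK : K ⊆ (ph d c).target) (hc : IsCompact K) :
    IsCompact (UK d c K) := by
  rw [UK_eq hK]
  exact hc.image_of_continuousOn ((continuousOn_extChartAt_symm c).mono hK)

variable [MeasurableSpace Ω] [BorelSpace Ω] [T2Space Ω]

omit [IsManifold (𝓡∂ (d + 1)) ∞ Ω] in
theorem UK_meas {c : Ω} {K : Set (EE d)} (hK : K ⊆ (ph d c).target) (hc : IsCompact K) :
    MeasurableSet (UK d c K) := (UK_compact hK hc).measurableSet

omit [IsManifold (𝓡∂ (d + 1)) ∞ Ω] [T2Space Ω] in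
theorem source_meas (c : Ω) : MeasurableSet (chartAt (EuclideanHalfSpace (d + 1)) c).source :=
  (chartAt (EuclideanHalfSpace (d + 1)) c).open_source.measurableSet

omit [IsManifold (𝓡∂ (d + 1)) ∞ Ω] [MeasurableSpace Ω] [BorelSpace Ω] [T2Space Ω] in
theorem UK_sub {c : Ω} {K : Set (EE d)} :
    UK d c K ⊆ (chartAt (EuclideanHalfSpace (d + 1)) c).source := by
  intro x hx
  have := hx.1
  rwa [extChartAt_source] at this

/-- the change to coordinates on a compact set -/
theorem vol_UK {g : RMetric d Ω} {μ : Measure Ω} (hμ : IsVolume g μ) {c : Ω} {K : Set (EE d)}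
    (hK : K ⊆ (ph d c).target) (hc : IsCompact K) {f : EE d → ℝ≥0∞} (hf : Measurable f) :
    ∫⁻ x in UK d c K, f (ph d c x) ∂μ =
      ∫⁻ y in K, f y * ENNReal.ofReal (√(gram g c ((ph d c).symm y)).det) := by
  have h := hμ c (K.indicator f) (hf.indicator hc.measurableSet)
  have e1 : ∫⁻ x in (chartAt (EuclideanHalfSpace (d + 1)) c).source,
      K.indicator f (extChartAt (𝓡∂ (d + 1)) c x) ∂μ = ∫⁻ x in UK d c K, f (ph d c x) ∂μ := by
    have : ∀ x ∈ (chartAt (EuclideanHalfSpace (d + 1)) c).source,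
        K.indicator f (extChartAt (𝓡∂ (d + 1)) c x) =
          (UK d c K).indicator (fun x => f (ph d c x)) x := by
      intro x hx
      rw [← extChartAt_source (𝓡∂ (d + 1))] at hx
      by_cases hxK : ph d c x ∈ K
      · rw [indicator_of_mem hxK, indicator_of_mem (show x ∈ UK d c K from ⟨hx, hxK⟩)]
      · rw [indicator_of_notMem hxK, indicator_of_notMem (fun h => hxK h.2)]
    rw [setLIntegral_congr_fun (source_meas c) this, lintegral_indicator (UK_meas hK hc),
      Measure.restrict_restrict (UK_meas hK hc), inter_eq_left.2 UK_sub]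
  have e2 : ∫⁻ y in (extChartAt (𝓡∂ (d + 1)) c).target, K.indicator f y *
      ENNReal.ofReal (√(gram g c ((extChartAt (𝓡∂ (d + 1)) c).symm y)).det) =
      ∫⁻ y in K, f y * ENNReal.ofReal (√(gram g c ((ph d c).symm y)).det) := by
    have : ∀ y, K.indicator f y *
        ENNReal.ofReal (√(gram g c ((extChartAt (𝓡∂ (d + 1)) c).symm y)).det) =
        K.indicator (fun y => f y * ENNReal.ofReal (√(gram g c ((ph d c).symm y)).det)) y := by
      intro y
      by_cases hy : y ∈ K <;> simp [hy]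
    simp only [this]
    rw [lintegral_indicator hc.measurableSet, Measure.restrict_restrict hc.measurableSet,
      inter_eq_left.2 hK]
  rw [← e1, h, e2]

/-- the change to coordinates for the boundary measure on a compact set -/
theorem bvol_UK {g : RMetric d Ω} {ν : Measure Ω} (hν : IsBdryVolume g ν) {c : Ω} {K : Set (EE d)}
    (hK : K ⊆ (ph d c).target) (hc : IsCompact K) {f : EE d → ℝ≥0∞} (hf : Measurable f) :
    ∫⁻ x in UK d c K, f (ph d c x) ∂ν =
      ∫⁻ z in {z : FF d | inj z ∈ K},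
        f (inj z) * ENNReal.ofReal (√(bgram g c ((ph d c).symm (inj z))).det) := by
  have hKm : MeasurableSet {z : FF d | inj z ∈ K} :=
    (hc.isClosed.preimage (injL d).continuous).measurableSet
  have h := hν c (K.indicator f) (hf.indicator hc.measurableSet)
  have e1 : ∫⁻ x in (chartAt (EuclideanHalfSpace (d + 1)) c).source,
      K.indicator f (extChartAt (𝓡∂ (d + 1)) c x) ∂ν = ∫⁻ x in UK d c K, f (ph d c x) ∂ν := by
    have : ∀ x ∈ (chartAt (EuclideanHalfSpace (d + 1)) c).source,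
        K.indicator f (extChartAt (𝓡∂ (d + 1)) c x) =
          (UK d c K).indicator (fun x => f (ph d c x)) x := by
      intro x hx
      rw [← extChartAt_source (𝓡∂ (d + 1))] at hx
      by_cases hxK : ph d c x ∈ K
      · rw [indicator_of_mem hxK, indicator_of_mem (show x ∈ UK d c K from ⟨hx, hxK⟩)]
      · rw [indicator_of_notMem hxK, indicator_of_notMem (fun h => hxK h.2)]
    rw [setLIntegral_congr_fun (source_meas c) this, lintegral_indicator (UK_meas hK hc),
      Measure.restrict_restrict (UK_meas hK hc), inter_eq_left.2 UK_sub]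
  have e2 : ∫⁻ z in {z : FF d | inj z ∈ (extChartAt (𝓡∂ (d + 1)) c).target},
      K.indicator f (inj z) *
      ENNReal.ofReal (√(bgram g c ((extChartAt (𝓡∂ (d + 1)) c).symm (inj z))).det) =
      ∫⁻ z in {z : FF d | inj z ∈ K},
        f (inj z) * ENNReal.ofReal (√(bgram g c ((ph d c).symm (inj z))).det) := by
    have : ∀ z : FF d, K.indicator f (inj z) *
        ENNReal.ofReal (√(bgram g c ((extChartAt (𝓡∂ (d + 1)) c).symm (inj z))).det) =
        {z : FF d | inj z ∈ K}.indicator (fun z => f (inj z) *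
          ENNReal.ofReal (√(bgram g c ((ph d c).symm (inj z))).det)) z := by
      intro z
      by_cases hz : inj z ∈ K
      · rw [indicator_of_mem hz, indicator_of_mem (show z ∈ {z : FF d | inj z ∈ K} from hz)]
      · rw [indicator_of_notMem hz, indicator_of_notMem (show z ∉ {z : FF d | inj z ∈ K} from hz),
          zero_mul]
    simp only [this]
    rw [lintegral_indicator hKm, Measure.restrict_restrict hKm, inter_eq_left.2]
    intro z hz
    exact hK hz
  rw [← e1, h, e2]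

omit [IsManifold (𝓡∂ (d + 1)) ∞ Ω] [MeasurableSpace Ω] [BorelSpace Ω] [T2Space Ω] in
/-- values of `u` on `U_K` through the chart -/
theorem loc_val {u : Ω → ℝ} {c x : Ω} (hx : x ∈ (ph d c).source) : loc d c u (ph d c x) = u x := by
  unfold loc
  rw [(ph d c).left_inv hx]

theorem indicator_meas {K : Set (EE d)} (hK : IsCompact K) {f : EE d → ℝ≥0∞}
    (hf : ContinuousOn f K) : Measurable (K.indicator f) := by
  classical
  have := hf.measurable_piecewise (continuousOn_const (c := (0:ℝ≥0∞)) (s := Kᶜ)) hK.measurableSet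
  convert this using 1
  ext y
  by_cases hy : y ∈ K <;> simp [hy]

/-- transport of a function which is continuous in the chart -/
theorem vol_UK' {g : RMetric d Ω} {μ : Measure Ω} (hμ : IsVolume g μ) {c : Ω} {K : Set (EE d)}
    (hK : K ⊆ (ph d c).target) (hc : IsCompact K) {F : Ω → ℝ≥0∞} {f : EE d → ℝ≥0∞}
    (hf : ContinuousOn f K) (hF : ∀ x ∈ UK d c K, F x = f (ph d c x)) :
    ∫⁻ x in UK d c K, F x ∂μ =
      ∫⁻ y in K, f y * ENNReal.ofReal (√(gram g c ((ph d c).symm y)).det) := by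
  have h1 : ∫⁻ x in UK d c K, F x ∂μ = ∫⁻ x in UK d c K, K.indicator f (ph d c x) ∂μ := by
    apply setLIntegral_congr_fun (UK_meas hK hc)
    intro x hx
    simp only
    rw [hF x hx, indicator_of_mem (show ph d c x ∈ K from hx.2)]
  rw [h1, vol_UK hμ hK hc (indicator_meas hc hf)]
  apply setLIntegral_congr_fun hc.measurableSet
  intro y hy
  simp only
  rw [indicator_of_mem hy]

theorem bvol_UK' {g : RMetric d Ω} {ν : Measure Ω} (hν : IsBdryVolume g ν) {c : Ω}
    {K : Set (EE d)} (hK : K ⊆ (ph d c).target) (hc : IsCompact K) {F : Ω → ℝ≥0∞}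
    {f : EE d → ℝ≥0∞} (hf : ContinuousOn f K) (hF : ∀ x ∈ UK d c K, F x = f (ph d c x)) :
    ∫⁻ x in UK d c K, F x ∂ν = ∫⁻ z in {z : FF d | inj z ∈ K},
        f (inj z) * ENNReal.ofReal (√(bgram g c ((ph d c).symm (inj z))).det) := by
  have hKm : MeasurableSet {z : FF d | inj z ∈ K} :=
    (hc.isClosed.preimage (injL d).continuous).measurableSet
  have h1 : ∫⁻ x in UK d c K, F x ∂ν = ∫⁻ x in UK d c K, K.indicator f (ph d c x) ∂ν := by
    apply setLIntegral_congr_fun (UK_meas hK hc)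
    intro x hx
    simp only
    rw [hF x hx, indicator_of_mem (show ph d c x ∈ K from hx.2)]
  rw [h1, bvol_UK hν hK hc (indicator_meas hc hf)]
  apply setLIntegral_congr_fun hKm
  intro z hz
  simp only
  rw [indicator_of_mem (show inj z ∈ K from hz)]

/-- bounds of integrals over `U_K` by integrals over `K`: constants depend only on `g`, `c`, and
a compact set containing `K` -/
theorem vol_bounds (g : RMetric d Ω) (c : Ω) {K0 : Set (EE d)} (hK0 : K0 ⊆ (ph d c).target)
    (hc0 : IsCompact K0) : ∃ a b : ℝ, 0 < a ∧ 0 < b ∧ ∀ (μ : Measure Ω), IsVolume g μ →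
      ∀ K ⊆ K0, IsCompact K → ∀ (F : Ω → ℝ≥0∞) (f : EE d → ℝ≥0∞), ContinuousOn f K →
      (∀ x ∈ UK d c K, F x = f (ph d c x)) →
      ENNReal.ofReal a * ∫⁻ y in K, f y ≤ ∫⁻ x in UK d c K, F x ∂μ ∧
      ∫⁻ x in UK d c K, F x ∂μ ≤ ENNReal.ofReal b * ∫⁻ y in K, f y := by
  obtain ⟨a, b, ha, hb, hab⟩ := det_bounds g c hc0 hK0
  refine ⟨a, b, ha, hb, ?_⟩
  intro μ hμ K hKK hc F f hf hF
  rw [vol_UK' hμ (hKK.trans hK0) hc hf hF]
  rw [← lintegral_const_mul' _ _ ENNReal.ofReal_ne_top,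
    ← lintegral_const_mul' _ _ ENNReal.ofReal_ne_top]
  constructor
  · apply setLIntegral_mono' hc.measurableSet
    intro y hy
    rw [mul_comm]
    gcongr
    exact (hab y (hKK hy)).1
  · apply setLIntegral_mono' hc.measurableSet
    intro y hy
    rw [mul_comm (ENNReal.ofReal b)]
    gcongr
    exact (hab y (hKK hy)).2

theorem bvol_bounds (g : RMetric d Ω) (c : Ω) {K0 : Set (EE d)} (hK0 : K0 ⊆ (ph d c).target)
    (hc0 : IsCompact K0) : ∃ a b : ℝ, 0 < a ∧ 0 < b ∧ ∀ (ν : Measure Ω), IsBdryVolume g ν →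
      ∀ K ⊆ K0, IsCompact K → ∀ (F : Ω → ℝ≥0∞) (f : EE d → ℝ≥0∞), ContinuousOn f K →
      (∀ x ∈ UK d c K, F x = f (ph d c x)) →
      ENNReal.ofReal a * ∫⁻ z in {z : FF d | inj z ∈ K}, f (inj z) ≤ ∫⁻ x in UK d c K, F x ∂ν ∧
      ∫⁻ x in UK d c K, F x ∂ν ≤ ENNReal.ofReal b * ∫⁻ z in {z : FF d | inj z ∈ K}, f (inj z) := by
  obtain ⟨a, b, ha, hb, hab⟩ := bdet_bounds g c hc0 hK0
  refine ⟨a, b, ha, hb, ?_⟩
  intro ν hν K hKK hc F f hf hF
  have hKm : MeasurableSet {z : FF d | inj z ∈ K} :=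
    (hc.isClosed.preimage (injL d).continuous).measurableSet
  rw [bvol_UK' hν (hKK.trans hK0) hc hf hF]
  rw [← lintegral_const_mul' _ _ ENNReal.ofReal_ne_top,
    ← lintegral_const_mul' _ _ ENNReal.ofReal_ne_top]
  constructor
  · apply setLIntegral_mono' hKm
    intro z hz
    rw [mul_comm]
    gcongr
    exact (hab _ (hKK hz)).1
  · apply setLIntegral_mono' hKm
    intro z hz
    rw [mul_comm (ENNReal.ofReal b)]
    gcongr
    exact (hab _ (hKK hz)).2

/-- lower bound for the energy on `U_K` -/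
theorem energy_lower (g : RMetric d Ω) (c : Ω) {K0 : Set (EE d)} (hK0 : K0 ⊆ (ph d c).target)
    (hc0 : IsCompact K0) : ∃ a : ℝ, 0 < a ∧ ∀ (μ : Measure Ω), IsVolume g μ →
      ∀ K ⊆ K0, IsCompact K → ∀ u : Ω → ℝ, ContMDiff (𝓡∂ (d + 1)) 𝓘(ℝ, ℝ) ∞ u →
      ENNReal.ofReal a * ∫⁻ y in K, sq ‖Dloc d c u y‖ ≤ ∫⁻ x in UK d c K, gradSq g u x ∂μ := by
  obtain ⟨a, b, ha, hb, hab⟩ := coeff_bounds g c hc0 hK0
  obtain ⟨a', b', ha', hb', h'⟩ := vol_bounds g c hK0 hc0
  refine ⟨a' * b⁻¹, by positivity, ?_⟩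
  intro μ hμ K hKK hc u hu
  have hcont : ContinuousOn (fun y => ENNReal.ofReal (b⁻¹ * ‖Dloc d c u y‖ ^ 2)) K := by
    apply ENNReal.continuous_ofReal.comp_continuousOn
    exact continuousOn_const.mul
      ((((Dloc_cont hu c).mono (hKK.trans hK0)).norm).pow 2)
  have h1 := (h' μ hμ K hKK hc (fun x => ENNReal.ofReal (b⁻¹ * ‖Dloc d c u (ph d c x)‖ ^ 2))
    (fun y => ENNReal.ofReal (b⁻¹ * ‖Dloc d c u y‖ ^ 2)) hcont (fun x _ => rfl)).1
  have h2 : ENNReal.ofReal (a' * b⁻¹) * ∫⁻ y in K, sq ‖Dloc d c u y‖ =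
      ENNReal.ofReal a' * ∫⁻ y in K, ENNReal.ofReal (b⁻¹ * ‖Dloc d c u y‖ ^ 2) := by
    rw [ENNReal.ofReal_mul ha'.le, mul_assoc]
    congr 1
    rw [← lintegral_const_mul' _ _ ENNReal.ofReal_ne_top]
    congr 1
    ext y
    unfold sq
    rw [← ENNReal.ofReal_mul (by positivity)]
  rw [h2]
  refine h1.trans ?_
  apply setLIntegral_mono' (UK_meas (hKK.trans hK0) hc)
  intro x hx
  have hdiff : MDifferentiableAt (𝓡∂ (d + 1)) 𝓘(ℝ, ℝ) u x := (hu x).mdifferentiableAt (by simp)
  rw [gradSq_chart g hx.1 hdiff]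
  apply le_sup_of_bound hb
  · intro v hv
    exact coeff_pos g hx.1 hv
  · intro v
    have := (hab _ (hKK hx.2) v).2
    rwa [(ph d c).left_inv hx.1] at this

end Pool.Agent.W545.Man
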