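import Mathlib
import Pool.Agent.W545.Man.Meas
import Pool.Agent.W545.Man.Chain
set_option autoImplicit false
open Set Filter Topology MeasureTheory Metric
open scoped ENNReal Manifold ContDiff

namespace Pool.Agent.W545.Man

variable {d : ℕ}

theorem le_inv_mul' {a x y : ℝ≥0∞} (ha0 : a ≠ 0) (hat : a ≠ ⊤) (h : a * x ≤ y) : x ≤ a⁻¹ * y := by
  calc x = a⁻¹ * (a * x) := by rw [← mul_assoc, ENNReal.inv_mul_cancel ha0 hat, one_mul]
    _ ≤ _ := by gcongr

/-- choice of a good point -/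
theorem pick {K Z : Set (EE d)} (hKm : MeasurableSet K) (hZm : MeasurableSet Z) (hZK : Z ⊆ K)
    (hZ0 : volume Z ≠ 0) (hZt : volume Z ≠ ⊤) {w : EE d → ℝ} (hwc : ContinuousOn w K)
    {A B I0 : ℝ≥0∞}
    (hA : ∫⁻ x in K, ∫⁻ z in Z, sq (w x - w z) ≤ A * I0)
    (hB : ∫⁻ x in {x : FF d | inj x ∈ K}, ∫⁻ z in Z, sq (w (inj x) - w z) ≤ B * I0) :
    ∃ c : ℝ, (∫⁻ x in K, sq (w x - c)) + ∫⁻ x in {x : FF d | inj x ∈ K}, sq (w (inj x) - c) ≤
      (A + B) / volume Z * I0 := by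
  have hDm : MeasurableSet {x : FF d | inj x ∈ K} := (injL d).continuous.measurable hKm
  have hcontA : ContinuousOn (fun p : EE d × EE d => sq (w p.1 - w p.2)) (K ×ˢ Z) := by
    unfold sq
    apply ENNReal.continuous_ofReal.comp_continuousOn
    apply ContinuousOn.pow
    exact (hwc.comp continuous_fst.continuousOn (fun p hp => hp.1)).sub
      (hwc.comp continuous_snd.continuousOn (fun p hp => hZK hp.2))
  have hcontB : ContinuousOn (fun p : FF d × EE d => sq (w (inj p.1) - w p.2))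
      ({x : FF d | inj x ∈ K} ×ˢ Z) := by
    unfold sq
    apply ENNReal.continuous_ofReal.comp_continuousOn
    apply ContinuousOn.pow
    exact (hwc.comp ((injL d).continuous.comp continuous_fst).continuousOn (fun p hp => hp.1)).sub
      (hwc.comp continuous_snd.continuousOn (fun p hp => hZK hp.2))
  have haA : AEMeasurable (fun p : EE d × EE d => sq (w p.1 - w p.2))
      ((volume.restrict K).prod (volume.restrict Z)) := by
    rw [Measure.prod_restrict]
    exact hcontA.aemeasurable (hKm.prod hZm)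
  have haB : AEMeasurable (fun p : FF d × EE d => sq (w (inj p.1) - w p.2))
      ((volume.restrict {x : FF d | inj x ∈ K}).prod (volume.restrict Z)) := by
    rw [Measure.prod_restrict]
    exact hcontB.aemeasurable (hDm.prod hZm)
  rw [lintegral_lintegral_swap haA] at hA
  rw [lintegral_lintegral_swap haB] at hB
  have hmA : AEMeasurable (fun z => ∫⁻ x in K, sq (w x - w z)) (volume.restrict Z) :=
    haA.prod_swap.lintegral_prod_right'
  have hmB : AEMeasurable (fun z => ∫⁻ x in {x : FF d | inj x ∈ K}, sq (w (inj x) - w z))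
      (volume.restrict Z) := haB.prod_swap.lintegral_prod_right'
  obtain ⟨z, hz, hle⟩ := exists_le_setLAverage (f := fun z => (∫⁻ x in K, sq (w x - w z)) +
    ∫⁻ x in {x : FF d | inj x ∈ K}, sq (w (inj x) - w z)) hZ0 hZt (hmA.add hmB)
  refine ⟨w z, hle.trans ?_⟩
  rw [setLAverage_eq, lintegral_add_left' hmA]
  calc ((∫⁻ z in Z, ∫⁻ x in K, sq (w x - w z)) + ∫⁻ z in Z, ∫⁻ x in {x : FF d | inj x ∈ K},
      sq (w (inj x) - w z)) / volume Z ≤ (A * I0 + B * I0) / volume Z := by gcongr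
    _ = _ := by rw [ENNReal.div_eq_inv_mul, ENNReal.div_eq_inv_mul]; ring

variable {Ω : Type*} [TopologicalSpace Ω] [ChartedSpace (EuclideanHalfSpace (d + 1)) Ω]
  [IsManifold (𝓡∂ (d + 1)) ∞ Ω] [MeasurableSpace Ω] [BorelSpace Ω] [T2Space Ω]

/-- transport to the manifold -/
theorem local_core (g : RMetric d Ω) {c : Ω} {K Z : Set (EE d)} (hK : K ⊆ (ph d c).target)
    (hKc : IsCompact K) (hZm : MeasurableSet Z) (hZK : Z ⊆ K) (hZ0 : volume Z ≠ 0)
    {A B : ℝ≥0∞} (hAt : A ≠ ⊤) (hBt : B ≠ ⊤)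
    (hA : ∀ u : Ω → ℝ, ContMDiff (𝓡∂ (d + 1)) 𝓘(ℝ, ℝ) ∞ u →
      ∫⁻ x in K, ∫⁻ z in Z, sq (loc d c u x - loc d c u z) ≤ A * ∫⁻ y in K, sq ‖Dloc d c u y‖)
    (hB : ∀ u : Ω → ℝ, ContMDiff (𝓡∂ (d + 1)) 𝓘(ℝ, ℝ) ∞ u →
      ∫⁻ x in {x : FF d | inj x ∈ K}, ∫⁻ z in Z, sq (loc d c u (inj x) - loc d c u z) ≤
        B * ∫⁻ y in K, sq ‖Dloc d c u y‖) :
    ∃ C : ℝ≥0∞, C ≠ ⊤ ∧ ∀ (μ ν : Measure Ω), IsVolume g μ → IsBdryVolume g ν → ∀ u : Ω → ℝ,
      ContMDiff (𝓡∂ (d + 1)) 𝓘(ℝ, ℝ) ∞ u → ∃ b : ℝ,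
      ∫⁻ x in UK d c K, sq (u x - b) ∂(μ + ν) ≤ C * energy g μ u := by
  obtain ⟨a1, b1, ha1, hb1, h1⟩ := vol_bounds g c hK hKc
  obtain ⟨a2, b2, ha2, hb2, h2⟩ := bvol_bounds g c hK hKc
  obtain ⟨a, ha, h3⟩ := energy_lower g c hK hKc
  refine ⟨(ENNReal.ofReal b1 + ENNReal.ofReal b2) * ((A + B) / volume Z) * (ENNReal.ofReal a)⁻¹,
    ?_, ?_⟩
  · apply ENNReal.mul_ne_top
    · apply ENNReal.mul_ne_top
      · finiteness
      · exact ENNReal.div_ne_top (by finiteness) hZ0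
    · rw [Ne, ENNReal.inv_eq_top, ENNReal.ofReal_eq_zero, not_le]
      exact ha
  intro μ ν hμ hν u hu
  have hZt : volume Z ≠ ⊤ := ((measure_mono hZK).trans_lt hKc.measure_lt_top).ne
  have hwc : ContinuousOn (loc d c u) K := (loc_contDiff hu c).continuousOn.mono hK
  obtain ⟨b, hb⟩ := pick hKc.measurableSet hZm hZK hZ0 hZt hwc (hA u hu) (hB u hu)
  refine ⟨b, ?_⟩
  have hcont : ContinuousOn (fun y => sq (loc d c u y - b)) K := by
    unfold sq
    exact ENNReal.continuous_ofReal.comp_continuousOn ((hwc.sub continuousOn_const).pow 2)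
  have hval : ∀ x ∈ UK d c K, sq (u x - b) = sq (loc d c u (ph d c x) - b) := by
    intro x hx
    rw [loc_val hx.1]
  have e1 := (h1 μ hμ K Subset.rfl hKc (fun x => sq (u x - b)) _ hcont hval).2
  have e2 := (h2 ν hν K Subset.rfl hKc (fun x => sq (u x - b)) _ hcont hval).2
  have e3 := h3 μ hμ K Subset.rfl hKc u hu
  have e4 : ∫⁻ y in K, sq ‖Dloc d c u y‖ ≤ (ENNReal.ofReal a)⁻¹ * energy g μ u := by
    apply le_inv_mul' (by rw [Ne, ENNReal.ofReal_eq_zero, not_le]; exact ha)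
      ENNReal.ofReal_ne_top
    exact e3.trans (setLIntegral_le_lintegral _ _)
  rw [Measure.restrict_add, lintegral_add_measure]
  calc ∫⁻ x in UK d c K, sq (u x - b) ∂μ + ∫⁻ x in UK d c K, sq (u x - b) ∂ν
      ≤ (ENNReal.ofReal b1 * ∫⁻ y in K, sq (loc d c u y - b)) +
        ENNReal.ofReal b2 * ∫⁻ z in {z : FF d | inj z ∈ K}, sq (loc d c u (inj z) - b) :=
        add_le_add e1 e2
    _ ≤ (ENNReal.ofReal b1 + ENNReal.ofReal b2) * ((∫⁻ y in K, sq (loc d c u y - b)) +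
        ∫⁻ z in {z : FF d | inj z ∈ K}, sq (loc d c u (inj z) - b)) := by
        rw [add_mul, mul_add, mul_add]
        gcongr
        · exact le_self_add
        · exact le_add_self
    _ ≤ (ENNReal.ofReal b1 + ENNReal.ofReal b2) * ((A + B) / volume Z *
        ((ENNReal.ofReal a)⁻¹ * energy g μ u)) := by
        gcongr
        exact hb.trans (by gcongr)
    _ = _ := by ring

/-- the local inequality at every point of the manifold -/
theorem local_ineq (g : RMetric d Ω) (c : Ω) : ∃ U : Set Ω, IsOpen U ∧ c ∈ U ∧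
    ∃ C : ℝ≥0∞, C ≠ ⊤ ∧ ∀ (μ ν : Measure Ω), IsVolume g μ → IsBdryVolume g ν → ∀ u : Ω → ℝ,
      ContMDiff (𝓡∂ (d + 1)) 𝓘(ℝ, ℝ) ∞ u → ∃ b : ℝ,
      ∫⁻ x in U, sq (u x - b) ∂(μ + ν) ≤ C * energy g μ u := by
  obtain ⟨f⟩ : Nonempty (SmoothBumpFunction (𝓡∂ (d + 1)) c) := inferInstance
  have hsub := f.closedBall_subset
  set y0 := ph d c c with hy0
  have hrange : range (𝓡∂ (d + 1)) = {y : EE d | 0 ≤ y 0} :=
    range_modelWithCornersEuclideanHalfSpace (d + 1)
  rw [hrange] at hsub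
  have hy00 : 0 ≤ y0 0 := by
    have : y0 ∈ range (𝓡∂ (d + 1)) := mem_range_self _
    rwa [hrange] at this
  -- a radius
  have key : ∀ R : ℝ, 0 < R → R ≤ f.rOut → ∀ Z : Set (EE d), MeasurableSet Z →
      Z ⊆ closedBall y0 R ∩ {y : EE d | 0 ≤ y 0} → volume Z ≠ 0 → ∀ B : ℝ≥0∞, B ≠ ⊤ →
      (∀ u : Ω → ℝ, ContMDiff (𝓡∂ (d + 1)) 𝓘(ℝ, ℝ) ∞ u →
      ∫⁻ x in {x : FF d | inj x ∈ closedBall y0 R ∩ {y : EE d | 0 ≤ y 0}}, ∫⁻ z in Z,
        sq (loc d c u (inj x) - loc d c u z) ≤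
        B * ∫⁻ y in closedBall y0 R ∩ {y : EE d | 0 ≤ y 0}, sq ‖Dloc d c u y‖) →
      ∃ U : Set Ω, IsOpen U ∧ c ∈ U ∧
      ∃ C : ℝ≥0∞, C ≠ ⊤ ∧ ∀ (μ ν : Measure Ω), IsVolume g μ → IsBdryVolume g ν → ∀ u : Ω → ℝ,
      ContMDiff (𝓡∂ (d + 1)) 𝓘(ℝ, ℝ) ∞ u → ∃ b : ℝ,
      ∫⁻ x in U, sq (u x - b) ∂(μ + ν) ≤ C * energy g μ u := by
    intro R hR hRR Z hZm hZK hZ0 B hBt hB
    set K : Set (EE d) := closedBall y0 R ∩ {y : EE d | 0 ≤ y 0} with hKdef
    have hKt : K ⊆ (ph d c).target :=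
      (inter_subset_inter_left _ (closedBall_subset_closedBall hRR)).trans hsub
    have hKc : IsCompact K := (isCompact_closedBall _ _).inter_right halfspace_closed
    have hKconv : Convex ℝ K := (convex_closedBall _ _).inter (EuclideanHalfSpace.convex (n := d + 1))
    have hKr : K ⊆ range (𝓡∂ (d + 1)) := by rw [hrange]; exact inter_subset_right
    have hA : ∀ u : Ω → ℝ, ContMDiff (𝓡∂ (d + 1)) 𝓘(ℝ, ℝ) ∞ u →
        ∫⁻ x in K, ∫⁻ z in Z, sq (loc d c u x - loc d c u z) ≤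
        (ENNReal.ofReal ((2 * R) ^ 2) * (ENNReal.ofReal (2 ^ Module.finrank ℝ (EE d)) * volume K)) *
          ∫⁻ y in K, sq ‖Dloc d c u y‖ := by
      intro u hu
      have hL := (Dloc_cont hu c).mono hKt
      have hw : ∀ y ∈ K, HasFDerivWithinAt (loc d c u) (Dloc d c u y) K y := fun y hy =>
        (Dloc_has hu (hKt hy)).mono hKr
      have := bulk volume hKconv hZK hL hw (sq_meas_ind hKc hL) hKc.measurableSet hZm
        (ρ := 2 * R) (by
          intro x hx z hz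
          have h1 := hx.1; have h2 := hz.1
          rw [mem_closedBall, dist_eq_norm] at h1 h2
          calc ‖z - x‖ = ‖(z - y0) - (x - y0)‖ := by congr 1; abel
            _ ≤ ‖z - y0‖ + ‖x - y0‖ := norm_sub_le _ _
            _ ≤ 2 * R := by linarith)
      rw [mul_assoc]
      exact this
    obtain ⟨C, hC, h⟩ := local_core g hKt hKc hZm hZK hZ0
      (ENNReal.mul_ne_top ENNReal.ofReal_ne_top (ENNReal.mul_ne_top ENNReal.ofReal_ne_top
        hKc.measure_lt_top.ne)) hBt hA hB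
    refine ⟨(chartAt (EuclideanHalfSpace (d + 1)) c).source ∩ (ph d c) ⁻¹' ball y0 R,
      isOpen_extChartAt_preimage c isOpen_ball, ⟨mem_chart_source _ _, mem_ball_self hR⟩, C, hC, ?_⟩
    intro μ ν hμ hν u hu
    obtain ⟨b, hb⟩ := h μ ν hμ hν u hu
    refine ⟨b, (lintegral_mono_set ?_).trans hb⟩
    rintro x ⟨hx1, hx2⟩
    rw [← extChartAt_source (𝓡∂ (d + 1))] at hx1
    refine ⟨hx1, ball_subset_closedBall hx2, ?_⟩
    have : ph d c x ∈ range (𝓡∂ (d + 1)) := mem_range_self _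
    rwa [hrange] at this
  rcases hy00.eq_or_lt with h0 | h0
  · -- boundary point
    set x0 : FF d := tailL d y0 with hx0
    have hinj : inj x0 = y0 := by
      ext i
      refine Fin.cases ?_ (fun j => ?_) i
      · rw [inj_zero_coord]; exact h0
      · rfl
    have hR := f.rOut_pos
    have hHB : closedBall y0 f.rOut ∩ {y : EE d | 0 ≤ y 0} = HB x0 f.rOut := by
      unfold HB; rw [hinj]
    have hKt : HB x0 f.rOut ⊆ (ph d c).target := by rw [← hHB]; exact hsub
    refine key f.rOut hR le_rfl (ZB x0 f.rOut) isClosed_closedBall.measurableSet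
      (by rw [hHB]; exact ZB_sub hR) ?_ (ENNReal.ofReal ((2 * f.rOut) ^ 2) *
        (ENNReal.ofReal (2 ^ Module.finrank ℝ (FF d)) * volume (closedBall x0 f.rOut))) ?_ ?_
    · rw [ZB_vol hR]
      apply mul_ne_zero _ vball_pos
      rw [Ne, ENNReal.ofReal_eq_zero, not_le]; positivity
    · exact ENNReal.mul_ne_top ENNReal.ofReal_ne_top (ENNReal.mul_ne_top ENNReal.ofReal_ne_top
        (isCompact_closedBall _ _).measure_lt_top.ne)
    · intro u hu
      rw [hHB]
      have hset : {x : FF d | inj x ∈ HB x0 f.rOut} = closedBall x0 f.rOut := by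
        ext x; exact inj_mem_HB
      rw [hset, mul_assoc]
      have hL := (Dloc_cont hu c).mono hKt
      exact trace_est volume volume (injL d) (tailL d)
        (EuclideanSpace.proj (𝕜 := ℝ) (0 : Fin (d + 1))) tail_inj norm_tail_le (fun x => rfl)
        (by rw [finrank_euclideanSpace_fin, finrank_euclideanSpace_fin]) hR (HB_convex x0 _)
        (HB_meas x0 _) (Z := ZB x0 f.rOut) isClosed_closedBall.measurableSet
        (fun x hx => inj_mem_HB.2 hx) (ZB_sub hR) inter_subset_left (fun z hz => (ZB_coord hz).1)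
        (fun z hz => (ZB_coord hz).2) hL (fun y hy => (Dloc_has hu (hKt hy)).mono (by
          rw [hrange]; exact inter_subset_right)) (sq_meas_ind (HB_compact x0 _) hL)
  · -- interior point
    set R := min f.rOut (y0 0 / 2) with hRdef
    have hR : 0 < R := lt_min f.rOut_pos (by linarith)
    have hpos : ∀ y ∈ closedBall y0 R, 0 < y 0 := by
      intro y hy
      rw [mem_closedBall, dist_eq_norm] at hy
      have h1 := (abs_coord_le _ 0).trans hy
      have e : (y - y0 : EE d) 0 = y 0 - y0 0 := by simp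
      rw [e, abs_le] at h1
      have : R ≤ y0 0 / 2 := min_le_right _ _
      linarith [h1.1]
    refine key R hR (min_le_left _ _) (closedBall y0 R) isClosed_closedBall.measurableSet
      (fun y hy => ⟨hy, (hpos y hy).le⟩) ?_ 0 ENNReal.zero_ne_top ?_
    · exact (measure_closedBall_pos _ _ hR).ne'
    · intro u hu
      have : {x : FF d | inj x ∈ closedBall y0 R ∩ {y : EE d | 0 ≤ y 0}} = ∅ := by
        ext x
        simp only [mem_ofPred_eq, mem_empty_iff_false, iff_false]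
        intro hx
        have := hpos _ hx.1
        rw [inj_zero_coord] at this
        exact lt_irrefl _ this
      rw [this]
      simp

end Pool.Agent.W545.Man
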