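import Mathlib
import Pool.Agent.W545.Man.Local
set_option autoImplicit false
open Set Filter Topology MeasureTheory Metric
open scoped ENNReal Manifold ContDiff

namespace Pool.Agent.W545.Man

section LinAlg

variable {M : Type*} [AddCommGroup M] [Module ℝ M]

theorem exists_sub_finrank {W0 : Submodule ℝ M} [FiniteDimensional ℝ W0] {m : ℕ}
    (hm : m ≤ Module.finrank ℝ W0) : ∃ W : Submodule ℝ M, W ≤ W0 ∧ Module.finrank ℝ W = m := by
  obtain ⟨f, hf⟩ := exists_linearIndependent_of_le_finrank hm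
  have hf' : LinearIndependent ℝ (fun i => (f i : M)) :=
    hf.map' W0.subtype (Submodule.ker_subtype W0)
  refine ⟨Submodule.span ℝ (range fun i => (f i : M)), ?_, ?_⟩
  · rw [Submodule.span_le]
    rintro _ ⟨i, rfl⟩
    exact (f i).2
  · rw [finrank_span_eq_card hf', Fintype.card_fin]

/-- one linear condition costs at most one dimension -/
theorem exists_ker_sub {V : Submodule ℝ M} {k : ℕ} (hV : Module.finrank ℝ V = k + 1)
    (l : M →ₗ[ℝ] ℝ) : ∃ W : Submodule ℝ M, W ≤ V ∧ Module.finrank ℝ W = k ∧ ∀ u ∈ W, l u = 0 := by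
  have hfin : FiniteDimensional ℝ V := Module.finite_of_finrank_pos (by omega)
  have h1 := LinearMap.finrank_range_add_finrank_ker (l.domRestrict V)
  have h2 : Module.finrank ℝ (LinearMap.range (l.domRestrict V)) ≤ 1 := by
    have := Submodule.finrank_le (LinearMap.range (l.domRestrict V))
    simpa using this
  have h3 : k ≤ Module.finrank ℝ (LinearMap.ker (l.domRestrict V)) := by omega
  obtain ⟨W, hW, hWf⟩ := exists_sub_finrank h3
  refine ⟨W.map V.subtype, ?_, ?_, ?_⟩
  · exact Submodule.map_subtype_le V W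
  · rw [← hWf]
    exact Submodule.finrank_map_subtype_eq V W
  · rintro _ ⟨u, hu, rfl⟩
    have := hW hu
    rw [LinearMap.mem_ker] at this
    exact this

end LinAlg

variable {d : ℕ} {Ω : Type*} [TopologicalSpace Ω] [ChartedSpace (EuclideanHalfSpace (d + 1)) Ω]
  [IsManifold (𝓡∂ (d + 1)) ∞ Ω] [MeasurableSpace Ω] [BorelSpace Ω] [T2Space Ω]

omit [IsManifold (𝓡∂ (d + 1)) ∞ Ω] [MeasurableSpace Ω] [BorelSpace Ω] [T2Space Ω] in
/-- neighbourhoods in a chart -/
theorem chart_nhds {c : Ω} {V : Set Ω} (hV : V ∈ 𝓝 c) : ∃ r : ℝ, 0 < r ∧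
    closedBall (ph d c c) r ∩ {y : EE d | 0 ≤ y 0} ⊆ (ph d c).target ∧
    UK d c (closedBall (ph d c c) r ∩ {y : EE d | 0 ≤ y 0}) ⊆ V := by
  have hrange : range (𝓡∂ (d + 1)) = {y : EE d | 0 ≤ y 0} :=
    range_modelWithCornersEuclideanHalfSpace (d + 1)
  have hb : (𝓝 c).HasBasis (fun _ : SmoothBumpFunction (𝓡∂ (d + 1)) c => True) fun f =>
      (extChartAt (𝓡∂ (d + 1)) c).symm '' (closedBall (extChartAt (𝓡∂ (d + 1)) c c) f.rOut ∩
        range (𝓡∂ (d + 1))) := by
    rw [← map_extChartAt_symm_nhdsWithin_range (I := 𝓡∂ (d + 1)) c]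
    exact SmoothBumpFunction.nhdsWithin_range_basis.map _
  obtain ⟨f, -, hf⟩ := hb.mem_iff.1 hV
  have hsub := f.closedBall_subset
  rw [hrange] at hsub hf
  exact ⟨f.rOut, f.rOut_pos, hsub, by rw [UK_eq hsub]; exact hf⟩

theorem halfK_vol_pos {y0 : EE d} (hy : 0 ≤ y0 0) {r : ℝ} (hr : 0 < r) :
    volume (closedBall y0 r ∩ {y : EE d | 0 ≤ y 0}) ≠ 0 := by
  have hsub : closedBall (y0 + EuclideanSpace.single 0 (3 / 4 * r)) (r / 4) ⊆
      closedBall y0 r ∩ {y : EE d | 0 ≤ y 0} := by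
    intro z hz
    rw [mem_closedBall, dist_eq_norm] at hz
    constructor
    · rw [mem_closedBall, dist_eq_norm]
      have h1 : ‖z - y0‖ ≤ ‖z - (y0 + EuclideanSpace.single 0 (3 / 4 * r))‖ +
          ‖(EuclideanSpace.single 0 (3 / 4 * r) : EE d)‖ := by
        have := norm_add_le (z - (y0 + EuclideanSpace.single 0 (3 / 4 * r)))
          (EuclideanSpace.single 0 (3 / 4 * r) : EE d)
        refine le_trans (le_of_eq ?_) this
        congr 1; abel
      have h2 : ‖(EuclideanSpace.single 0 (3 / 4 * r) : EE d)‖ = 3 / 4 * r := by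
        rw [PiLp.norm_single, Real.norm_eq_abs, abs_of_pos (by positivity)]
      linarith
    · have h1 := (abs_coord_le _ 0).trans hz
      have e : (z - (y0 + EuclideanSpace.single 0 (3 / 4 * r)) : EE d) 0 =
          z 0 - (y0 0 + 3 / 4 * r) := by simp
      rw [e, abs_le] at h1
      show 0 ≤ z 0
      linarith [h1.1]
  intro h
  have := measure_mono_null hsub h
  exact (measure_closedBall_pos _ _ (by positivity)).ne' this

omit [IsManifold (𝓡∂ (d + 1)) ∞ Ω] [MeasurableSpace Ω] [BorelSpace Ω] [T2Space Ω] in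
theorem ph_coord_nonneg (c x : Ω) : 0 ≤ (ph d c x) 0 := by
  have : ph d c x ∈ range (𝓡∂ (d + 1)) := mem_range_self _
  rwa [range_modelWithCornersEuclideanHalfSpace (d + 1)] at this

theorem halfK_compact (y0 : EE d) (r : ℝ) : IsCompact (closedBall y0 r ∩ {y : EE d | 0 ≤ y 0}) :=
  (isCompact_closedBall _ _).inter_right halfspace_closed

omit [IsManifold (𝓡∂ (d + 1)) ∞ Ω] [MeasurableSpace Ω] [BorelSpace Ω] [T2Space Ω] in
theorem UK_nhds (c : Ω) {r : ℝ} (hr : 0 < r) :
    UK d c (closedBall (ph d c c) r ∩ {y : EE d | 0 ≤ y 0}) ∈ 𝓝 c := by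
  have : (chartAt (EuclideanHalfSpace (d + 1)) c).source ∩ (ph d c) ⁻¹' ball (ph d c c) r ∈ 𝓝 c :=
    (isOpen_extChartAt_preimage c isOpen_ball).mem_nhds ⟨mem_chart_source _ _, mem_ball_self hr⟩
  filter_upwards [this] with x hx
  refine ⟨?_, ball_subset_closedBall hx.2, ph_coord_nonneg c x⟩
  rw [extChartAt_source]
  exact hx.1

theorem vol_locFin {g : RMetric d Ω} {μ : Measure Ω} (hμ : IsVolume g μ) :
    IsLocallyFiniteMeasure μ := by
  refine ⟨fun c => ?_⟩
  obtain ⟨r, hr, hsub, -⟩ := chart_nhds (d := d) (c := c) univ_mem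
  refine ⟨_, UK_nhds (d := d) c hr, ?_⟩
  obtain ⟨a, b, ha, hb, h⟩ := vol_bounds g c hsub (halfK_compact _ r)
  have h1 := (h μ hμ _ Subset.rfl (halfK_compact _ r) (fun _ => 1) (fun _ => 1)
    continuousOn_const (fun _ _ => rfl)).2
  rw [setLIntegral_one, setLIntegral_one] at h1
  exact h1.trans_lt (ENNReal.mul_lt_top ENNReal.ofReal_lt_top (halfK_compact _ r).measure_lt_top)

theorem bvol_locFin {g : RMetric d Ω} {ν : Measure Ω} (hν : IsBdryVolume g ν) :
    IsLocallyFiniteMeasure ν := by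
  refine ⟨fun c => ?_⟩
  obtain ⟨r, hr, hsub, -⟩ := chart_nhds (d := d) (c := c) univ_mem
  refine ⟨_, UK_nhds (d := d) c hr, ?_⟩
  obtain ⟨a, b, ha, hb, h⟩ := bvol_bounds g c hsub (halfK_compact _ r)
  have h1 := (h ν hν _ Subset.rfl (halfK_compact _ r) (fun _ => 1) (fun _ => 1)
    continuousOn_const (fun _ _ => rfl)).2
  rw [setLIntegral_one, setLIntegral_one] at h1
  refine h1.trans_lt (ENNReal.mul_lt_top ENNReal.ofReal_lt_top ?_)
  apply IsCompact.measure_lt_top
  have hiso : Isometry (injL d) := by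
    apply AddMonoidHomClass.isometry_of_norm
    intro x; exact norm_inj x
  exact hiso.isClosedEmbedding.isCompact_preimage (halfK_compact _ r)

theorem vol_openPos {g : RMetric d Ω} {μ : Measure Ω} (hμ : IsVolume g μ) :
    μ.IsOpenPosMeasure := by
  refine ⟨fun V hV ⟨c, hc⟩ h0 => ?_⟩
  obtain ⟨r, hr, hsub, hUV⟩ := chart_nhds (d := d) (hV.mem_nhds hc)
  obtain ⟨a, b, ha, hb, h⟩ := vol_bounds g c hsub (halfK_compact _ r)
  have h1 := (h μ hμ _ Subset.rfl (halfK_compact _ r) (fun _ => 1) (fun _ => 1)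
    continuousOn_const (fun _ _ => rfl)).1
  rw [setLIntegral_one, setLIntegral_one, measure_mono_null hUV h0] at h1
  have h2 := nonpos_iff_eq_zero.1 h1
  rw [mul_eq_zero] at h2
  rcases h2 with h2 | h2
  · rw [ENNReal.ofReal_eq_zero] at h2; linarith
  · exact halfK_vol_pos (ph_coord_nonneg c c) hr h2

/-- the global Poincaré inequality with traces -/
theorem global_ineq [CompactSpace Ω] [ConnectedSpace Ω] {g : RMetric d Ω} {μ ν : Measure Ω}
    (hμ : IsVolume g μ) (hν : IsBdryVolume g ν) : ∃ C : ℝ≥0∞, C ≠ ⊤ ∧ ∀ u : Ω → ℝ,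
      ContMDiff (𝓡∂ (d + 1)) 𝓘(ℝ, ℝ) ∞ u → ∃ b : ℝ,
      ∫⁻ x, sq (u x - b) ∂(μ + ν) ≤ C * energy g μ u := by
  choose U hUo hcU C hCt hC using local_ineq g
  obtain ⟨t, ht⟩ := isCompact_univ.elim_finite_subcover U hUo
    (fun x _ => mem_iUnion.2 ⟨x, hcU x⟩)
  have := vol_locFin hμ
  have := bvol_locFin hν
  have := vol_openPos hμ
  have hop : (μ + ν).IsOpenPosMeasure := by
    refine ⟨fun V hV hne h0 => ?_⟩
    rw [Measure.add_apply, add_eq_zero] at h0
    exact hV.measure_ne_zero μ hne h0.1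
  have hcov : ⋃ a : t, U a = univ := by
    rw [eq_univ_iff_forall]
    intro x
    obtain ⟨i, hi, hx⟩ := mem_iUnion₂.1 (ht (mem_univ x))
    exact mem_iUnion.2 ⟨⟨i, hi⟩, hx⟩
  obtain ⟨C0, hC0, h⟩ := chain (μ + ν) (fun a : t => U a) (fun a => hUo a) hcov
  refine ⟨C0 * ∑ i ∈ t, C i, ENNReal.mul_ne_top hC0 (ENNReal.sum_ne_top.2 fun i _ => hCt i), ?_⟩
  intro u hu
  obtain ⟨b, hb⟩ := h u hu.continuous.measurable ((∑ i ∈ t, C i) * energy g μ u) (by
    intro a
    obtain ⟨b, hb⟩ := hC a μ ν hμ hν u hu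
    refine ⟨b, hb.trans ?_⟩
    gcongr
    exact Finset.single_le_sum (f := C) (fun _ _ => zero_le) a.2)
  refine ⟨b, ?_⟩
  rw [setLIntegral_univ] at hb
  rw [mul_assoc]
  exact hb

/-- integration against `ν` as a linear functional -/
noncomputable def intL (ν : Measure Ω) [IsFiniteMeasure ν] [CompactSpace Ω] (m : Ω → ℝ)
    (hm : Continuous m) : C^∞⟮𝓡∂ (d + 1), Ω; 𝓘(ℝ, ℝ), ℝ⟯ →ₗ[ℝ] ℝ where
  toFun u := ∫ x, m x * u x ∂ν
  map_add' u v := by
    have h1 : Integrable (fun x => m x * u x) ν := by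
      apply Continuous.integrable_of_hasCompactSupport (hm.mul u.contMDiff.continuous)
      exact HasCompactSupport.of_compactSpace _
    have h2 : Integrable (fun x => m x * v x) ν := by
      apply Continuous.integrable_of_hasCompactSupport (hm.mul v.contMDiff.continuous)
      exact HasCompactSupport.of_compactSpace _
    rw [← integral_add h1 h2]
    congr 1; ext x
    simp [mul_add]
  map_smul' a u := by
    simp only [RingHom.id_apply, smul_eq_mul]
    rw [← integral_const_mul]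
    congr 1; ext x
    simp; ring

omit [T2Space Ω] in
theorem cont_integrable [CompactSpace Ω] (ν : Measure Ω) [IsFiniteMeasure ν] {f : Ω → ℝ}
    (hf : Continuous f) : Integrable f ν :=
  hf.integrable_of_hasCompactSupport (HasCompactSupport.of_compactSpace _)

omit [T2Space Ω] in
/-- if the weighted mean vanishes, subtracting a constant increases the norm -/
theorem mean_zero_le [CompactSpace Ω] (ν : Measure Ω) [IsFiniteMeasure ν] {m u : Ω → ℝ}
    (hm : Continuous m) (hm0 : ∀ x, 0 ≤ m x) (hu : Continuous u) (h0 : ∫ x, m x * u x ∂ν = 0)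
    (b : ℝ) : ∫⁻ x, ENNReal.ofReal (m x * u x ^ 2) ∂ν ≤
      ∫⁻ x, ENNReal.ofReal (m x * (u x - b) ^ 2) ∂ν := by
  rw [← ofReal_integral_eq_lintegral_ofReal (cont_integrable ν (by fun_prop))
    (Eventually.of_forall fun x => mul_nonneg (hm0 x) (sq_nonneg _)),
    ← ofReal_integral_eq_lintegral_ofReal (cont_integrable ν (by fun_prop))
    (Eventually.of_forall fun x => mul_nonneg (hm0 x) (sq_nonneg _))]
  apply ENNReal.ofReal_le_ofReal
  have e : ∀ x, m x * (u x - b) ^ 2 = m x * u x ^ 2 + ((-2 * b) * (m x * u x) + b ^ 2 * m x) :=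
    fun x => by ring
  simp only [e]
  rw [integral_add (cont_integrable ν (by fun_prop)) (cont_integrable ν (by fun_prop)),
    integral_add (cont_integrable ν (by fun_prop)) (cont_integrable ν (by fun_prop)),
    integral_const_mul, integral_const_mul, h0]
  have : 0 ≤ ∫ x, m x ∂ν := integral_nonneg hm0
  nlinarith [sq_nonneg b, mul_nonneg (sq_nonneg b) this]

/-- a functional inequality bounds the first eigenvalue from below -/
theorem sigma_one_ge [CompactSpace Ω] {g : RMetric d Ω} {μ ν : Measure Ω} [IsFiniteMeasure ν]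
    {C : ℝ≥0∞} (h : ∀ u : Ω → ℝ,
      ContMDiff (𝓡∂ (d + 1)) 𝓘(ℝ, ℝ) ∞ u → ∃ b : ℝ,
      ∫⁻ x, sq (u x - b) ∂ν ≤ C * energy g μ u) : C⁻¹ ≤ sigma 1 g μ ν := by
  unfold sigma
  refine le_iInf fun V => le_iInf fun hV => le_iInf fun hnd => ?_
  obtain ⟨W, hWV, hW, hl⟩ := exists_ker_sub (k := 1) hV (intL (d := d) ν (fun _ => 1) continuous_const)
  obtain ⟨u, hu, hu0⟩ : ∃ u ∈ W, u ≠ 0 := by
    by_contra hcon
    push Not at hcon
    have : W = ⊥ := by
      rw [eq_bot_iff]
      intro u hu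
      rw [Submodule.mem_bot]
      exact hcon u hu
    rw [this, finrank_bot] at hW
    omega
  refine le_iSup_of_le u (le_iSup_of_le (hWV hu) (le_iSup_of_le hu0 ?_))
  have hb0 := hnd u (hWV hu) hu0
  obtain ⟨b, hb⟩ := h u u.contMDiff
  have h1 := mean_zero_le ν (m := fun _ => 1) (u := u) continuous_const
    (fun _ => zero_le_one) u.contMDiff.continuous (hl u hu) b
  simp only [one_mul] at h1
  have h2 : bsq ν u ≤ C * energy g μ u := h1.trans hb
  have hbt : bsq ν u ≠ ⊤ := by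
    unfold bsq
    have := (cont_integrable ν (f := fun x => u x ^ 2)
      (u.contMDiff.continuous.pow 2)).lintegral_lt_top
    exact this.ne
  rw [ENNReal.le_div_iff_mul_le (Or.inl hb0) (Or.inl hbt)]
  calc C⁻¹ * bsq ν u ≤ C⁻¹ * (C * energy g μ u) := by gcongr
    _ = (C⁻¹ * C) * energy g μ u := by rw [mul_assoc]
    _ ≤ 1 * energy g μ u := by
        gcongr
        exact ENNReal.inv_mul_le_one C
    _ = _ := one_mul _

/-- the first eigenvalue is positive -/
theorem sigma_one_pos [CompactSpace Ω] [ConnectedSpace Ω] {g : RMetric d Ω} {μ ν : Measure Ω}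
    (hμ : IsVolume g μ) (hν : IsBdryVolume g ν) : sigma 1 g μ ν ≠ 0 := by
  obtain ⟨C, hC, h⟩ := global_ineq hμ hν
  have := bvol_locFin hν
  have h2 := sigma_one_ge (g := g) (μ := μ) (ν := ν) (C := C) (by
    intro u hu
    obtain ⟨b, hb⟩ := h u hu
    refine ⟨b, le_trans ?_ hb⟩
    rw [lintegral_add_measure]
    exact le_add_self)
  intro h0
  rw [h0] at h2
  have := nonpos_iff_eq_zero.1 h2
  rw [ENNReal.inv_eq_zero] at this
  exact hC this

end Pool.Agent.W545.Man
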