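import Mathlib
import Pool.Agent.W545.Man.Meas
set_option autoImplicit false
open Set Filter Topology MeasureTheory Metric
open scoped ENNReal Manifold ContDiff

/-! Conformal changes of metric. -/

namespace Pool.Agent.W545.Man

variable {d : ℕ} {Ω : Type*} [TopologicalSpace Ω] [ChartedSpace (EuclideanHalfSpace (d + 1)) Ω]
  [IsManifold (𝓡∂ (d + 1)) ∞ Ω]

theorem RMetric.ext' {g h : RMetric d Ω} (H : g.inner = h.inner) : g = h := by
  cases g; cases h
  cases H
  rfl

omit [IsManifold (𝓡∂ (d + 1)) ∞ Ω] in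
theorem PosFun.cont (f : PosFun d Ω) : Continuous f.1 := f.1.contMDiff.continuous

/-- a smooth positive function as a conformal factor -/
def mkPos (f : Ω → ℝ) (hf : ContMDiff (𝓡∂ (d + 1)) 𝓘(ℝ, ℝ) ∞ f) (h0 : ∀ x, 0 < f x) : PosFun d Ω :=
  ⟨⟨f, hf⟩, h0⟩

omit [IsManifold (𝓡∂ (d + 1)) ∞ Ω] in
theorem mkPos_apply {f : Ω → ℝ} {hf : ContMDiff (𝓡∂ (d + 1)) 𝓘(ℝ, ℝ) ∞ f} {h0 : ∀ x, 0 < f x}
    (x : Ω) : (mkPos f hf h0).1 x = f x := rfl

/-- the inverse of a conformal factor -/
noncomputable def invPos (f : PosFun d Ω) : PosFun d Ω :=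
  mkPos (fun x => (f.1 x)⁻¹) (f.1.contMDiff.inv₀ fun x => (f.2 x).ne') fun x => inv_pos.2 (f.2 x)

omit [IsManifold (𝓡∂ (d + 1)) ∞ Ω] in
theorem invPos_apply (f : PosFun d Ω) (x : Ω) : (invPos f).1 x = (f.1 x)⁻¹ := rfl

theorem conf_inner (g : RMetric d Ω) (f : PosFun d Ω) (x : Ω) :
    (conf g f).inner x = (f.1 x ^ 2) • g.inner x := rfl

theorem conf_inv (g : RMetric d Ω) (f : PosFun d Ω) : conf (conf g f) (invPos f) = g := by
  apply RMetric.ext'
  funext x
  rw [conf_inner, conf_inner, smul_smul, invPos_apply, ← mul_pow, inv_mul_cancel₀ (f.2 x).ne',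
    one_pow, one_smul]

theorem gradSq_conf (g : RMetric d Ω) (f : PosFun d Ω) (u : Ω → ℝ) (x : Ω) :
    gradSq (conf g f) u x = ENNReal.ofReal ((f.1 x ^ 2)⁻¹) * gradSq g u x := by
  unfold gradSq
  rw [ENNReal.mul_iSup]
  congr 1
  funext v
  have h0 : 0 < f.1 x ^ 2 := pow_pos (f.2 x) 2
  rw [← ENNReal.ofReal_mul (inv_nonneg.2 h0.le)]
  congr 1
  show dif u x v ^ 2 / (f.1 x ^ 2 * g.inner x v v) = (f.1 x ^ 2)⁻¹ * (dif u x v ^ 2 / g.inner x v v)
  rw [div_mul_eq_div_div, div_eq_mul_inv, div_eq_mul_inv, div_eq_mul_inv]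
  ring

theorem gram_conf (g : RMetric d Ω) (f : PosFun d Ω) (c z : Ω) :
    gram (conf g f) c z = (f.1 z ^ 2) • gram g c z := by
  ext i j
  rfl

theorem bgram_conf (g : RMetric d Ω) (f : PosFun d Ω) (c z : Ω) :
    bgram (conf g f) c z = (f.1 z ^ 2) • bgram g c z := by
  ext i j
  rfl

theorem sqrt_scale {n : ℕ} {t D : ℝ} (ht : 0 < t) : √((t ^ 2) ^ n * D) = t ^ n * √D := by
  rw [Real.sqrt_mul (by positivity), ← pow_mul, mul_comm 2 n, pow_mul, Real.sqrt_sq (by positivity)]

variable [MeasurableSpace Ω] [BorelSpace Ω]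

omit [IsManifold (𝓡∂ (d + 1)) ∞ Ω] [MeasurableSpace Ω] [BorelSpace Ω] in
theorem target_meas (c : Ω) : MeasurableSet (ph d c).target := by
  rw [extChartAt_target]
  apply MeasurableSet.inter
  · exact ((chartAt (EuclideanHalfSpace (d + 1)) c).open_target.preimage
      (𝓡∂ (d + 1)).continuous_symm).measurableSet
  · rw [range_modelWithCornersEuclideanHalfSpace]
    exact halfspace_closed.measurableSet

omit [IsManifold (𝓡∂ (d + 1)) ∞ Ω] [MeasurableSpace Ω] [BorelSpace Ω] in
/-- a weight read in a chart and extended by zero -/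
theorem wt_meas (f : PosFun d Ω) (n : ℕ) (c : Ω) : Measurable
    ((ph d c).target.indicator fun y => ENNReal.ofReal (f.1 ((ph d c).symm y) ^ n)) := by
  have h1 : ContinuousOn (fun y => ENNReal.ofReal (f.1 ((ph d c).symm y) ^ n)) (ph d c).target := by
    apply ENNReal.continuous_ofReal.comp_continuousOn
    apply ContinuousOn.pow
    exact f.cont.comp_continuousOn (continuousOn_extChartAt_symm c)
  classical
  have := h1.measurable_piecewise (continuousOn_const (c := (0:ℝ≥0∞)) (s := (ph d c).targetᶜ))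
    (target_meas c)
  have e := piecewise_eq_indicator (s := (ph d c).target)
    (f := fun y => ENNReal.ofReal (f.1 ((ph d c).symm y) ^ n))
  rw [← e]
  exact this

omit [IsManifold (𝓡∂ (d + 1)) ∞ Ω] in
theorem wtM (f : PosFun d Ω) (n : ℕ) : Measurable fun x => ENNReal.ofReal (f.1 x ^ n) :=
  (ENNReal.continuous_ofReal.comp (f.cont.pow n)).measurable

theorem isVolume_conf {g : RMetric d Ω} {μ : Measure Ω} (hμ : IsVolume g μ) (f : PosFun d Ω) :
    IsVolume (conf g f) (μ.withDensity fun x => ENNReal.ofReal (f.1 x ^ (d + 1))) := by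
  intro c h hh
  rw [setLIntegral_withDensity_eq_setLIntegral_mul_non_measurable _ (wtM f _) _
    (chartAt (EuclideanHalfSpace (d + 1)) c).open_source.measurableSet
    (Eventually.of_forall fun x => ENNReal.ofReal_lt_top)]
  have h1 := hμ c (fun y => (ph d c).target.indicator
    (fun y => ENNReal.ofReal (f.1 ((ph d c).symm y) ^ (d + 1))) y * h y) ((wt_meas f _ c).mul hh)
  have e1 : ∫⁻ x in (chartAt (EuclideanHalfSpace (d + 1)) c).source,
      ((fun x => ENNReal.ofReal (f.1 x ^ (d + 1))) * fun x => h (extChartAt (𝓡∂ (d + 1)) c x)) x ∂μ =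
      ∫⁻ x in (chartAt (EuclideanHalfSpace (d + 1)) c).source, (fun y => (ph d c).target.indicator
    (fun y => ENNReal.ofReal (f.1 ((ph d c).symm y) ^ (d + 1))) y * h y)
      (extChartAt (𝓡∂ (d + 1)) c x) ∂μ := by
    apply setLIntegral_congr_fun
      (chartAt (EuclideanHalfSpace (d + 1)) c).open_source.measurableSet
    intro x hx
    rw [← extChartAt_source (𝓡∂ (d + 1))] at hx
    simp only [Pi.mul_apply]
    rw [indicator_of_mem ((ph d c).map_source hx), (ph d c).left_inv hx]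
  rw [e1, h1]
  apply setLIntegral_congr_fun (target_meas c)
  intro y hy
  simp only
  rw [indicator_of_mem hy, gram_conf, Matrix.det_smul, Fintype.card_fin, sqrt_scale (f.2 _),
    ENNReal.ofReal_mul (pow_nonneg (f.2 _).le _)]
  ring

theorem isBdryVolume_conf {g : RMetric d Ω} {ν : Measure Ω} (hν : IsBdryVolume g ν)
    (f : PosFun d Ω) :
    IsBdryVolume (conf g f) (ν.withDensity fun x => ENNReal.ofReal (f.1 x ^ d)) := by
  intro c h hh
  rw [setLIntegral_withDensity_eq_setLIntegral_mul_non_measurable _ (wtM f _) _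
    (chartAt (EuclideanHalfSpace (d + 1)) c).open_source.measurableSet
    (Eventually.of_forall fun x => ENNReal.ofReal_lt_top)]
  have h1 := hν c (fun y => (ph d c).target.indicator
    (fun y => ENNReal.ofReal (f.1 ((ph d c).symm y) ^ d)) y * h y) ((wt_meas f _ c).mul hh)
  have e1 : ∫⁻ x in (chartAt (EuclideanHalfSpace (d + 1)) c).source,
      ((fun x => ENNReal.ofReal (f.1 x ^ d)) * fun x => h (extChartAt (𝓡∂ (d + 1)) c x)) x ∂ν =
      ∫⁻ x in (chartAt (EuclideanHalfSpace (d + 1)) c).source, (fun y => (ph d c).target.indicator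
    (fun y => ENNReal.ofReal (f.1 ((ph d c).symm y) ^ d)) y * h y)
      (extChartAt (𝓡∂ (d + 1)) c x) ∂ν := by
    apply setLIntegral_congr_fun
      (chartAt (EuclideanHalfSpace (d + 1)) c).open_source.measurableSet
    intro x hx
    rw [← extChartAt_source (𝓡∂ (d + 1))] at hx
    simp only [Pi.mul_apply]
    rw [indicator_of_mem ((ph d c).map_source hx), (ph d c).left_inv hx]
  rw [e1, h1]
  have hm : MeasurableSet {z : FF d | inj z ∈ (extChartAt (𝓡∂ (d + 1)) c).target} :=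
    (injL d).continuous.measurable (target_meas c)
  apply setLIntegral_congr_fun hm
  intro z hz
  simp only
  rw [indicator_of_mem (show inj z ∈ (ph d c).target from hz), bgram_conf, Matrix.det_smul,
    Fintype.card_fin, sqrt_scale (f.2 _), ENNReal.ofReal_mul (pow_nonneg (f.2 _).le _)]
  ring

omit [IsManifold (𝓡∂ (d + 1)) ∞ Ω] in
theorem wd_cancel (f : PosFun d Ω) (n : ℕ) (μ : Measure Ω) :
    (μ.withDensity fun x => ENNReal.ofReal ((invPos f).1 x ^ n)).withDensity
      (fun x => ENNReal.ofReal (f.1 x ^ n)) = μ := by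
  rw [← withDensity_mul _ (wtM _ n) (wtM f n)]
  have : ((fun x => ENNReal.ofReal ((invPos f).1 x ^ n)) * fun x => ENNReal.ofReal (f.1 x ^ n)) = 1 := by
    funext x
    simp only [Pi.mul_apply, Pi.one_apply]
    rw [← ENNReal.ofReal_mul (pow_nonneg ((invPos f).2 x).le _), invPos_apply, ← mul_pow,
      inv_mul_cancel₀ (f.2 x).ne', one_pow, ENNReal.ofReal_one]
  rw [this, withDensity_one]

/-- every volume measure of a conformal metric comes from one of the background metric -/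
theorem exists_bg {g : RMetric d Ω} {f : PosFun d Ω} {μ : Measure Ω} (hμ : IsVolume (conf g f) μ) :
    ∃ μ0 : Measure Ω, IsVolume g μ0 ∧
      μ = μ0.withDensity fun x => ENNReal.ofReal (f.1 x ^ (d + 1)) := by
  refine ⟨μ.withDensity fun x => ENNReal.ofReal ((invPos f).1 x ^ (d + 1)), ?_,
    (wd_cancel f _ μ).symm⟩
  have := isVolume_conf hμ (invPos f)
  rwa [conf_inv] at this

theorem exists_bg' {g : RMetric d Ω} {f : PosFun d Ω} {ν : Measure Ω}
    (hν : IsBdryVolume (conf g f) ν) : ∃ ν0 : Measure Ω, IsBdryVolume g ν0 ∧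
      ν = ν0.withDensity fun x => ENNReal.ofReal (f.1 x ^ d) := by
  refine ⟨ν.withDensity fun x => ENNReal.ofReal ((invPos f).1 x ^ d), ?_,
    (wd_cancel f _ ν).symm⟩
  have := isBdryVolume_conf hν (invPos f)
  rwa [conf_inv] at this

omit [IsManifold (𝓡∂ (d + 1)) ∞ Ω] in
theorem lint_wd (f : PosFun d Ω) (n : ℕ) (μ : Measure Ω) (F : Ω → ℝ≥0∞) :
    ∫⁻ x, F x ∂(μ.withDensity fun x => ENNReal.ofReal (f.1 x ^ n)) =
      ∫⁻ x, ENNReal.ofReal (f.1 x ^ n) * F x ∂μ :=
  lintegral_withDensity_eq_lintegral_mul_non_measurable _ (wtM f n)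
    (Eventually.of_forall fun _ => ENNReal.ofReal_lt_top) F

/-- the energy of a conformal metric -/
theorem energy_conf (hd : 1 ≤ d) (g : RMetric d Ω) (f : PosFun d Ω) (μ : Measure Ω) (u : Ω → ℝ) :
    energy (conf g f) (μ.withDensity fun x => ENNReal.ofReal (f.1 x ^ (d + 1))) u =
      ∫⁻ x, ENNReal.ofReal (f.1 x ^ (d - 1)) * gradSq g u x ∂μ := by
  unfold energy
  rw [lint_wd]
  congr 1
  funext x
  rw [gradSq_conf, ← mul_assoc, ← ENNReal.ofReal_mul (pow_nonneg (f.2 x).le _)]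
  congr 2
  have ht := f.2 x
  generalize f.1 x = t at ht
  obtain ⟨e, rfl⟩ : ∃ e, d = e + 1 := ⟨d - 1, by omega⟩
  rw [Nat.add_sub_cancel, show e + 1 + 1 = e + 2 from rfl, pow_add, mul_assoc,
    mul_inv_cancel₀ (pow_pos ht 2).ne', mul_one]

omit [IsManifold (𝓡∂ (d + 1)) ∞ Ω] in
/-- the boundary norm of a conformal metric -/
theorem bsq_conf (f : PosFun d Ω) (ν : Measure Ω) (u : Ω → ℝ) :
    bsq (ν.withDensity fun x => ENNReal.ofReal (f.1 x ^ d)) u =
      ∫⁻ x, ENNReal.ofReal (f.1 x ^ d * u x ^ 2) ∂ν := by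
  unfold bsq
  rw [lint_wd]
  congr 1
  funext x
  rw [← ENNReal.ofReal_mul (pow_nonneg (f.2 x).le _)]

omit [IsManifold (𝓡∂ (d + 1)) ∞ Ω] in
theorem univ_wd (f : PosFun d Ω) (n : ℕ) (μ : Measure Ω) :
    (μ.withDensity fun x => ENNReal.ofReal (f.1 x ^ n)) univ =
      ∫⁻ x, ENNReal.ofReal (f.1 x ^ n) ∂μ := by
  rw [withDensity_apply _ MeasurableSet.univ, setLIntegral_univ]

omit [IsManifold (𝓡∂ (d + 1)) ∞ Ω] in
/-- nondegeneracy does not depend on the conformal factor -/
theorem bsq_conf_eq_zero (f : PosFun d Ω) (ν : Measure Ω) {u : Ω → ℝ} (hu : Continuous u) :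
    bsq (ν.withDensity fun x => ENNReal.ofReal (f.1 x ^ d)) u = 0 ↔ bsq ν u = 0 := by
  rw [bsq_conf]
  unfold bsq
  have m1 : Measurable fun x => ENNReal.ofReal (f.1 x ^ d * u x ^ 2) :=
    (ENNReal.continuous_ofReal.comp ((f.cont.pow d).mul (hu.pow 2))).measurable
  have m2 : Measurable fun x => ENNReal.ofReal (u x ^ 2) :=
    (ENNReal.continuous_ofReal.comp (hu.pow 2)).measurable
  rw [lintegral_eq_zero_iff m1, lintegral_eq_zero_iff m2]
  constructor
  · intro h
    filter_upwards [h] with x hx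
    simp only [Pi.zero_apply, ENNReal.ofReal_eq_zero] at hx ⊢
    by_contra hcon
    rw [not_le] at hcon
    exact absurd (mul_pos (pow_pos (f.2 x) d) hcon) (not_lt.2 hx)
  · intro h
    filter_upwards [h] with x hx
    simp only [Pi.zero_apply, ENNReal.ofReal_eq_zero] at hx ⊢
    exact mul_nonpos_of_nonneg_of_nonpos (pow_nonneg (f.2 x).le d) hx

end Pool.Agent.W545.Man
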