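import Mathlib
set_option autoImplicit false
open Set MeasureTheory
open scoped ENNReal Manifold ContDiff Matrix

/-!
Riemannian metrics on a smooth manifold with boundary `Ω` of dimension `d + 1`, given by their
coefficient matrices in the charts, their volume measures and their Steklov eigenvalues.
-/

namespace Pool.Agent.W545.Man.St

/-- Euclidean space of dimension `n` -/
abbrev E (n : ℕ) := EuclideanSpace ℝ (Fin n)

/-- square matrices of size `n` -/
abbrev Mat (n : ℕ) := Matrix (Fin n) (Fin n) ℝ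

/-- the inclusion `z ↦ (0, z)` of `ℝ^d` as the boundary of the half-space of dimension `d + 1` -/
def inc {d : ℕ} (z : E d) : E (d + 1) := WithLp.toLp 2 (Fin.cons 0 z.ofLp)

/-- the half-space `y₀ ≥ 0` -/
def half (d : ℕ) : Set (E (d + 1)) := {y | 0 ≤ y 0}

variable (d : ℕ) {Ω : Type*} [TopologicalSpace Ω] [ChartedSpace (EuclideanHalfSpace (d + 1)) Ω]

/-- the chart of `Ω` at the point `c`, with values in the half-space -/
noncomputable def ch (c : Ω) : PartialEquiv Ω (E (d + 1)) := extChartAt (𝓡∂ (d + 1)) c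

/-- smooth real functions on `Ω` (up to the boundary) -/
def Smooth (u : Ω → ℝ) : Prop := ContMDiff (𝓡∂ (d + 1)) 𝓘(ℝ, ℝ) ∞ u

/-- derivative at the point `y` of a function on the half-space, in the direction `v` -/
noncomputable def der (w : E (d + 1) → ℝ) (y v : E (d + 1)) : ℝ := fderivWithin ℝ w (half d) y v

/-- Jacobian matrix, at the point `y`, of the change from the chart at `c` to the chart at `c'` -/
noncomputable def jac (c c' : Ω) (y : E (d + 1)) : Mat (d + 1) :=
  Matrix.of fun i j => der d (fun x => ch d c' ((ch d c).symm x) i) y (EuclideanSpace.single j 1)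

variable {d}

/-- `G` is a smooth Riemannian metric on `Ω`: `G c y` is the matrix of its coefficients in the chart
at `c`, at the point with coordinates `y`. They are smooth up to the boundary, the matrices are
symmetric positive definite, and they obey the transformation rule under changes of charts. -/
structure IsMetric (G : Ω → E (d + 1) → Mat (d + 1)) : Prop where
  smooth : ∀ c i j, ContDiffOn ℝ ∞ (fun y => G c y i j) (ch d c).target
  posDef : ∀ c, ∀ y ∈ (ch d c).target, (G c y).PosDef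
  compat : ∀ c c', ∀ y ∈ (ch d c).target, (ch d c).symm y ∈ (ch d c').source →
    G c y = (jac d c c' y)ᵀ * G c' (ch d c' ((ch d c).symm y)) * jac d c c' y

/-- `|du|²_G` at the point `x`, the maximum of `du(v)² / G(v,v)` over the tangent vectors `v`
(computed in the chart at `x`) -/
noncomputable def gradSq (G : Ω → E (d + 1) → Mat (d + 1)) (u : Ω → ℝ) (x : Ω) : ℝ≥0∞ :=
  ⨆ v : E (d + 1), ENNReal.ofReal (der d (fun y => u ((ch d x).symm y)) (ch d x x) v ^ 2 /
    (v.ofLp ⬝ᵥ (G x (ch d x x)) *ᵥ v.ofLp))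

variable [MeasurableSpace Ω]

/-- `μ` is the Riemannian volume measure of `G`: in every chart it is `√(det G) dy` -/
def IsVolume (G : Ω → E (d + 1) → Mat (d + 1)) (μ : Measure Ω) : Prop :=
  ∀ c : Ω, ∀ h : E (d + 1) → ℝ≥0∞, Measurable h →
    ∫⁻ x in (ch d c).source, h (ch d c x) ∂μ =
      ∫⁻ y in (ch d c).target, h y * ENNReal.ofReal (√(G c y).det)

/-- `ν` is the Riemannian measure on the boundary of the metric induced by `G` (regarded as a
measure on `Ω` carried by the boundary): in every chart it is `√(det (G_ij)_{i,j>0}) dz` on the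
hyperplane `y₀ = 0` -/
def IsBdryVolume (G : Ω → E (d + 1) → Mat (d + 1)) (ν : Measure Ω) : Prop :=
  ∀ c : Ω, ∀ h : E (d + 1) → ℝ≥0∞, Measurable h →
    ∫⁻ x in (ch d c).source, h (ch d c x) ∂ν =
      ∫⁻ z in {z : E d | inc z ∈ (ch d c).target},
        h (inc z) * ENNReal.ofReal (√((G c (inc z)).submatrix Fin.succ Fin.succ).det)

/-- the Dirichlet energy `∫_Ω |du|²_G dμ` -/
noncomputable def energy (G : Ω → E (d + 1) → Mat (d + 1)) (μ : Measure Ω) (u : Ω → ℝ) : ℝ≥0∞ :=
  ∫⁻ x, gradSq G u x ∂μ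

/-- `∫_{∂Ω} u² dν` -/
noncomputable def bsq (ν : Measure Ω) (u : Ω → ℝ) : ℝ≥0∞ := ∫⁻ x, ENNReal.ofReal (u x ^ 2) ∂ν

/-- the Steklov eigenvalue `σ_k` by its variational characterisation: the infimum, over the
`(k+1)`-dimensional spaces `V` of smooth functions on `Ω` none of whose nonzero elements vanishes
on the boundary, of the maximum over `V` of the Rayleigh quotient -/
noncomputable def sigma (k : ℕ) (G : Ω → E (d + 1) → Mat (d + 1)) (μ ν : Measure Ω) : ℝ≥0∞ :=
  ⨅ (V : Submodule ℝ (Ω → ℝ)) (_ : Module.finrank ℝ V = k + 1) (_ : ∀ u ∈ V, Smooth d u)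
    (_ : ∀ u ∈ V, u ≠ 0 → bsq ν u ≠ 0), ⨆ (u ∈ V) (_ : u ≠ 0), energy G μ u / bsq ν u

/-- the normalised eigenvalue `σ_k |Ω|^((1-d)/(d+1)) |∂Ω|` -/
noncomputable def nsigma (k : ℕ) (G : Ω → E (d + 1) → Mat (d + 1)) (μ ν : Measure Ω) : ℝ≥0∞ :=
  sigma k G μ ν * μ univ ^ ((1 - (d : ℝ)) / (d + 1)) * ν univ

/-- `G'` is conformal to `G`: `G' = f² G` with a smooth positive function `f` on `Ω` -/
def Conformal (G G' : Ω → E (d + 1) → Mat (d + 1)) : Prop :=
  ∃ f : Ω → ℝ, Smooth d f ∧ (∀ x, 0 < f x) ∧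
    ∀ c, ∀ y ∈ (ch d c).target, G' c y = f ((ch d c).symm y) ^ 2 • G c y

/-- the conformal eigenvalue: the supremum over the conformal class of `G` of the normalised
Steklov eigenvalue number `k` -/
noncomputable def confSup (k : ℕ) (G : Ω → E (d + 1) → Mat (d + 1)) : ℝ≥0∞ :=
  ⨆ (G' : Ω → E (d + 1) → Mat (d + 1)) (μ : Measure Ω) (ν : Measure Ω) (_ : IsMetric G')
    (_ : Conformal G G') (_ : IsVolume G' μ) (_ : IsBdryVolume G' ν), nsigma k G' μ ν

end Pool.Agent.W545.Man.St
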