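import Mathlib
import Pool.Agent.W545.Man.Stmt
import Pool.Agent.W545.Man.Conf
set_option autoImplicit false
open Set Filter Topology MeasureTheory Metric
open scoped ENNReal Manifold ContDiff Matrix

/-! From the metrics `RMetric` of `Defs` to the metrics given by matrices of `Stmt`, and back. -/

namespace Pool.Agent.W545.Man

variable {d : ℕ} {Ω : Type*} [TopologicalSpace Ω] [ChartedSpace (EuclideanHalfSpace (d + 1)) Ω]
  [IsManifold (𝓡∂ (d + 1)) ∞ Ω]

theorem half_eq : St.half d = range (𝓡∂ (d + 1)) := by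
  rw [range_modelWithCornersEuclideanHalfSpace]; rfl

theorem der_eq (w : EE d → ℝ) (y v : EE d) :
    St.der d w y v = fderivWithin ℝ w (range (𝓡∂ (d + 1))) y v := by
  unfold St.der; rw [half_eq]

theorem jac_eq {c c' z : Ω} (hz : z ∈ (ph d c).source) (hz' : z ∈ (ph d c').source)
    (i j : Fin (d + 1)) : St.jac d c c' (ph d c z) i j =
      (tangentCoordChange (𝓡∂ (d + 1)) c c' z (EuclideanSpace.single j 1) : EE d) i := by
  have h1 := hasFDerivWithinAt_tangentCoordChange (I := 𝓡∂ (d + 1)) (x := c) (y := c') (z := z)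
    ⟨hz, hz'⟩
  have h2 : HasFDerivWithinAt (fun x => (ph d c' ((ph d c).symm x)) i)
      ((EuclideanSpace.proj (𝕜 := ℝ) i).comp (tangentCoordChange (𝓡∂ (d + 1)) c c' z))
      (range (𝓡∂ (d + 1))) (ph d c z) :=
    (EuclideanSpace.proj (𝕜 := ℝ) i : EE d →L[ℝ] ℝ).hasFDerivAt.comp_hasFDerivWithinAt _ h1
  have h3 := h2.fderivWithin ((𝓡∂ (d + 1)).uniqueDiffOn _ (mem_range_self _))
  show St.der d (fun x => St.ch d c' ((St.ch d c).symm x) i) (ph d c z) (EuclideanSpace.single j 1) = _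
  rw [der_eq]
  show fderivWithin ℝ (fun x => (ph d c' ((ph d c).symm x)) i) _ _ _ = _
  rw [h3]
  rfl

/-- a linear map in terms of its matrix -/
theorem lin_matrix {n : ℕ} (L : EuclideanSpace ℝ (Fin n) →L[ℝ] EuclideanSpace ℝ (Fin n))
    (v : EuclideanSpace ℝ (Fin n)) :
    (L v).ofLp = (Matrix.of fun i j => (L (EuclideanSpace.single j 1)) i) *ᵥ v.ofLp := by
  have hv : v = ∑ j, v j • (EuclideanSpace.single j 1 : EuclideanSpace ℝ (Fin n)) := by
    ext i
    simp [Pi.single_apply]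
  funext i
  conv_lhs => rw [hv]
  rw [map_sum]
  simp only [map_smul, WithLp.ofLp_sum, WithLp.ofLp_smul, Finset.sum_apply, Pi.smul_apply,
    smul_eq_mul, Matrix.mulVec, dotProduct, Matrix.of_apply]
  apply Finset.sum_congr rfl
  intro j _
  ring

theorem tcc_matrix {c c' z : Ω} (hz : z ∈ (ph d c).source) (hz' : z ∈ (ph d c').source)
    (v : EE d) : (tangentCoordChange (𝓡∂ (d + 1)) c c' z v : EE d).ofLp =
      (St.jac d c c' (ph d c z)) *ᵥ v.ofLp := by
  rw [lin_matrix]
  congr 1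
  ext i j
  rw [Matrix.of_apply, jac_eq hz hz']

/-- the bilinear form with matrix `M` -/
noncomputable def matBil (M : Matrix (Fin (d + 1)) (Fin (d + 1)) ℝ) : EE d →L[ℝ] EE d →L[ℝ] ℝ :=
  LinearMap.toContinuousLinearMap
    { toFun := fun v => LinearMap.toContinuousLinearMap
        { toFun := fun w => v.ofLp ⬝ᵥ M *ᵥ w.ofLp
          map_add' := by intro x y; simp [Matrix.mulVec_add, dotProduct_add]
          map_smul' := by intro a x; simp [Matrix.mulVec_smul, dotProduct_smul] }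
      map_add' := by intro x y; ext w; simp [add_dotProduct]
      map_smul' := by intro a x; ext w; simp [smul_dotProduct] }

theorem matBil_apply (M : Matrix (Fin (d + 1)) (Fin (d + 1)) ℝ) (v w : EE d) :
    matBil M v w = v.ofLp ⬝ᵥ M *ᵥ w.ofLp := rfl

theorem dot_single (M : Matrix (Fin (d + 1)) (Fin (d + 1)) ℝ) (i j : Fin (d + 1)) :
    (EuclideanSpace.single i (1 : ℝ)).ofLp ⬝ᵥ M *ᵥ (EuclideanSpace.single j (1 : ℝ)).ofLp = M i j := by
  simp

/-- `g` and `G` are the same metric -/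
def Rel (g : RMetric d Ω) (G : Ω → EE d → St.Mat (d + 1)) : Prop :=
  ∀ c : Ω, ∀ y ∈ (ph d c).target, G c y = gram g c ((ph d c).symm y)

theorem coeff_gram (g : RMetric d Ω) (c z : Ω) (v w : EE d) :
    coeff g.inner c z v w = v.ofLp ⬝ᵥ (gram g c z) *ᵥ w.ofLp := by
  rw [coeff_sum]
  simp only [dotProduct, Matrix.mulVec, Finset.mul_sum]
  refine Finset.sum_congr rfl fun i _ => Finset.sum_congr rfl fun j _ => ?_
  ring

theorem mat_conj {n : ℕ} (J M : Matrix (Fin n) (Fin n) ℝ) (v w : Fin n → ℝ) :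
    (J *ᵥ v) ⬝ᵥ M *ᵥ (J *ᵥ w) = v ⬝ᵥ (Jᵀ * M * J) *ᵥ w := by
  rw [← Matrix.mulVec_mulVec, ← Matrix.mulVec_mulVec, Matrix.dotProduct_mulVec v Jᵀ,
    Matrix.vecMul_transpose]

theorem coeff_change (g : RMetric d Ω) {c c' z : Ω} (hz : z ∈ (ph d c).source)
    (hz' : z ∈ (ph d c').source) (v w : EE d) : coeff g.inner c z v w =
      coeff g.inner c' z (tangentCoordChange (𝓡∂ (d + 1)) c c' z v)
        (tangentCoordChange (𝓡∂ (d + 1)) c c' z w) := by
  rw [coeff_apply, coeff_apply]
  have h : ∀ u : EE d, tangentCoordChange (𝓡∂ (d + 1)) c' z z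
      (tangentCoordChange (𝓡∂ (d + 1)) c c' z u) = tangentCoordChange (𝓡∂ (d + 1)) c z z u :=
    fun u => tangentCoordChange_comp ⟨⟨hz, hz'⟩, mem_extChartAt_source z⟩
  rw [h, h]

/-- the matrices of a metric -/
theorem toG_isMetric (g : RMetric d Ω) :
    St.IsMetric (fun c y => gram g c ((ph d c).symm y) : Ω → EE d → St.Mat (d + 1)) where
  smooth c i j := g.smooth c _ _
  posDef c y hy := gram_posDef g ((ph d c).map_target hy)
  compat c c' y hy hy' := by
    have hy1 : y ∈ (ph d c).target := hy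
    have hz : (ph d c).symm y ∈ (ph d c).source := (ph d c).map_target hy1
    have hz' : (ph d c).symm y ∈ (ph d c').source := hy'
    show gram g c ((ph d c).symm y) = (St.jac d c c' y)ᵀ *
      gram g c' ((ph d c').symm (ph d c' ((ph d c).symm y))) * St.jac d c c' y
    rw [(ph d c').left_inv hz']
    set z := (ph d c).symm y with hzdef
    have hyz : y = ph d c z := ((ph d c).right_inv hy1).symm
    ext i j
    rw [← dot_single (gram g c z), ← dot_single ((St.jac d c c' y)ᵀ * _ * _), ← mat_conj,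
      ← coeff_gram, coeff_change g hz hz', coeff_gram, tcc_matrix hz hz', tcc_matrix hz hz', ← hyz]

theorem herm_symm {n : ℕ} {M : Matrix (Fin n) (Fin n) ℝ} (hM : M.IsHermitian) (v w : Fin n → ℝ) :
    v ⬝ᵥ M *ᵥ w = w ⬝ᵥ M *ᵥ v := by
  have h : Mᵀ = M := by
    have := hM.eq
    rwa [Matrix.conjTranspose_eq_transpose_of_trivial] at this
  rw [Matrix.dotProduct_mulVec, ← Matrix.mulVec_transpose, h, dotProduct_comm]

/-- the coefficients, in the chart at `c`, of the bilinear form with matrices `G z (ph z z)` -/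
theorem coeff_matBil {G : Ω → EE d → St.Mat (d + 1)} (hG : St.IsMetric G) {c z : Ω}
    (hz : z ∈ (ph d c).source) (v w : EE d) :
    coeff (fun z => (matBil (G z (ph d z z)) : EE d →L[ℝ] EE d →L[ℝ] ℝ)) c z v w =
      v.ofLp ⬝ᵥ (G c (ph d c z)) *ᵥ w.ofLp := by
  have hzz : z ∈ (ph d z).source := mem_extChartAt_source z
  have hy : ph d c z ∈ (ph d c).target := (ph d c).map_source hz
  have hc := hG.compat c z (ph d c z) hy (by
    show (ph d c).symm (ph d c z) ∈ (ph d z).source
    rw [(ph d c).left_inv hz]; exact hzz)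
  show (tangentCoordChange (𝓡∂ (d + 1)) c z z v : EE d).ofLp ⬝ᵥ (G z (ph d z z)) *ᵥ
    (tangentCoordChange (𝓡∂ (d + 1)) c z z w : EE d).ofLp = _
  rw [tcc_matrix hz hzz, tcc_matrix hz hzz, mat_conj, hc]
  congr 3
  show _ * G z (ph d z z) = _ * G z (ph d z ((ph d c).symm (ph d c z)))
  rw [(ph d c).left_inv hz]

theorem cd_bil {s : Set (EE d)} {G : EE d → Matrix (Fin (d + 1)) (Fin (d + 1)) ℝ}
    (hG : ∀ i j, ContDiffOn ℝ ∞ (fun y => G y i j) s) (v w : Fin (d + 1) → ℝ) :
    ContDiffOn ℝ ∞ (fun y => v ⬝ᵥ (G y) *ᵥ w) s := by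
  simp only [dotProduct, Matrix.mulVec]
  refine ContDiffOn.sum fun i _ => ?_
  refine contDiffOn_const.mul (ContDiffOn.sum fun j _ => ?_)
  exact (hG i j).mul contDiffOn_const

/-- a metric given by matrices -/
noncomputable def ofG (G : Ω → EE d → St.Mat (d + 1)) (hG : St.IsMetric G) : RMetric d Ω where
  inner z := (matBil (G z (ph d z z)) : EE d →L[ℝ] EE d →L[ℝ] ℝ)
  symm z v w := herm_symm (hG.posDef z (ph d z z) (mem_extChartAt_target z)).1 _ _
  pos z v hv := by
    have h := (hG.posDef z (ph d z z) (mem_extChartAt_target z)).dotProduct_mulVec_pos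
      (x := (v : EE d).ofLp) (by
        intro h
        apply hv
        exact congrArg (WithLp.toLp 2) h)
    rwa [star_trivial] at h
  smooth c v w := by
    apply (cd_bil (hG.smooth c) v.ofLp w.ofLp).congr
    intro y hy
    have h := coeff_matBil hG ((ph d c).map_target hy) v w
    rw [(ph d c).right_inv hy] at h
    exact h

theorem ofG_rel (G : Ω → EE d → St.Mat (d + 1)) (hG : St.IsMetric G) : Rel (ofG G hG) G := by
  intro c y hy
  ext i j
  have h := coeff_matBil hG ((ph d c).map_target hy) (EuclideanSpace.single i 1)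
    (EuclideanSpace.single j 1)
  rw [(ph d c).right_inv hy, dot_single] at h
  exact h.symm

theorem toG_rel (g : RMetric d Ω) :
    Rel g (fun c y => gram g c ((ph d c).symm y) : Ω → EE d → St.Mat (d + 1)) :=
  fun _ _ _ => rfl

theorem conf_rel {g : RMetric d Ω} {G G' : Ω → EE d → St.Mat (d + 1)} (h : Rel g G) {f : PosFun d Ω}
    (hG' : ∀ c, ∀ y ∈ (ph d c).target, G' c y = f.1 ((ph d c).symm y) ^ 2 • G c y) :
    Rel (conf g f) G' := by
  intro c y hy
  rw [hG' c y hy, h c y hy, gram_conf]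

theorem rel_gradSq {g : RMetric d Ω} {G : Ω → EE d → St.Mat (d + 1)} (h : Rel g G) {u : Ω → ℝ}
    {x : Ω} (hu : MDifferentiableAt (𝓡∂ (d + 1)) 𝓘(ℝ, ℝ) u x) : St.gradSq G u x = gradSq g u x := by
  rw [gradSq_chart g (mem_extChartAt_source x) hu]
  unfold St.gradSq
  congr 1
  funext v
  rw [der_eq]
  have h1 := h x (ph d x x) (mem_extChartAt_target x)
  rw [(ph d x).left_inv (mem_extChartAt_source x)] at h1
  rw [coeff_gram, ← h1]
  rfl

variable [MeasurableSpace Ω]

theorem rel_isVolume [BorelSpace Ω] {g : RMetric d Ω} {G : Ω → EE d → St.Mat (d + 1)}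
    (h : Rel g G) {μ : Measure Ω} : St.IsVolume G μ ↔ IsVolume g μ := by
  unfold St.IsVolume IsVolume
  refine forall_congr' fun c => forall_congr' fun w => imp_congr_right fun hw => ?_
  have e1 : ∫⁻ x in (St.ch d c).source, w (St.ch d c x) ∂μ =
      ∫⁻ x in (chartAt (EuclideanHalfSpace (d + 1)) c).source,
        w (extChartAt (𝓡∂ (d + 1)) c x) ∂μ := by
    rw [← extChartAt_source (𝓡∂ (d + 1))]
    rfl
  have e2 : ∫⁻ y in (St.ch d c).target, w y * ENNReal.ofReal (√(G c y).det) =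
      ∫⁻ y in (extChartAt (𝓡∂ (d + 1)) c).target,
        w y * ENNReal.ofReal (√(gram g c ((extChartAt (𝓡∂ (d + 1)) c).symm y)).det) := by
    apply setLIntegral_congr_fun (target_meas c)
    intro y hy
    simp only
    rw [h c y hy]
  rw [e1, e2]

theorem rel_isBdryVolume [BorelSpace Ω] {g : RMetric d Ω} {G : Ω → EE d → St.Mat (d + 1)}
    (h : Rel g G) {ν : Measure Ω} : St.IsBdryVolume G ν ↔ IsBdryVolume g ν := by
  unfold St.IsBdryVolume IsBdryVolume
  refine forall_congr' fun c => forall_congr' fun w => imp_congr_right fun hw => ?_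
  have e1 : ∫⁻ x in (St.ch d c).source, w (St.ch d c x) ∂ν =
      ∫⁻ x in (chartAt (EuclideanHalfSpace (d + 1)) c).source,
        w (extChartAt (𝓡∂ (d + 1)) c x) ∂ν := by
    rw [← extChartAt_source (𝓡∂ (d + 1))]
    rfl
  have hm : MeasurableSet {z : FF d | inj z ∈ (extChartAt (𝓡∂ (d + 1)) c).target} :=
    (injL d).continuous.measurable (target_meas c)
  have e2 : ∫⁻ z in {z : St.E d | St.inc z ∈ (St.ch d c).target},
        w (St.inc z) * ENNReal.ofReal (√((G c (St.inc z)).submatrix Fin.succ Fin.succ).det) =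
      ∫⁻ z in {z : FF d | inj z ∈ (extChartAt (𝓡∂ (d + 1)) c).target},
        w (inj z) * ENNReal.ofReal
          (√(bgram g c ((extChartAt (𝓡∂ (d + 1)) c).symm (inj z))).det) := by
    apply setLIntegral_congr_fun hm
    intro z hz
    have : G c (inj z) = gram g c ((ph d c).symm (inj z)) := h c (inj z) hz
    show w (inj z) * ENNReal.ofReal (√((G c (inj z)).submatrix Fin.succ Fin.succ).det) = _
    rw [this]
    rfl
  rw [e1, e2]

theorem rel_energy {g : RMetric d Ω} {G : Ω → EE d → St.Mat (d + 1)} (h : Rel g G) {u : Ω → ℝ}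
    (hu : ContMDiff (𝓡∂ (d + 1)) 𝓘(ℝ, ℝ) ∞ u) (μ : Measure Ω) :
    St.energy G μ u = energy g μ u := by
  unfold St.energy energy
  congr 1
  funext x
  exact rel_gradSq h ((hu x).mdifferentiableAt (by simp))

omit [IsManifold (𝓡∂ (d + 1)) ∞ Ω] [MeasurableSpace Ω] in
/-- smooth functions as functions -/
noncomputable def coeL (d : ℕ) (Ω : Type*) [TopologicalSpace Ω]
    [ChartedSpace (EuclideanHalfSpace (d + 1)) Ω] :
    C^∞⟮𝓡∂ (d + 1), Ω; 𝓘(ℝ, ℝ), ℝ⟯ →ₗ[ℝ] (Ω → ℝ) where
  toFun u := u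
  map_add' _ _ := rfl
  map_smul' _ _ := rfl

theorem coeL_inj : Function.Injective (coeL d Ω) := by
  intro u v h
  exact DFunLike.coe_injective h

theorem rel_sigma {g : RMetric d Ω} {G : Ω → EE d → St.Mat (d + 1)} (h : Rel g G) (k : ℕ)
    (μ ν : Measure Ω) : St.sigma k G μ ν = sigma k g μ ν := by
  unfold St.sigma sigma
  apply le_antisymm
  · refine le_iInf fun V => le_iInf fun hV => le_iInf fun hnd => ?_
    refine iInf_le_of_le (V.map (coeL d Ω)) (iInf_le_of_le ?_ (iInf_le_of_le ?_ (iInf_le_of_le ?_ ?_)))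
    · rw [← hV]
      exact (Submodule.equivMapOfInjective (coeL d Ω) coeL_inj V).finrank_eq.symm
    · rintro _ ⟨u, -, rfl⟩
      exact u.contMDiff
    · rintro _ ⟨u, hu, rfl⟩ h0
      refine hnd u hu ?_
      rintro rfl
      exact h0 (map_zero _)
    · refine iSup_le fun w => iSup_le fun hw => iSup_le fun hw0 => ?_
      obtain ⟨u, hu, rfl⟩ := hw
      refine le_iSup_of_le u (le_iSup_of_le hu (le_iSup_of_le ?_ ?_))
      · rintro rfl
        exact hw0 (map_zero _)
      · rw [rel_energy h (show ContMDiff (𝓡∂ (d + 1)) 𝓘(ℝ, ℝ) ∞ (coeL d Ω u) from u.contMDiff)]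
        exact le_rfl
  · refine le_iInf fun V => le_iInf fun hV => le_iInf fun hs => le_iInf fun hnd => ?_
    have hVr : V ≤ LinearMap.range (coeL d Ω) := by
      intro u hu
      exact ⟨⟨u, hs u hu⟩, rfl⟩
    refine iInf_le_of_le (V.comap (coeL d Ω)) (iInf_le_of_le ?_ (iInf_le_of_le ?_ ?_))
    · rw [← hV, (Submodule.equivMapOfInjective (coeL d Ω) coeL_inj
        (V.comap (coeL d Ω))).finrank_eq, Submodule.map_comap_eq_of_le hVr]
    · intro u hu h0
      refine hnd _ hu ?_
      intro h1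
      exact h0 (coeL_inj (h1.trans (map_zero _).symm))
    · refine iSup_le fun u => iSup_le fun hu => iSup_le fun hu0 => ?_
      refine le_iSup_of_le (coeL d Ω u) (le_iSup_of_le hu (le_iSup_of_le ?_ ?_))
      · intro h1
        exact hu0 (coeL_inj (h1.trans (map_zero _).symm))
      · rw [rel_energy h (show ContMDiff (𝓡∂ (d + 1)) 𝓘(ℝ, ℝ) ∞ (coeL d Ω u) from u.contMDiff)]
        exact le_rfl

theorem rel_nsigma {g : RMetric d Ω} {G : Ω → EE d → St.Mat (d + 1)} (h : Rel g G) (k : ℕ)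
    (μ ν : Measure Ω) : St.nsigma k G μ ν = nsigma k g μ ν := by
  unfold St.nsigma nsigma
  rw [rel_sigma h]

theorem rel_confSup [BorelSpace Ω] {g : RMetric d Ω} {G : Ω → EE d → St.Mat (d + 1)} (h : Rel g G)
    (k : ℕ) : St.confSup k G = confSup k g := by
  unfold St.confSup confSup
  apply le_antisymm
  · refine iSup_le fun G' => iSup_le fun μ => iSup_le fun ν => iSup_le fun hG' =>
      iSup_le fun hc => iSup_le fun hμ => iSup_le fun hν => ?_
    obtain ⟨f, hf, hf0, hcf⟩ := hc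
    have hrel : Rel (conf g (mkPos f hf hf0)) G' := conf_rel h hcf
    refine le_iSup_of_le (mkPos f hf hf0) (le_iSup_of_le μ (le_iSup_of_le ν
      (le_iSup_of_le ((rel_isVolume hrel).1 hμ) (le_iSup_of_le ((rel_isBdryVolume hrel).1 hν) ?_))))
    rw [rel_nsigma hrel]
  · refine iSup_le fun f => iSup_le fun μ => iSup_le fun ν => iSup_le fun hμ => iSup_le fun hν => ?_
    have hrel := toG_rel (conf g f)
    refine le_iSup_of_le _ (le_iSup_of_le μ (le_iSup_of_le ν (le_iSup_of_le (toG_isMetric (conf g f))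
      (le_iSup_of_le ?_ (le_iSup_of_le ((rel_isVolume hrel).2 hμ)
        (le_iSup_of_le ((rel_isBdryVolume hrel).2 hν) ?_))))))
    · refine ⟨f.1, f.1.contMDiff, f.2, ?_⟩
      intro c y hy
      have := h c y hy
      rw [this]
      exact gram_conf g f c _
    · rw [rel_nsigma hrel]

end Pool.Agent.W545.Man
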