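import Mathlib
import Pool.Agent.W545.Man.SigmaOne
import Pool.Agent.W545.Man.Conf
set_option autoImplicit false
open Set Filter Topology MeasureTheory Metric
open scoped ENNReal Manifold ContDiff

/-! The boundary of the manifold, its measure, and the functions which single it out. -/

namespace Pool.Agent.W545.Man

variable {d : ℕ} {Ω : Type*} [TopologicalSpace Ω] [ChartedSpace (EuclideanHalfSpace (d + 1)) Ω]
  [IsManifold (𝓡∂ (d + 1)) ∞ Ω]

/-- the boundary -/
def bd (d : ℕ) (Ω : Type*) [TopologicalSpace Ω] [ChartedSpace (EuclideanHalfSpace (d + 1)) Ω] :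
    Set Ω := (𝓡∂ (d + 1)).boundary Ω

theorem bd_closed : IsClosed (bd d Ω) :=
  ModelWithCorners.isClosed_boundary (I := 𝓡∂ (d + 1)) (M := Ω) (n := ∞) (by simp)

theorem mem_bd_iff {c x : Ω} (hx : x ∈ (ph d c).source) : x ∈ bd d Ω ↔ (ph d c x) 0 = 0 := by
  have hx' : x ∈ (chartAt (EuclideanHalfSpace (d + 1)) c).source := by
    rwa [extChartAt_source] at hx
  have h1 : x ∉ bd d Ω ↔ ph d c x ∈ interior (ph d c).target := by
    have := ModelWithCorners.isInteriorPoint_iff_of_mem_atlas (I := 𝓡∂ (d + 1)) (n := ∞)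
      (by simp) (chart_mem_atlas (EuclideanHalfSpace (d + 1)) c) hx'
    rw [ModelWithCorners.isInteriorPoint_iff_not_isBoundaryPoint] at this
    exact this
  have h2 : ph d c x ∈ interior (ph d c).target ↔ 0 < (ph d c x) 0 := by
    constructor
    · intro h
      have := OpenPartialHomeomorph.interior_extend_target_subset_interior_range _ h
      rw [interior_range_modelWithCornersEuclideanHalfSpace] at this
      exact this
    · intro h
      refine (chartAt (EuclideanHalfSpace (d + 1)) c).mem_interior_extend_target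
        ((chartAt (EuclideanHalfSpace (d + 1)) c).map_source hx') ?_
      rw [interior_range_modelWithCornersEuclideanHalfSpace]
      exact h
  have h3 := ph_coord_nonneg (d := d) c x
  constructor
  · intro h
    by_contra hcon
    exact h1.2 (h2.2 (lt_of_le_of_ne h3 (Ne.symm hcon))) h
  · intro h
    by_contra hcon
    have := h2.1 (h1.1 hcon)
    linarith

theorem hyper_null : volume {y : EE d | y 0 = 0} = 0 := by
  have h := Measure.addHaar_submodule (volume : Measure (EE d))
    (LinearMap.ker (EuclideanSpace.proj (𝕜 := ℝ) (0 : Fin (d + 1))).toLinearMap) (by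
      intro htop
      have : (EuclideanSpace.single 0 1 : EE d) ∈
          LinearMap.ker (EuclideanSpace.proj (𝕜 := ℝ) (0 : Fin (d + 1))).toLinearMap := by
        rw [htop]; trivial
      rw [LinearMap.mem_ker] at this
      simp at this)
  have e : {y : EE d | y 0 = 0} =
      (LinearMap.ker (EuclideanSpace.proj (𝕜 := ℝ) (0 : Fin (d + 1))).toLinearMap : Set (EE d)) := by
    ext y
    rw [SetLike.mem_coe, LinearMap.mem_ker]
    rfl
  rw [e]
  exact h

variable [MeasurableSpace Ω] [BorelSpace Ω]

/-- the boundary is a null set for the volume -/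
theorem vol_bd [CompactSpace Ω] {g : RMetric d Ω} {μ : Measure Ω} (hμ : IsVolume g μ) :
    μ (bd d Ω) = 0 := by
  have hm : MeasurableSet {y : EE d | y 0 = 0} := by
    have : Continuous fun y : EE d => y 0 := by fun_prop
    exact (isClosed_eq this continuous_const).measurableSet
  have key : ∀ c : Ω, μ ((chartAt (EuclideanHalfSpace (d + 1)) c).source ∩ bd d Ω) = 0 := by
    intro c
    have h1 := hμ c ({y : EE d | y 0 = 0}.indicator 1) (measurable_one.indicator hm)
    have e2 : ∫⁻ y in (extChartAt (𝓡∂ (d + 1)) c).target, {y : EE d | y 0 = 0}.indicator 1 y *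
        ENNReal.ofReal (√(gram g c ((extChartAt (𝓡∂ (d + 1)) c).symm y)).det) = 0 := by
      have : (fun y => {y : EE d | y 0 = 0}.indicator 1 y *
        ENNReal.ofReal (√(gram g c ((extChartAt (𝓡∂ (d + 1)) c).symm y)).det)) =ᵐ[
          volume.restrict (extChartAt (𝓡∂ (d + 1)) c).target] 0 := by
        apply ae_restrict_of_ae
        have h0 : ∀ᵐ y : EE d, y ∉ {y : EE d | y 0 = 0} := by
          rw [ae_iff]
          simpa using hyper_null (d := d)
        filter_upwards [h0] with y hy
        rw [indicator_of_notMem (show y ∉ {y : EE d | y 0 = 0} from hy)]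
        simp
      rw [lintegral_congr_ae this]
      simp
    rw [e2] at h1
    have e1 : ∫⁻ x in (chartAt (EuclideanHalfSpace (d + 1)) c).source,
        {y : EE d | y 0 = 0}.indicator 1 (extChartAt (𝓡∂ (d + 1)) c x) ∂μ =
        ∫⁻ x in (chartAt (EuclideanHalfSpace (d + 1)) c).source, (bd d Ω).indicator 1 x ∂μ := by
      apply setLIntegral_congr_fun
        (chartAt (EuclideanHalfSpace (d + 1)) c).open_source.measurableSet
      intro x hx
      rw [← extChartAt_source (𝓡∂ (d + 1))] at hx
      simp only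
      by_cases h : x ∈ bd d Ω
      · rw [indicator_of_mem h, indicator_of_mem (show ph d c x ∈ {y : EE d | y 0 = 0} from
          (mem_bd_iff hx).1 h)]
        rfl
      · rw [indicator_of_notMem h, indicator_of_notMem (show ph d c x ∉ {y : EE d | y 0 = 0} from
          fun h' => h ((mem_bd_iff hx).2 h'))]
    rw [e1, lintegral_indicator_one bd_closed.measurableSet,
      Measure.restrict_apply bd_closed.measurableSet, inter_comm] at h1
    exact h1
  obtain ⟨t, ht⟩ := isCompact_univ.elim_finite_subcover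
    (fun c : Ω => (chartAt (EuclideanHalfSpace (d + 1)) c).source)
    (fun c => (chartAt (EuclideanHalfSpace (d + 1)) c).open_source)
    (fun x _ => mem_iUnion.2 ⟨x, mem_chart_source _ x⟩)
  have hsub : bd d Ω ⊆ ⋃ c ∈ t, ((chartAt (EuclideanHalfSpace (d + 1)) c).source ∩ bd d Ω) := by
    intro x hx
    obtain ⟨i, hi, hxi⟩ := mem_iUnion₂.1 (ht (mem_univ x))
    exact mem_iUnion₂.2 ⟨i, hi, hxi, hx⟩
  exact measure_mono_null hsub ((measure_biUnion_null_iff t.countable_toSet).2 fun c _ => key c)

/-- the boundary measure is carried by the boundary -/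
theorem bvol_compl [CompactSpace Ω] {g : RMetric d Ω} {ν : Measure Ω} (hν : IsBdryVolume g ν) :
    ν (bd d Ω)ᶜ = 0 := by
  have hm : MeasurableSet {y : EE d | y 0 ≠ 0} := by
    have : Continuous fun y : EE d => y 0 := by fun_prop
    exact (isClosed_eq this continuous_const).measurableSet.compl
  have key : ∀ c : Ω, ν ((chartAt (EuclideanHalfSpace (d + 1)) c).source ∩ (bd d Ω)ᶜ) = 0 := by
    intro c
    have h1 := hν c ({y : EE d | y 0 ≠ 0}.indicator 1) (measurable_one.indicator hm)
    have e2 : ∫⁻ z in {z : FF d | inj z ∈ (extChartAt (𝓡∂ (d + 1)) c).target},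
        {y : EE d | y 0 ≠ 0}.indicator 1 (inj z) *
        ENNReal.ofReal (√(bgram g c ((extChartAt (𝓡∂ (d + 1)) c).symm (inj z))).det) = 0 := by
      have : ∀ z : FF d, {y : EE d | y 0 ≠ 0}.indicator 1 (inj z) *
        ENNReal.ofReal (√(bgram g c ((extChartAt (𝓡∂ (d + 1)) c).symm (inj z))).det) = 0 := by
        intro z
        rw [indicator_of_notMem (show inj z ∉ {y : EE d | y 0 ≠ 0} from fun h => h rfl), zero_mul]
      simp only [this]
      simp
    rw [e2] at h1
    have e1 : ∫⁻ x in (chartAt (EuclideanHalfSpace (d + 1)) c).source,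
        {y : EE d | y 0 ≠ 0}.indicator 1 (extChartAt (𝓡∂ (d + 1)) c x) ∂ν =
        ∫⁻ x in (chartAt (EuclideanHalfSpace (d + 1)) c).source, (bd d Ω)ᶜ.indicator 1 x ∂ν := by
      apply setLIntegral_congr_fun
        (chartAt (EuclideanHalfSpace (d + 1)) c).open_source.measurableSet
      intro x hx
      rw [← extChartAt_source (𝓡∂ (d + 1))] at hx
      simp only
      by_cases h : x ∈ bd d Ω
      · rw [indicator_of_notMem (show x ∉ (bd d Ω)ᶜ from fun h' => h' h), indicator_of_notMem
          (show ph d c x ∉ {y : EE d | y 0 ≠ 0} from fun h' => h' ((mem_bd_iff hx).1 h))]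
      · rw [indicator_of_mem (show x ∈ (bd d Ω)ᶜ from h), indicator_of_mem
          (show ph d c x ∈ {y : EE d | y 0 ≠ 0} from fun h' => h ((mem_bd_iff hx).2 h'))]
        rfl
    rw [e1, lintegral_indicator_one bd_closed.measurableSet.compl,
      Measure.restrict_apply bd_closed.measurableSet.compl, inter_comm] at h1
    exact h1
  obtain ⟨t, ht⟩ := isCompact_univ.elim_finite_subcover
    (fun c : Ω => (chartAt (EuclideanHalfSpace (d + 1)) c).source)
    (fun c => (chartAt (EuclideanHalfSpace (d + 1)) c).open_source)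
    (fun x _ => mem_iUnion.2 ⟨x, mem_chart_source _ x⟩)
  have hsub : (bd d Ω)ᶜ ⊆ ⋃ c ∈ t, ((chartAt (EuclideanHalfSpace (d + 1)) c).source ∩ (bd d Ω)ᶜ) := by
    intro x hx
    obtain ⟨i, hi, hxi⟩ := mem_iUnion₂.1 (ht (mem_univ x))
    exact mem_iUnion₂.2 ⟨i, hi, hxi, hx⟩
  exact measure_mono_null hsub ((measure_biUnion_null_iff t.countable_toSet).2 fun c _ => key c)

/-- a smooth cutoff which is `1` on the boundary and vanishes outside a set of small volume -/
theorem exists_cut [CompactSpace Ω] [T2Space Ω] {g : RMetric d Ω} {μ : Measure Ω}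
    (hμ : IsVolume g μ) {δ : ℝ≥0∞} (hδ : 0 < δ) : ∃ χ : Ω → ℝ,
    ContMDiff (𝓡∂ (d + 1)) 𝓘(ℝ, ℝ) ∞ χ ∧ (∀ x, 0 ≤ χ x) ∧ (∀ x, χ x ≤ 1) ∧
    (∀ x ∈ bd d Ω, χ x = 1) ∧ ∃ O : Set Ω, MeasurableSet O ∧ μ O < δ ∧ ∀ x ∉ O, χ x = 0 := by
  obtain ⟨ρ, hρ, hr, h0, -⟩ := exists_contMDiff_zero_iff_one_iff_of_isClosed (𝓡∂ (d + 1))
    (n := ⊤) (bd_closed (d := d) (Ω := Ω)) isClosed_empty (disjoint_empty _)
  have hρ0 : ∀ x, 0 ≤ ρ x := fun x => (hr (mem_range_self x)).1
  have hfin := vol_locFin hμ
  have hlim : Tendsto (fun n : ℕ => μ {x | ρ x ≤ 1 / ((n : ℝ) + 1)}) atTop (𝓝 0) := by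
    have h1 := tendsto_measure_iInter_atTop (μ := μ) (s := fun n : ℕ => {x | ρ x ≤ 1 / ((n : ℝ) + 1)})
      (fun n => (isClosed_le hρ.continuous continuous_const).measurableSet.nullMeasurableSet)
      (by
        intro m n hmn x hx
        refine le_trans (show ρ x ≤ 1 / ((n : ℝ) + 1) from hx) ?_
        exact one_div_le_one_div_of_le (by positivity) (by simpa using hmn))
      ⟨0, measure_ne_top _ _⟩
    have h2 : ⋂ n : ℕ, {x | ρ x ≤ 1 / ((n : ℝ) + 1)} = bd d Ω := by
      ext x
      rw [mem_iInter, h0]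
      constructor
      · intro h
        apply le_antisymm _ (hρ0 x)
        exact ge_of_tendsto' tendsto_one_div_add_atTop_nhds_zero_nat h
      · intro h n
        show ρ x ≤ _
        rw [h]
        positivity
    rw [h2, vol_bd hμ] at h1
    exact h1
  obtain ⟨n, hn⟩ := (hlim.eventually (gt_mem_nhds hδ)).exists
  refine ⟨fun x => 1 - Real.smoothTransition (((n : ℝ) + 1) * ρ x), ?_, ?_, ?_, ?_,
    {x | ρ x ≤ 1 / ((n : ℝ) + 1)}, (isClosed_le hρ.continuous continuous_const).measurableSet,
    hn, ?_⟩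
  · apply ContMDiff.sub contMDiff_const
    have h1 : ContMDiff 𝓘(ℝ, ℝ) 𝓘(ℝ, ℝ) ∞ fun t : ℝ => Real.smoothTransition (((n : ℝ) + 1) * t) :=
      (Real.smoothTransition.contDiff.comp (contDiff_const.mul contDiff_id)).contMDiff
    exact h1.comp hρ
  · intro x
    have := Real.smoothTransition.le_one (((n : ℝ) + 1) * ρ x)
    simp only
    linarith
  · intro x
    have := Real.smoothTransition.nonneg (((n : ℝ) + 1) * ρ x)
    simp only
    linarith
  · intro x hx
    simp only
    rw [(h0 x).1 hx, mul_zero, Real.smoothTransition.zero, sub_zero]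
  · intro x hx
    simp only
    have : 1 / ((n : ℝ) + 1) < ρ x := not_le.1 hx
    rw [Real.smoothTransition.one_of_one_le, sub_self]
    rw [div_lt_iff₀ (by positivity)] at this
    linarith

end Pool.Agent.W545.Man
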