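import Mathlib
import Pool.Agent.W545.Man.Bdry
set_option autoImplicit false
open Set Filter Topology MeasureTheory Metric
open scoped ENNReal Manifold ContDiff

/-! Small half balls at a boundary point. -/

namespace Pool.Agent.W545.Man

variable {d : ℕ} {Ω : Type*} [TopologicalSpace Ω] [ChartedSpace (EuclideanHalfSpace (d + 1)) Ω]
  [IsManifold (𝓡∂ (d + 1)) ∞ Ω]

/-- coordinate half ball of radius `r` about the boundary point `q` -/
noncomputable def Ub (d : ℕ) {Ω : Type*} [TopologicalSpace Ω]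
    [ChartedSpace (EuclideanHalfSpace (d + 1)) Ω] (q : Ω) (r : ℝ) : Set Ω :=
  UK d q (HB (tailL d (ph d q q)) r)

theorem inj_tail_bd {q : Ω} (hq : q ∈ bd d Ω) : inj (tailL d (ph d q q)) = ph d q q := by
  have h0 := (mem_bd_iff (mem_extChartAt_source q)).1 hq
  ext i
  refine Fin.cases ?_ (fun j => ?_) i
  · rw [inj_zero_coord]; exact h0.symm
  · rfl

theorem HB_eq_bd {q : Ω} (hq : q ∈ bd d Ω) (r : ℝ) : HB (tailL d (ph d q q)) r =
    closedBall (ph d q q) r ∩ range (𝓡∂ (d + 1)) := by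
  unfold HB
  rw [inj_tail_bd hq, range_modelWithCornersEuclideanHalfSpace]

theorem HB_mono (x0 : FF d) {r s : ℝ} (h : r ≤ s) : HB x0 r ⊆ HB x0 s :=
  inter_subset_inter_left _ (closedBall_subset_closedBall h)

variable [MeasurableSpace Ω] [BorelSpace Ω] [T2Space Ω]

theorem bd_data (g : RMetric d Ω) {q : Ω} (hq : q ∈ bd d Ω) : ∃ R0 C1 m1 m2 : ℝ, 0 < R0 ∧ 0 < C1 ∧
    0 < m1 ∧ 0 < m2 ∧ closedBall (ph d q q) R0 ∩ range (𝓡∂ (d + 1)) ⊆ (ph d q).target ∧
    ∀ μ ν : Measure Ω, IsVolume g μ → IsBdryVolume g ν → ∀ r : ℝ, 0 < r → r ≤ R0 →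
      (∀ u : Ω → ℝ, ContMDiff (𝓡∂ (d + 1)) 𝓘(ℝ, ℝ) ∞ u → ∃ c : ℝ,
        ∫⁻ x in Ub d q r, sq (u x - c) ∂ν ≤
          ENNReal.ofReal (C1 * r) * ∫⁻ x in Ub d q r, gradSq g u x ∂μ) ∧
      ENNReal.ofReal (m1 * r ^ d) ≤ ν (Ub d q r) ∧ μ (Ub d q r) ≤ ENNReal.ofReal (m2 * r ^ (d + 1)) := by
  obtain ⟨f⟩ : Nonempty (SmoothBumpFunction (𝓡∂ (d + 1)) q) := inferInstance
  have hsub := f.closedBall_subset
  have hK : HB (tailL d (ph d q q)) f.rOut ⊆ (ph d q).target := by
    rw [HB_eq_bd hq]; exact hsub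
  have hKc := HB_compact (tailL d (ph d q q)) f.rOut
  obtain ⟨a1, b1, ha1, hb1, h1⟩ := vol_bounds g q hK hKc
  obtain ⟨a2, b2, ha2, hb2, h2⟩ := bvol_bounds g q hK hKc
  obtain ⟨a, ha, h3⟩ := energy_lower g q hK hKc
  have hvF : 0 < (volume (ball (0 : FF d) 1)).toReal :=
    ENNReal.toReal_pos (measure_ball_pos _ _ one_pos).ne' measure_ball_lt_top.ne
  have hvE : 0 < (volume (ball (0 : EE d) 1)).toReal :=
    ENNReal.toReal_pos (measure_ball_pos _ _ one_pos).ne' measure_ball_lt_top.ne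
  refine ⟨f.rOut, b2 * (CT d).toReal * a⁻¹ + 1, a2 * (volume (ball (0 : FF d) 1)).toReal,
    b1 * (volume (ball (0 : EE d) 1)).toReal, f.rOut_pos, ?_, by positivity, by positivity, hsub, ?_⟩
  · have : 0 ≤ (CT d).toReal := ENNReal.toReal_nonneg
    positivity
  intro μ ν hμ hν r hr hrR
  have hKK := HB_mono (tailL d (ph d q q)) hrR
  have hKr := HB_compact (tailL d (ph d q q)) r
  have hset : {x : FF d | inj x ∈ HB (tailL d (ph d q q)) r} = closedBall (tailL d (ph d q q)) r := by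
    ext x; exact inj_mem_HB
  refine ⟨?_, ?_, ?_⟩
  · intro u hu
    have hwc : ContinuousOn (loc d q u) (HB (tailL d (ph d q q)) r) :=
      (loc_contDiff hu q).continuousOn.mono (hKK.trans hK)
    have hL := (Dloc_cont hu q).mono (hKK.trans hK)
    obtain ⟨c, hc⟩ := trace_scale hr hL (fun y hy => (Dloc_has hu (hK (hKK hy))).mono (by
      rw [HB_eq_bd hq]; exact inter_subset_right)) hwc
    refine ⟨c, ?_⟩
    have hcont : ContinuousOn (fun y => sq (loc d q u y - c)) (HB (tailL d (ph d q q)) r) := by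
      unfold sq
      exact ENNReal.continuous_ofReal.comp_continuousOn ((hwc.sub continuousOn_const).pow 2)
    have e2 := (h2 ν hν _ hKK hKr (fun x => sq (u x - c)) _ hcont (by
      intro x hx
      rw [loc_val hx.1])).2
    rw [hset] at e2
    have e3 := h3 μ hμ _ hKK hKr u hu
    have e4 : ∫⁻ y in HB (tailL d (ph d q q)) r, sq ‖Dloc d q u y‖ ≤
        (ENNReal.ofReal a)⁻¹ * ∫⁻ x in Ub d q r, gradSq g u x ∂μ :=
      le_inv_mul' (by rw [Ne, ENNReal.ofReal_eq_zero, not_le]; exact ha) ENNReal.ofReal_ne_top e3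
    calc ∫⁻ x in Ub d q r, sq (u x - c) ∂ν ≤ ENNReal.ofReal b2 *
          ∫⁻ z in closedBall (tailL d (ph d q q)) r, sq (loc d q u (inj z) - c) := e2
      _ ≤ ENNReal.ofReal b2 * (CT d * ENNReal.ofReal r * ((ENNReal.ofReal a)⁻¹ *
          ∫⁻ x in Ub d q r, gradSq g u x ∂μ)) := by
          gcongr
          exact hc.trans (by gcongr)
      _ = (ENNReal.ofReal b2 * CT d * (ENNReal.ofReal a)⁻¹ * ENNReal.ofReal r) *
          ∫⁻ x in Ub d q r, gradSq g u x ∂μ := by ring
      _ ≤ _ := by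
          gcongr
          rw [← ENNReal.ofReal_toReal (CT_ne_top d), ← ENNReal.ofReal_inv_of_pos ha,
            ← ENNReal.ofReal_mul hb2.le, ← ENNReal.ofReal_mul (by positivity),
            ← ENNReal.ofReal_mul (by positivity)]
          apply ENNReal.ofReal_le_ofReal
          rw [ENNReal.toReal_ofReal ENNReal.toReal_nonneg]
          nlinarith
  · have e2 := (h2 ν hν _ hKK hKr (fun _ => 1) (fun _ => 1) continuousOn_const (fun _ _ => rfl)).1
    rw [hset, setLIntegral_one, setLIntegral_one, Measure.addHaar_closedBall _ _ hr.le,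
      finrank_euclideanSpace_fin] at e2
    refine le_trans (le_of_eq ?_) e2
    rw [← ENNReal.ofReal_toReal (measure_ball_lt_top (μ := volume) (x := (0 : FF d)) (r := 1)).ne,
      ← ENNReal.ofReal_mul (by positivity), ← ENNReal.ofReal_mul ha2.le,
      ENNReal.toReal_ofReal ENNReal.toReal_nonneg]
    congr 1
    ring
  · have e2 := (h1 μ hμ _ hKK hKr (fun _ => 1) (fun _ => 1) continuousOn_const (fun _ _ => rfl)).2
    rw [setLIntegral_one, setLIntegral_one] at e2
    refine e2.trans ?_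
    have : volume (HB (tailL d (ph d q q)) r) ≤ volume (closedBall (inj (tailL d (ph d q q))) r) :=
      measure_mono inter_subset_left
    rw [Measure.addHaar_closedBall _ _ hr.le, finrank_euclideanSpace_fin] at this
    calc ENNReal.ofReal b1 * volume (HB (tailL d (ph d q q)) r) ≤ ENNReal.ofReal b1 *
        (ENNReal.ofReal (r ^ (d + 1)) * volume (ball (0 : EE d) 1)) := by gcongr
      _ = _ := by
        rw [← ENNReal.ofReal_toReal (measure_ball_lt_top (μ := volume) (x := (0 : EE d)) (r := 1)).ne,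
          ← ENNReal.ofReal_mul (by positivity), ← ENNReal.ofReal_mul hb1.le,
          ENNReal.toReal_ofReal ENNReal.toReal_nonneg]
        congr 1
        ring

/-- bumps at a boundary point -/
theorem exists_bump {q : Ω} (hq : q ∈ bd d Ω) {r R : ℝ} (hr : 0 < r) (hrR : r < R)
    (hR : closedBall (ph d q q) R ∩ range (𝓡∂ (d + 1)) ⊆ (ph d q).target) : ∃ ψ : Ω → ℝ,
    ContMDiff (𝓡∂ (d + 1)) 𝓘(ℝ, ℝ) ∞ ψ ∧ (∀ x, 0 ≤ ψ x) ∧ (∀ x, ψ x ≤ 1) ∧
    (∀ x ∈ Ub d q r, ψ x = 1) ∧ ∀ x ∉ Ub d q R, ψ x = 0 := by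
  let f : SmoothBumpFunction (𝓡∂ (d + 1)) q :=
    { rIn := r, rOut := R, rIn_pos := hr, rIn_lt_rOut := hrR, closedBall_subset := hR }
  refine ⟨f, f.contMDiff, fun x => f.nonneg, fun x => f.le_one, ?_, ?_⟩
  · rintro x ⟨h1, h2⟩
    rw [mem_preimage, HB_eq_bd hq] at h2
    rw [extChartAt_source] at h1
    exact f.one_of_dist_le h1 h2.1
  · intro x hx
    by_contra hcon
    have : x ∈ Function.support f := hcon
    rw [f.support_eq_inter_preimage] at this
    apply hx
    refine ⟨by rw [extChartAt_source]; exact this.1, ?_⟩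
    rw [mem_preimage, HB_eq_bd hq]
    exact ⟨ball_subset_closedBall this.2, mem_range_self _⟩

end Pool.Agent.W545.Man
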