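import Mathlib
import Pool.Agent.W545.Man.Bubble
set_option autoImplicit false
open Set Filter Topology MeasureTheory Metric
open scoped ENNReal Manifold ContDiff

/-! Superposition of a bubble at a boundary point. -/

namespace Pool.Agent.W545.Man

theorem pow_super {x y : ℝ} (hx : 0 ≤ x) (hy : 0 ≤ y) {n : ℕ} (hn : 1 ≤ n) :
    x ^ n + y ^ n ≤ (x + y) ^ n := by
  induction n, hn using Nat.le_induction with
  | base => simp
  | succ n hn ih =>
    rw [pow_succ (x + y)]
    have h1 : (x ^ n + y ^ n) * (x + y) ≤ (x + y) ^ n * (x + y) := by gcongr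
    have h2 : 0 ≤ x ^ n * y := by positivity
    have h3 : 0 ≤ y ^ n * x := by positivity
    calc x ^ (n + 1) + y ^ (n + 1) ≤ (x ^ n + y ^ n) * (x + y) := by
          rw [pow_succ, pow_succ]; nlinarith
      _ ≤ _ := h1

variable {d : ℕ} {Ω : Type*} [TopologicalSpace Ω] [ChartedSpace (EuclideanHalfSpace (d + 1)) Ω]
  [IsManifold (𝓡∂ (d + 1)) ∞ Ω] [MeasurableSpace Ω] [BorelSpace Ω] [T2Space Ω]

theorem Ub_meas {q : Ω} (hq : q ∈ bd d Ω) {r R : ℝ} (hrR : r ≤ R)
    (hR : closedBall (ph d q q) R ∩ range (𝓡∂ (d + 1)) ⊆ (ph d q).target) :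
    MeasurableSet (Ub d q r) := by
  apply UK_meas _ (HB_compact _ _)
  rw [HB_eq_bd hq]
  exact (inter_subset_inter_left _ (closedBall_subset_closedBall hrR)).trans hR

/-- one more dimension: the next eigenvalue after adding a bubble. `E1` is the gain of energy. -/
theorem next_sigma [CompactSpace Ω] (hd : 1 ≤ d) {g : RMetric d Ω} {μ ν : Measure Ω} [IsFiniteMeasure ν]
    {f0 f' : PosFun d Ω} {k : ℕ} {a lam : ℝ} (ha : 0 < a) (hlam : 0 < lam)
    (hk : ENNReal.ofReal a < sigma k (conf g f0)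
      (μ.withDensity fun x => ENNReal.ofReal (f0.1 x ^ (d + 1)))
      (ν.withDensity fun x => ENNReal.ofReal (f0.1 x ^ d)))
    {m : Ω → ℝ} (hm : Continuous m) (hm0 : ∀ x, 0 ≤ m x)
    (hB : ∀ᵐ x ∂ν, f'.1 x ^ d = lam * (f0.1 x ^ d + m x))
    {G : (Ω → ℝ) → ℝ≥0∞}
    (hE : ∀ u : Ω → ℝ, (∫⁻ x, ENNReal.ofReal (f0.1 x ^ (d - 1)) * gradSq g u x ∂μ) + G u ≤
      ∫⁻ x, ENNReal.ofReal (f'.1 x ^ (d - 1)) * gradSq g u x ∂μ)
    (hG : ∀ u : Ω → ℝ, ContMDiff (𝓡∂ (d + 1)) 𝓘(ℝ, ℝ) ∞ u → ∃ c : ℝ,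
      ENNReal.ofReal a * ∫⁻ x, ENNReal.ofReal (m x * (u x - c) ^ 2) ∂ν ≤ G u) :
    ENNReal.ofReal (a / lam) ≤ sigma (k + 1) (conf g f')
      (μ.withDensity fun x => ENNReal.ofReal (f'.1 x ^ (d + 1)))
      (ν.withDensity fun x => ENNReal.ofReal (f'.1 x ^ d)) := by
  unfold sigma
  refine le_iInf fun V => le_iInf fun hV => le_iInf fun hnd => ?_
  obtain ⟨W, hWV, hW, hl⟩ := exists_ker_sub (k := k + 1) hV (intL (d := d) ν m hm)
  have hWnd : ∀ u ∈ W, u ≠ 0 → bsq (ν.withDensity fun x => ENNReal.ofReal (f0.1 x ^ d)) u ≠ 0 := by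
    intro u hu hu0 h
    rw [bsq_conf_eq_zero f0 ν u.contMDiff.continuous] at h
    apply hnd u (hWV hu) hu0
    rwa [bsq_conf_eq_zero f' ν u.contMDiff.continuous]
  have h1 : ENNReal.ofReal a < ⨆ (u ∈ W) (_ : u ≠ 0), energy (conf g f0)
      (μ.withDensity fun x => ENNReal.ofReal (f0.1 x ^ (d + 1))) u /
        bsq (ν.withDensity fun x => ENNReal.ofReal (f0.1 x ^ d)) u := by
    refine hk.trans_le ?_
    unfold sigma
    exact iInf_le_of_le W (iInf_le_of_le hW (iInf_le_of_le hWnd le_rfl))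
  simp only [lt_iSup_iff] at h1
  obtain ⟨u, huW, hu0, hu⟩ := h1
  refine le_iSup_of_le u (le_iSup_of_le (hWV huW) (le_iSup_of_le hu0 ?_))
  have hbt : ∀ f : PosFun d Ω, bsq (ν.withDensity fun x => ENNReal.ofReal (f.1 x ^ d)) u ≠ ⊤ := by
    intro f
    rw [bsq_conf]
    exact (cont_integrable ν (f := fun x => f.1 x ^ d * u x ^ 2)
      ((f.cont.pow d).mul (u.contMDiff.continuous.pow 2))).lintegral_lt_top.ne
  have hb0 := hWnd u huW hu0
  have hb0' := hnd u (hWV huW) hu0
  rw [ENNReal.le_div_iff_mul_le (Or.inl hb0') (Or.inl (hbt f'))]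
  have h2 : ENNReal.ofReal a * bsq (ν.withDensity fun x => ENNReal.ofReal (f0.1 x ^ d)) u ≤
      energy (conf g f0) (μ.withDensity fun x => ENNReal.ofReal (f0.1 x ^ (d + 1))) u :=
    (ENNReal.le_div_iff_mul_le (Or.inl hb0) (Or.inl (hbt f0))).1 hu.le
  rw [energy_conf hd, bsq_conf] at h2
  rw [energy_conf hd, bsq_conf]
  obtain ⟨c, hc⟩ := hG u u.contMDiff
  have h3 := mean_zero_le ν hm hm0 u.contMDiff.continuous (hl u huW) c
  have h4 : ∫⁻ x, ENNReal.ofReal (f'.1 x ^ d * u x ^ 2) ∂ν = ENNReal.ofReal lam *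
      ((∫⁻ x, ENNReal.ofReal (f0.1 x ^ d * u x ^ 2) ∂ν) +
        ∫⁻ x, ENNReal.ofReal (m x * u x ^ 2) ∂ν) := by
    have hmeas : Measurable fun x => ENNReal.ofReal (f0.1 x ^ d * u x ^ 2) :=
      (ENNReal.continuous_ofReal.comp ((f0.cont.pow d).mul (u.contMDiff.continuous.pow 2))).measurable
    rw [← lintegral_add_left hmeas, ← lintegral_const_mul' _ _ ENNReal.ofReal_ne_top]
    apply lintegral_congr_ae
    filter_upwards [hB] with x hx
    rw [hx, ← ENNReal.ofReal_add (mul_nonneg (pow_nonneg (f0.2 x).le d) (sq_nonneg _))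
      (mul_nonneg (hm0 x) (sq_nonneg _)), ← ENNReal.ofReal_mul hlam.le]
    congr 1
    ring
  rw [h4, ← mul_assoc, ← ENNReal.ofReal_mul (by positivity), div_mul_cancel₀ _ hlam.ne', mul_add]
  refine le_trans (add_le_add h2 ?_) (hE u)
  exact le_trans (by gcongr) hc

theorem rpow_inv_pow {x : ℝ} (hx : 0 ≤ x) {n : ℕ} (hn : n ≠ 0) : (x ^ ((n : ℝ)⁻¹)) ^ n = x :=
  Real.rpow_inv_natCast_pow hx hn

/-- Superposition. The constants `c3`, `C6` do not depend on the conformal factor `f0`. -/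
theorem super [CompactSpace Ω] (hd : 2 ≤ d) (g : RMetric d Ω) {q : Ω} (hq : q ∈ bd d Ω) :
    ∃ c3 C6 : ℝ, 0 < c3 ∧ 0 < C6 ∧ ∀ μ ν : Measure Ω, IsVolume g μ → IsBdryVolume g ν →
    ∀ (f0 : PosFun d Ω) (k : ℕ) (a τ W N : ℝ), 0 < a → 0 < τ → 0 < W → 0 ≤ N →
      ENNReal.ofReal a < sigma k (conf g f0)
        (μ.withDensity fun x => ENNReal.ofReal (f0.1 x ^ (d + 1)))
        (ν.withDensity fun x => ENNReal.ofReal (f0.1 x ^ d)) →
      ∫⁻ x, ENNReal.ofReal (f0.1 x ^ (d + 1)) ∂μ = ENNReal.ofReal (W ^ (d + 1)) →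
      ∫⁻ x, ENNReal.ofReal (f0.1 x ^ d) ∂ν = ENNReal.ofReal N →
      ∃ (f' : PosFun d Ω) (lam : ℝ), 0 < lam ∧
        ENNReal.ofReal (a / lam) ≤ sigma (k + 1) (conf g f')
          (μ.withDensity fun x => ENNReal.ofReal (f'.1 x ^ (d + 1)))
          (ν.withDensity fun x => ENNReal.ofReal (f'.1 x ^ d)) ∧
        ENNReal.ofReal (lam * (N + c3 * (τ * W) ^ (d - 1) / a)) ≤
          ∫⁻ x, ENNReal.ofReal (f'.1 x ^ d) ∂ν ∧
        ∫⁻ x, ENNReal.ofReal (f'.1 x ^ (d + 1)) ∂μ ≤
          ENNReal.ofReal (W ^ (d + 1) * (1 + C6 * τ ^ (d + 1))) := by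
  obtain ⟨R0, C1, m1, m2, hR0, hC1, hm1, hm2, hR, H⟩ := bd_data g hq
  refine ⟨m1 / (4 ^ d * C1), 4 ^ (d + 1) * m2 + 1, by positivity, by positivity, ?_⟩
  intro μ ν hμ hν f0 k a τ W N ha hτ hW hN hk hVol hMass
  have hfμ := vol_locFin hμ
  have hfν := bvol_locFin hν
  have hne : Nonempty Ω := ⟨q⟩
  -- bounds of `f0`
  obtain ⟨xm, -, hxm⟩ := isCompact_univ.exists_isMinOn univ_nonempty f0.cont.continuousOn
  obtain ⟨xM, -, hxM⟩ := isCompact_univ.exists_isMaxOn univ_nonempty f0.cont.continuousOn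
  set m0 := f0.1 xm with hm0
  set M := f0.1 xM with hM
  have hm0p : 0 < m0 := f0.2 xm
  have hMp : 0 < M := f0.2 xM
  have hlow : ∀ x, m0 ≤ f0.1 x := fun x => hxm (mem_univ x)
  have hupp : ∀ x, f0.1 x ≤ M := fun x => hxM (mem_univ x)
  -- the radius
  set r := min (min (R0 / 2) 1) (min (τ * W / M) ((τ * W) ^ (d - 1) / (a * C1 * (2 * M) ^ d))) with hr
  have hr0 : 0 < r := by
    refine lt_min (lt_min (by linarith) one_pos) (lt_min (by positivity) (by positivity))
  have hr1 : r ≤ R0 / 2 := (min_le_left _ _).trans (min_le_left _ _)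
  have hr2 : r ≤ 1 := (min_le_left _ _).trans (min_le_right _ _)
  have hr3 : r ≤ τ * W / M := (min_le_right _ _).trans (min_le_left _ _)
  have hr4 : r ≤ (τ * W) ^ (d - 1) / (a * C1 * (2 * M) ^ d) := (min_le_right _ _).trans (min_le_right _ _)
  set A := τ * W / r with hA
  have hA0 : 0 < A := by positivity
  have hAr : A * r = τ * W := by rw [hA]; field_simp
  have hAM : M ≤ A := by
    rw [hA, le_div_iff₀ hr0]
    rw [le_div_iff₀ hMp] at hr3
    linarith
  have hd0 : (d : ℕ) ≠ 0 := by omega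
  set B := (A ^ (d - 1) / (a * C1 * r)) ^ ((d : ℝ)⁻¹) / 2 with hBdef
  have hB0 : 0 < B := by positivity
  have hB2 : (2 * B) ^ d = A ^ (d - 1) / (a * C1 * r) := by
    have e : 2 * B = (A ^ (d - 1) / (a * C1 * r)) ^ ((d : ℝ)⁻¹) := by rw [hBdef]; ring
    rw [e]
    exact Real.rpow_inv_natCast_pow (by positivity) hd0
  have hBM : M ≤ B := by
    have h1 : (2 * M) ^ d ≤ (2 * B) ^ d := by
      rw [hB2, le_div_iff₀ (by positivity), hA, div_pow, le_div_iff₀ (by positivity)]
      rw [le_div_iff₀ (by positivity)] at hr4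
      have h2 : r ^ (d - 1) ≤ 1 := pow_le_one₀ hr0.le hr2
      have h3 : 0 ≤ (2 * M) ^ d * (a * C1 * r) := by positivity
      calc (2 * M) ^ d * (a * C1 * r) * r ^ (d - 1) ≤ (2 * M) ^ d * (a * C1 * r) * 1 := by gcongr
        _ = r * (a * C1 * (2 * M) ^ d) := by ring
        _ ≤ _ := hr4
    have h2 := le_of_pow_le_pow_left₀ hd0 (by positivity) h1
    linarith
  -- the bumps
  have hRr : ∀ s, s ≤ R0 → closedBall (ph d q q) s ∩ range (𝓡∂ (d + 1)) ⊆ (ph d q).target :=
    fun s hs => (inter_subset_inter_left _ (closedBall_subset_closedBall hs)).trans hR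
  obtain ⟨ψ, hψ, hψ0, hψ1, hψin, hψout⟩ := exists_bump hq hr0 (by linarith : r < 2 * r)
    (hRr _ (by linarith))
  obtain ⟨η, hη, hη0, hη1, hηin, hηout⟩ := exists_bump hq (half_pos hr0) (half_lt_self hr0)
    (hRr _ (by linarith))
  set lam := 1 + A / m0 with hlam
  have hlam0 : 0 < lam := by positivity
  set K := lam * (M + B) with hK
  have hK0 : 0 < K := by positivity
  obtain ⟨χ, hχ, hχ0, hχ1, hχbd, O, hO, hμO, hχO⟩ := exists_cut hμ
    (δ := ENNReal.ofReal (τ ^ (d + 1) * W ^ (d + 1) / K ^ (d + 1))) (by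
      rw [ENNReal.ofReal_pos]; positivity)
  set F : Ω → ℝ := fun x => (1 - χ x) * (f0.1 x + A * ψ x) + χ x * (lam * (f0.1 x + B * η x)) with hF
  have hFs : ContMDiff (𝓡∂ (d + 1)) 𝓘(ℝ, ℝ) ∞ F := by
    have h0 := f0.1.contMDiff
    have c1 : ∀ t : ℝ, ContMDiff (𝓡∂ (d + 1)) 𝓘(ℝ, ℝ) ∞ fun _ : Ω => t := fun t => contMDiff_const
    exact (((c1 1).sub hχ).mul (h0.add ((c1 A).mul hψ))).add
      (hχ.mul ((c1 lam).mul (h0.add ((c1 B).mul hη))))
  have h12 : ∀ x, f0.1 x + A * ψ x ≤ lam * (f0.1 x + B * η x) := by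
    intro x
    have e1 : A * ψ x ≤ A := by nlinarith [hψ1 x]
    have e2 : A ≤ A / m0 * f0.1 x := by
      rw [div_mul_eq_mul_div, le_div_iff₀ hm0p]
      nlinarith [hlow x]
    have e3 : 0 ≤ lam * (B * η x) := mul_nonneg hlam0.le (mul_nonneg hB0.le (hη0 x))
    calc f0.1 x + A * ψ x ≤ f0.1 x + A / m0 * f0.1 x := by linarith
      _ = lam * f0.1 x := by rw [hlam]; ring
      _ ≤ _ := by rw [mul_add]; linarith
  have hF1 : ∀ x, f0.1 x + A * ψ x ≤ F x := by
    intro x
    have := mul_le_mul_of_nonneg_left (h12 x) (hχ0 x)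
    simp only [hF]
    linarith
  have hF2 : ∀ x, F x ≤ lam * (f0.1 x + B * η x) := by
    intro x
    have := mul_le_mul_of_nonneg_left (h12 x) (sub_nonneg.2 (hχ1 x))
    simp only [hF]
    linarith
  have hFK : ∀ x, F x ≤ K := by
    intro x
    refine (hF2 x).trans ?_
    rw [hK]
    have := hupp x
    have e1 : B * η x ≤ B := by nlinarith [hη1 x]
    gcongr
  have hf1 : ∀ x, f0.1 x ≤ F x := by
    intro x
    have := mul_nonneg hA0.le (hψ0 x)
    linarith [hF1 x]
  have hFpos : ∀ x, 0 < F x := fun x => (f0.2 x).trans_le (hf1 x)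
  have hUm : ∀ s, s ≤ R0 → MeasurableSet (Ub d q s) := fun s hs => Ub_meas hq hs hR
  set m : Ω → ℝ := fun x => (f0.1 x + B * η x) ^ d - f0.1 x ^ d with hmdef
  have hmc : Continuous m :=
    ((f0.cont.add (continuous_const.mul hη.continuous)).pow d).sub (f0.cont.pow d)
  have hm0' : ∀ x, 0 ≤ m x := by
    intro x
    have : f0.1 x ^ d ≤ (f0.1 x + B * η x) ^ d :=
      pow_le_pow_left₀ (f0.2 x).le (by nlinarith [mul_nonneg hB0.le (hη0 x)]) d
    simp only [hmdef]
    linarith
  have hbdν : ∀ᵐ x ∂ν, x ∈ bd d Ω := by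
    have := bvol_compl hν
    rw [ae_iff]
    exact this
  have hFB : ∀ᵐ x ∂ν, F x ^ d = lam ^ d * (f0.1 x ^ d + m x) := by
    filter_upwards [hbdν] with x hx
    have e1 : F x = lam * (f0.1 x + B * η x) := by
      simp only [hF]; rw [hχbd x hx]; ring
    rw [e1, mul_pow]
    simp only [hmdef]
    ring
  refine ⟨mkPos F hFs hFpos, lam ^ d, by positivity, ?_, ?_, ?_⟩
  · refine next_sigma (by omega) ha (by positivity) hk hmc hm0' hFB
      (G := fun u => ENNReal.ofReal (A ^ (d - 1)) * ∫⁻ x in Ub d q r, gradSq g u x ∂μ) ?_ ?_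
    · intro u
      rw [← lintegral_const_mul' _ _ ENNReal.ofReal_ne_top, ← lintegral_indicator (hUm r (by linarith))]
      refine (le_lintegral_add _ _).trans (lintegral_mono fun x => ?_)
      simp only
      by_cases hx : x ∈ Ub d q r
      · rw [indicator_of_mem hx, ← add_mul, ← ENNReal.ofReal_add (pow_nonneg (f0.2 x).le _) (by positivity)]
        gcongr
        have h1 := pow_super (f0.2 x).le hA0.le (n := d - 1) (by omega)
        refine h1.trans (pow_le_pow_left₀ (by linarith [f0.2 x]) ?_ _)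
        have := hF1 x
        rw [hψin x hx, mul_one] at this
        exact this
      · rw [indicator_of_notMem hx, add_zero]
        exact mul_le_mul_left (ENNReal.ofReal_le_ofReal
          (pow_le_pow_left₀ (f0.2 x).le (hf1 x) _)) _
    · intro u hu
      obtain ⟨c, hc⟩ := (H μ ν hμ hν r hr0 (by linarith)).1 u hu
      refine ⟨c, ?_⟩
      have h1 : ∫⁻ x, ENNReal.ofReal (m x * (u x - c) ^ 2) ∂ν ≤
          ENNReal.ofReal ((2 * B) ^ d) * ∫⁻ x in Ub d q r, sq (u x - c) ∂ν := by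
        rw [← lintegral_const_mul' _ _ ENNReal.ofReal_ne_top, ← lintegral_indicator (hUm r (by linarith))]
        apply lintegral_mono
        intro x
        simp only
        by_cases hx : x ∈ Ub d q r
        · rw [indicator_of_mem hx]
          unfold sq
          rw [← ENNReal.ofReal_mul (by positivity)]
          apply ENNReal.ofReal_le_ofReal
          apply mul_le_mul_of_nonneg_right _ (sq_nonneg _)
          have e1 : (f0.1 x + B * η x) ^ d ≤ (2 * B) ^ d := by
            apply pow_le_pow_left₀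
            · have := mul_nonneg hB0.le (hη0 x); linarith [f0.2 x]
            · have e1 : B * η x ≤ B := by nlinarith [hη1 x]
              linarith [hupp x]
          have e2 := pow_nonneg (f0.2 x).le d
          simp only [hmdef]
          linarith
        · rw [indicator_of_notMem hx, nonpos_iff_eq_zero, ENNReal.ofReal_eq_zero]
          simp only [hmdef]
          rw [hηout x hx, mul_zero, add_zero, sub_self, zero_mul]
      calc ENNReal.ofReal a * ∫⁻ x, ENNReal.ofReal (m x * (u x - c) ^ 2) ∂ν ≤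
          ENNReal.ofReal a * (ENNReal.ofReal ((2 * B) ^ d) * (ENNReal.ofReal (C1 * r) *
            ∫⁻ x in Ub d q r, gradSq g u x ∂μ)) := by
            gcongr
            exact h1.trans (by gcongr)
        _ = ENNReal.ofReal (a * ((2 * B) ^ d * (C1 * r))) * ∫⁻ x in Ub d q r, gradSq g u x ∂μ := by
            rw [ENNReal.ofReal_mul ha.le, ENNReal.ofReal_mul (show (0:ℝ) ≤ (2 * B) ^ d by positivity)]
            ring
        _ = _ := by
            rw [hB2]
            congr 2
            field_simp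
  · have h1 : ∫⁻ x, ENNReal.ofReal ((mkPos F hFs hFpos).1 x ^ d) ∂ν = ENNReal.ofReal (lam ^ d) *
        ((∫⁻ x, ENNReal.ofReal (f0.1 x ^ d) ∂ν) + ∫⁻ x, ENNReal.ofReal (m x) ∂ν) := by
      rw [← lintegral_add_left (wtM f0 d), ← lintegral_const_mul' _ _ ENNReal.ofReal_ne_top]
      apply lintegral_congr_ae
      filter_upwards [hFB] with x hx
      rw [mkPos_apply, hx, ← ENNReal.ofReal_add (pow_nonneg (f0.2 x).le d) (hm0' x),
        ← ENNReal.ofReal_mul (by positivity)]
    rw [h1, hMass, ENNReal.ofReal_mul (by positivity)]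
    gcongr
    rw [ENNReal.ofReal_add hN (by positivity)]
    gcongr
    have h2 : ENNReal.ofReal (B ^ d) * ν (Ub d q (r / 2)) ≤ ∫⁻ x, ENNReal.ofReal (m x) ∂ν := by
      rw [← setLIntegral_const, ← lintegral_indicator (hUm _ (by linarith))]
      apply lintegral_mono
      intro x
      simp only
      by_cases hx : x ∈ Ub d q (r / 2)
      · rw [indicator_of_mem hx]
        apply ENNReal.ofReal_le_ofReal
        have := pow_super (f0.2 x).le hB0.le (n := d) (by omega)
        simp only [hmdef]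
        rw [hηin x hx, mul_one]
        linarith
      · rw [indicator_of_notMem hx]
        exact zero_le
    refine le_trans ?_ h2
    have h3 := (H μ ν hμ hν (r / 2) (half_pos hr0) (by linarith)).2.1
    refine le_trans ?_ (mul_le_mul_right h3 _)
    rw [← ENNReal.ofReal_mul (by positivity)]
    apply ENNReal.ofReal_le_ofReal
    apply le_of_eq
    have e1 : B ^ d = A ^ (d - 1) / (a * C1 * r) / 2 ^ d := by
      rw [← hB2, mul_pow]; field_simp
    rw [e1, ← hAr, mul_pow, div_pow r 2 d]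
    have e2 : r ^ d = r ^ (d - 1) * r := by
      rw [← pow_succ]; congr 1; omega
    rw [e2, show (4 : ℝ) ^ d = 2 ^ d * 2 ^ d by rw [← mul_pow]; norm_num]
    field_simp
  · have h1 : ∫⁻ x, ENNReal.ofReal ((mkPos F hFs hFpos).1 x ^ (d + 1)) ∂μ ≤
        (∫⁻ x, ENNReal.ofReal (f0.1 x ^ (d + 1)) ∂μ) +
        ((ENNReal.ofReal ((2 * A) ^ (d + 1)) * μ (Ub d q (2 * r))) +
          ENNReal.ofReal (K ^ (d + 1)) * μ O) := by
      rw [← setLIntegral_const, ← setLIntegral_const, ← lintegral_indicator (hUm _ (by linarith)),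
        ← lintegral_indicator hO, ← lintegral_add_left (measurable_const.indicator (hUm _ (by linarith))),
        ← lintegral_add_left (wtM f0 _)]
      apply lintegral_mono
      intro x
      simp only [mkPos_apply]
      by_cases hxO : x ∈ O
      · rw [indicator_of_mem hxO]
        refine le_trans ?_ le_add_self
        refine le_trans ?_ le_add_self
        exact ENNReal.ofReal_le_ofReal (pow_le_pow_left₀ (hFpos x).le (hFK x) _)
      · rw [indicator_of_notMem hxO, add_zero]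
        have e1 : F x = f0.1 x + A * ψ x := by
          simp only [hF]; rw [hχO x hxO]; ring
        rw [e1]
        by_cases hx : x ∈ Ub d q (2 * r)
        · rw [indicator_of_mem hx]
          refine le_trans ?_ le_add_self
          apply ENNReal.ofReal_le_ofReal
          apply pow_le_pow_left₀
          · have := mul_nonneg hA0.le (hψ0 x); linarith [f0.2 x]
          · have e1 : A * ψ x ≤ A := by nlinarith [hψ1 x]
            linarith [hupp x]
        · rw [indicator_of_notMem hx, add_zero, hψout x hx, mul_zero, add_zero]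
    refine h1.trans ?_
    have h3 := (H μ ν hμ hν (2 * r) (by linarith) (by linarith)).2.2
    have h4 : ENNReal.ofReal ((2 * A) ^ (d + 1)) * μ (Ub d q (2 * r)) ≤
        ENNReal.ofReal (4 ^ (d + 1) * m2 * τ ^ (d + 1) * W ^ (d + 1)) := by
      calc ENNReal.ofReal ((2 * A) ^ (d + 1)) * μ (Ub d q (2 * r)) ≤
          ENNReal.ofReal ((2 * A) ^ (d + 1)) * ENNReal.ofReal (m2 * (2 * r) ^ (d + 1)) := by gcongr
        _ = ENNReal.ofReal ((2 * A) ^ (d + 1) * (m2 * (2 * r) ^ (d + 1))) := by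
            rw [ENNReal.ofReal_mul (show (0:ℝ) ≤ (2 * A) ^ (d + 1) by positivity)]
        _ = _ := by
            congr 1
            rw [show (2 * A) ^ (d + 1) * (m2 * (2 * r) ^ (d + 1)) =
              m2 * ((2 * 2) * (A * r)) ^ (d + 1) by rw [mul_pow, mul_pow, mul_pow, mul_pow, mul_pow]; ring,
              hAr, show (2 * 2 : ℝ) = 4 by norm_num, mul_pow, mul_pow]
            ring
    have h5 : ENNReal.ofReal (K ^ (d + 1)) * μ O ≤ ENNReal.ofReal (τ ^ (d + 1) * W ^ (d + 1)) := by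
      calc ENNReal.ofReal (K ^ (d + 1)) * μ O ≤ ENNReal.ofReal (K ^ (d + 1)) *
          ENNReal.ofReal (τ ^ (d + 1) * W ^ (d + 1) / K ^ (d + 1)) := by gcongr
        _ = ENNReal.ofReal (K ^ (d + 1) * (τ ^ (d + 1) * W ^ (d + 1) / K ^ (d + 1))) := by
            rw [ENNReal.ofReal_mul (show (0:ℝ) ≤ K ^ (d + 1) by positivity)]
        _ = _ := by
            congr 1
            field_simp
    calc _ ≤ ENNReal.ofReal (W ^ (d + 1)) +
          (ENNReal.ofReal (4 ^ (d + 1) * m2 * τ ^ (d + 1) * W ^ (d + 1)) +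
          ENNReal.ofReal (τ ^ (d + 1) * W ^ (d + 1))) := by
          rw [hVol]
          gcongr
      _ = _ := by
          rw [← ENNReal.ofReal_add (by positivity) (by positivity),
            ← ENNReal.ofReal_add (by positivity) (by positivity)]
          congr 1
          ring

end Pool.Agent.W545.Man
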