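import Mathlib
import Pool.Agent.W545.Man.Super
import Pool.Agent.W749.ST.Fin
set_option autoImplicit false
open Set Filter Topology MeasureTheory Metric
open scoped ENNReal Manifold ContDiff

/-! Strict monotonicity of the conformal Steklov eigenvalues in dimension at least 3. -/

namespace Pool.Agent.W545.Man

theorem rpow_anti {p : ℝ} (hp : p ≤ 0) {x y : ℝ≥0∞} (h : x ≤ y) : y ^ p ≤ x ^ p := by
  obtain ⟨t, rfl⟩ : ∃ t, p = -t := ⟨-p, by ring⟩
  rw [ENNReal.rpow_neg, ENNReal.rpow_neg]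
  exact ENNReal.inv_le_inv.2 (ENNReal.rpow_le_rpow h (by linarith))

variable {d : ℕ} {Ω : Type*} [TopologicalSpace Ω] [ChartedSpace (EuclideanHalfSpace (d + 1)) Ω]
  [IsManifold (𝓡∂ (d + 1)) ∞ Ω] [MeasurableSpace Ω] [BorelSpace Ω] [T2Space Ω]

omit [IsManifold (𝓡∂ (d + 1)) ∞ Ω] [BorelSpace Ω] [T2Space Ω] in
theorem sigma_mono [IsManifold (𝓡∂ (d + 1)) ∞ Ω] {j k : ℕ} (h : j ≤ k) (g : RMetric d Ω)
    (μ ν : Measure Ω) : sigma j g μ ν ≤ sigma k g μ ν := by
  unfold sigma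
  refine le_iInf fun V => le_iInf fun hV => le_iInf fun hnd => ?_
  have hfin : FiniteDimensional ℝ V := Module.finite_of_finrank_pos (by omega)
  obtain ⟨W, hWV, hW⟩ := exists_sub_finrank (W0 := V) (m := j + 1) (by omega)
  refine iInf_le_of_le W (iInf_le_of_le hW (iInf_le_of_le (fun u hu => hnd u (hWV hu)) ?_))
  exact iSup_le fun u => iSup_le fun hu => iSup_le fun hu0 =>
    le_iSup_of_le u (le_iSup_of_le (hWV hu) (le_iSup_of_le hu0 le_rfl))

theorem vol_univ [CompactSpace Ω] [Nonempty Ω] {g : RMetric d Ω} {μ : Measure Ω}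
    (hμ : IsVolume g μ) : μ univ ≠ 0 ∧ μ univ ≠ ⊤ := by
  have h1 := vol_locFin hμ
  have h2 := vol_openPos hμ
  exact ⟨isOpen_univ.measure_ne_zero μ univ_nonempty, measure_ne_top _ _⟩

theorem bvol_univ [CompactSpace Ω] {g : RMetric d Ω} {μ ν : Measure Ω} {q : Ω} (hq : q ∈ bd d Ω)
    (hμ : IsVolume g μ) (hν : IsBdryVolume g ν) : ν univ ≠ 0 ∧ ν univ ≠ ⊤ := by
  have h1 := bvol_locFin hν
  refine ⟨?_, measure_ne_top _ _⟩
  obtain ⟨R0, C1, m1, m2, hR0, hC1, hm1, hm2, hR, H⟩ := bd_data g hq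
  have h2 := (H μ ν hμ hν R0 hR0 le_rfl).2.1
  intro h0
  rw [measure_mono_null (subset_univ _) h0, nonpos_iff_eq_zero, ENNReal.ofReal_eq_zero] at h2
  have : 0 < m1 * R0 ^ d := by positivity
  linarith

theorem strict_mono [CompactSpace Ω] [ConnectedSpace Ω] (hd : 2 ≤ d) (g : RMetric d Ω)
    (hbd : (bd d Ω).Nonempty) {μ ν : Measure Ω} (hμ : IsVolume g μ) (hν : IsBdryVolume g ν)
    (k : ℕ) : confSup k g < confSup (k + 1) g := by
  obtain ⟨q, hq⟩ := hbd
  have hS : confSup k g ≠ ⊤ := Pool.Agent.W749.ST.confSup_ne_top hd g k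
  have hdR : (2 : ℝ) ≤ d := by exact_mod_cast hd
  set p : ℝ := (1 - (d : ℝ)) / (d + 1) with hp
  have hp0 : p ≤ 0 := by
    rw [hp]; apply div_nonpos_of_nonpos_of_nonneg <;> linarith
  have hp1 : -1 ≤ p := by
    rw [hp, le_div_iff₀ (by linarith)]; linarith
  by_contra hcon
  rw [not_lt] at hcon
  have hge : ∀ (j : ℕ) (f : PosFun d Ω) (μ' ν' : Measure Ω), IsVolume (conf g f) μ' →
      IsBdryVolume (conf g f) ν' → nsigma j (conf g f) μ' ν' ≤ confSup j g := by
    intro j f μ' ν' h1 h2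
    unfold confSup
    exact le_iSup_of_le f (le_iSup_of_le μ' (le_iSup_of_le ν' (le_iSup_of_le h1
      (le_iSup_of_le h2 le_rfl))))
  have hne : Nonempty Ω := ⟨q⟩
  by_cases hS0 : confSup k g = 0
  · -- the case of a vanishing supremum
    rw [hS0] at hcon
    let one : PosFun d Ω := mkPos (fun _ => 1) contMDiff_const fun _ => one_pos
    have h1 := hge (k + 1) one _ _ (isVolume_conf hμ one) (isBdryVolume_conf hν one)
    have h2 := le_antisymm (h1.trans hcon) zero_le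
    unfold nsigma at h2
    rw [mul_eq_zero, mul_eq_zero] at h2
    rcases h2 with (h2 | h2) | h2
    · have h3 := sigma_mono (show 1 ≤ k + 1 by omega) (conf g one)
        (μ.withDensity fun x => ENNReal.ofReal (one.1 x ^ (d + 1)))
        (ν.withDensity fun x => ENNReal.ofReal (one.1 x ^ d))
      rw [h2] at h3
      exact sigma_one_pos (isVolume_conf hμ one) (isBdryVolume_conf hν one)
        (nonpos_iff_eq_zero.1 h3)
    · rw [ENNReal.rpow_eq_zero_iff] at h2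
      have h3 := vol_univ (isVolume_conf hμ one)
      rcases h2 with h2 | h2
      · exact h3.1 h2.1
      · exact h3.2 h2.1
    · exact (bvol_univ hq (isVolume_conf hμ one) (isBdryVolume_conf hν one)).1 h2
  obtain ⟨c3, C6, hc3, hC6, H⟩ := super hd g hq
  set s := (confSup k g).toReal with hs
  have hs0 : 0 < s := ENNReal.toReal_pos hS0 hS
  have hsS : ENNReal.ofReal s = confSup k g := ENNReal.ofReal_toReal hS
  set τ := √(c3 / (2 * s * C6)) with hτ
  have hτ0 : 0 < τ := Real.sqrt_pos.2 (by positivity)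
  have hτ2 : τ ^ 2 = c3 / (2 * s * C6) := Real.sq_sqrt (by positivity)
  have hτd : s * C6 * τ ^ (d + 1) = c3 * τ ^ (d - 1) / 2 := by
    have e : τ ^ (d + 1) = τ ^ (d - 1) * τ ^ 2 := by
      rw [← pow_add]; congr 1; omega
    rw [e, hτ2]
    field_simp
  set D := 1 + C6 * τ ^ (d + 1) with hD
  have hD1 : 1 ≤ D := by
    have : 0 ≤ C6 * τ ^ (d + 1) := by positivity
    linarith
  obtain ⟨s', hs'1, hs'2⟩ : ∃ s', max 0 (s - c3 * τ ^ (d - 1) / 2) < s' ∧ s' < s := by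
    apply exists_between
    apply max_lt hs0
    have : 0 < c3 * τ ^ (d - 1) := by positivity
    linarith
  have hs'0 : 0 < s' := (le_max_left _ _).trans_lt hs'1
  have hs'3 : s - c3 * τ ^ (d - 1) / 2 < s' := (le_max_right _ _).trans_lt hs'1
  have h1 : ENNReal.ofReal s' < confSup k g := by
    rw [← hsS]
    exact (ENNReal.ofReal_lt_ofReal_iff hs0).2 hs'2
  unfold confSup at h1
  simp only [lt_iSup_iff] at h1
  obtain ⟨f0, μ0, ν0, hμ0, hν0, hlt⟩ := h1
  obtain ⟨μ1, hμ1, rfl⟩ := exists_bg hμ0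
  obtain ⟨ν1, hν1, rfl⟩ := exists_bg' hν0
  have hV := vol_univ hμ0
  have hN := bvol_univ hq hμ0 hν0
  rw [univ_wd] at hV hN
  unfold nsigma at hlt
  rw [univ_wd, univ_wd] at hlt
  set V := ∫⁻ x, ENNReal.ofReal (f0.1 x ^ (d + 1)) ∂μ1 with hVdef
  set N := ∫⁻ x, ENNReal.ofReal (f0.1 x ^ d) ∂ν1 with hNdef
  have hVr : 0 < V.toReal := ENNReal.toReal_pos hV.1 hV.2
  have hNr : 0 < N.toReal := ENNReal.toReal_pos hN.1 hN.2
  set W := V.toReal ^ (((d + 1 : ℕ) : ℝ)⁻¹) with hWdef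
  have hW0 : 0 < W := by positivity
  have hWV : W ^ (d + 1) = V.toReal := Real.rpow_inv_natCast_pow hVr.le (by omega)
  have hVW : V = ENNReal.ofReal (W ^ (d + 1)) := by
    rw [hWV, ENNReal.ofReal_toReal hV.2]
  have hNN : N = ENNReal.ofReal N.toReal := (ENNReal.ofReal_toReal hN.2).symm
  have hWp : (W ^ (d + 1)) ^ p = (W ^ (d - 1))⁻¹ := by
    rw [← Real.rpow_natCast W (d + 1), ← Real.rpow_mul hW0.le, ← Real.rpow_natCast W (d - 1),
      ← Real.rpow_neg hW0.le]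
    congr 1
    rw [hp, Nat.cast_sub (by omega)]
    push_cast
    field_simp
    ring
  have hcV : V ^ p * N = ENNReal.ofReal ((W ^ (d - 1))⁻¹ * N.toReal) := by
    rw [ENNReal.ofReal_mul (by positivity), ← hNN, hVW, ENNReal.ofReal_rpow_of_pos (by positivity),
      hWp]
  rw [mul_assoc, hcV] at hlt
  have hcpos : 0 < (W ^ (d - 1))⁻¹ * N.toReal := by positivity
  have hlt2 : ENNReal.ofReal s' / ENNReal.ofReal ((W ^ (d - 1))⁻¹ * N.toReal) <
      sigma k (conf g f0) (μ1.withDensity fun x => ENNReal.ofReal (f0.1 x ^ (d + 1)))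
        (ν1.withDensity fun x => ENNReal.ofReal (f0.1 x ^ d)) := by
    rw [ENNReal.div_lt_iff (Or.inl (by rw [Ne, ENNReal.ofReal_eq_zero, not_le]; exact hcpos))
      (Or.inl ENNReal.ofReal_ne_top)]
    exact hlt
  obtain ⟨a, ha1, ha2⟩ := ENNReal.lt_iff_exists_nnreal_btwn.1 hlt2
  have ha0 : (0 : ℝ) < a := by
    have : (0 : ℝ≥0∞) < a := zero_le.trans_lt ha1
    exact_mod_cast this
  have haE : (a : ℝ≥0∞) = ENNReal.ofReal (a : ℝ) := by rw [ENNReal.ofReal_coe_nnreal]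
  rw [haE] at ha1 ha2
  rw [← ENNReal.ofReal_div_of_pos hcpos, ENNReal.ofReal_lt_ofReal_iff ha0, div_lt_iff₀ hcpos] at ha1
  obtain ⟨f', lam, hlam, b1, b2, b3⟩ := H μ1 ν1 hμ1 hν1 f0 k a τ W N.toReal ha0 hτ0 hW0 hNr.le ha2
    hVW hNN
  have hfin := hge (k + 1) f' _ _ (isVolume_conf hμ1 f') (isBdryVolume_conf hν1 f')
  unfold nsigma at hfin
  rw [univ_wd, univ_wd] at hfin
  have h3 : ENNReal.ofReal (a / lam) * ENNReal.ofReal ((W ^ (d + 1) * D) ^ p) *
      ENNReal.ofReal (lam * (N.toReal + c3 * (τ * W) ^ (d - 1) / a)) ≤ ENNReal.ofReal s := by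
    rw [hsS]
    refine le_trans ?_ (hfin.trans hcon)
    gcongr
    rw [← ENNReal.ofReal_rpow_of_pos (by positivity)]
    exact rpow_anti hp0 b3
  rw [← ENNReal.ofReal_mul (by positivity), ← ENNReal.ofReal_mul (by positivity),
    ENNReal.ofReal_le_ofReal_iff hs0.le, Real.mul_rpow (by positivity) (by positivity), hWp] at h3
  have hDp : D⁻¹ ≤ D ^ p := by
    rw [← Real.rpow_neg_one]
    exact Real.rpow_le_rpow_of_exponent_le hD1 hp1
  have h4 : (s' + c3 * τ ^ (d - 1)) * D⁻¹ ≤ s := by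
    refine le_trans ?_ h3
    have e : (a / lam : ℝ) * ((W ^ (d - 1))⁻¹ * D ^ p) *
        (lam * (N.toReal + c3 * (τ * W) ^ (d - 1) / a)) =
        (a * ((W ^ (d - 1))⁻¹ * N.toReal) + c3 * τ ^ (d - 1)) * D ^ p := by
      rw [mul_pow]
      field_simp
    rw [e]
    have : 0 ≤ c3 * τ ^ (d - 1) := by positivity
    apply mul_le_mul _ hDp (by positivity) (by positivity)
    linarith
  rw [mul_inv_le_iff₀ (by linarith)] at h4
  have h5 : s * D = s + c3 * τ ^ (d - 1) / 2 := by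
    rw [hD, mul_add, mul_one, ← mul_assoc, hτd]
  rw [h5] at h4
  linarith

end Pool.Agent.W545.Man
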