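import Mathlib
import Pool.Agent.W545.Man.Chart
set_option autoImplicit false
open Set Filter Topology MeasureTheory Metric
open scoped ENNReal Manifold ContDiff

/-! Quadratic forms: a pigeonhole principle, and the linear algebra of `|du|²`. -/

namespace Pool.Agent.W545.Man

/-- A family of `J` quadratic quantities whose sum is at most `c` times a scalar product: one of them
is at most `dim * c / J` times the scalar product. -/
theorem pigeon {M : Type*} [AddCommGroup M] [Module ℝ M] [FiniteDimensional ℝ M]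
    (B : LinearMap.BilinForm ℝ M) (hsymm : LinearMap.IsSymm B) (hpos : ∀ u, u ≠ 0 → 0 < B u u)
    {J : ℕ} (hJ : 0 < J) (Q : Fin J → M → ℝ≥0∞)
    (hQ : ∀ (j : Fin J) (n : ℕ) (a : Fin n → ℝ) (e : Fin n → M),
      Q j (∑ i, a i • e i) ≤ ENNReal.ofReal (∑ i, a i ^ 2) * ∑ i, Q j (e i))
    {c : ℝ≥0∞} (hsum : ∀ u, ∑ j, Q j u ≤ c * ENNReal.ofReal (B u u)) :
    ∃ j, ∀ u, Q j u ≤ ((Module.finrank ℝ M : ℝ≥0∞) * c / J) * ENNReal.ofReal (B u u) := by
  have : Invertible (2 : ℝ) := invertibleOfNonzero two_ne_zero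
  obtain ⟨v, hv⟩ := LinearMap.BilinForm.exists_orthogonal_basis (B := B) hsymm
  generalize Module.finrank ℝ M = n at v hv ⊢
  have hb : ∀ i, 0 < B (v i) (v i) := fun i => hpos _ (v.ne_zero i)
  set e : Fin n → M := fun i => (√(B (v i) (v i)))⁻¹ • v i with he
  have hs : ∀ i, 0 < √(B (v i) (v i)) := fun i => Real.sqrt_pos.2 (hb i)
  have hee : ∀ i j, B (e i) (e j) = if i = j then 1 else 0 := by
    intro i j
    simp only [he, map_smul, LinearMap.smul_apply, smul_eq_mul]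
    by_cases hij : i = j
    · subst hij
      rw [if_pos rfl]
      have := Real.mul_self_sqrt (hb i).le
      have h1 := (hs i).ne'
      field_simp
      nlinarith
    · have h0 : B (v i) (v j) = 0 := hv hij
      rw [if_neg hij, h0, mul_zero, mul_zero]
  have hexp : ∀ u : M, ∃ a : Fin n → ℝ, u = ∑ i, a i • e i ∧ B u u = ∑ i, a i ^ 2 := by
    intro u
    refine ⟨fun i => v.repr u i * √(B (v i) (v i)), ?_, ?_⟩
    · conv_lhs => rw [← v.sum_repr u]
      apply Finset.sum_congr rfl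
      intro i _
      simp only [he]
      rw [smul_smul, mul_assoc, mul_inv_cancel₀ (hs i).ne', mul_one]
    · have hu : u = ∑ i, (v.repr u i * √(B (v i) (v i))) • e i := by
        conv_lhs => rw [← v.sum_repr u]
        apply Finset.sum_congr rfl
        intro i _
        simp only [he]
        rw [smul_smul, mul_assoc, mul_inv_cancel₀ (hs i).ne', mul_one]
      conv_lhs => rw [hu]
      simp only [map_sum, LinearMap.sum_apply, map_smul, LinearMap.smul_apply, smul_eq_mul, hee]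
      simp [pow_two]
  set T : Fin J → ℝ≥0∞ := fun j => ∑ i, Q j (e i) with hT
  have hTs : ∑ j, T j ≤ n * c := by
    simp only [hT]
    rw [Finset.sum_comm]
    calc ∑ i, ∑ j, Q j (e i) ≤ ∑ i : Fin n, c * ENNReal.ofReal (B (e i) (e i)) :=
          Finset.sum_le_sum fun i _ => hsum (e i)
      _ = n * c := by simp [hee]
  obtain ⟨j, -, hj⟩ := Finset.exists_min_image (Finset.univ : Finset (Fin J)) T
    ⟨⟨0, hJ⟩, Finset.mem_univ _⟩
  refine ⟨j, fun u => ?_⟩
  have hTj : T j ≤ n * c / J := by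
    rw [ENNReal.le_div_iff_mul_le (Or.inl (by exact_mod_cast hJ.ne')) (Or.inl (ENNReal.natCast_ne_top J))]
    refine le_trans ?_ hTs
    calc T j * J = ∑ _i : Fin J, T j := by simp [mul_comm]
      _ ≤ _ := Finset.sum_le_sum fun i hi => hj i hi
  obtain ⟨a, ha, hB⟩ := hexp u
  rw [hB]
  conv_lhs => rw [ha]
  refine (hQ j n a e).trans ?_
  rw [mul_comm]
  gcongr

variable {d : ℕ} {Ω : Type*} [TopologicalSpace Ω] [ChartedSpace (EuclideanHalfSpace (d + 1)) Ω]
  [IsManifold (𝓡∂ (d + 1)) ∞ Ω]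

/-- evaluation at a point -/
noncomputable def evL (d : ℕ) {Ω : Type*} [TopologicalSpace Ω] [ChartedSpace (EuclideanHalfSpace (d + 1)) Ω]
    (z : Ω) : C^∞⟮𝓡∂ (d + 1), Ω; 𝓘(ℝ, ℝ), ℝ⟯ →ₗ[ℝ] ℝ where
  toFun u := u z
  map_add' _ _ := rfl
  map_smul' _ _ := rfl

omit [IsManifold (𝓡∂ (d + 1)) ∞ Ω] in
theorem comb_val {n : ℕ} (a : Fin n → ℝ) (u : Fin n → C^∞⟮𝓡∂ (d + 1), Ω; 𝓘(ℝ, ℝ), ℝ⟯) (z : Ω) :
    (∑ i, a i • u i : C^∞⟮𝓡∂ (d + 1), Ω; 𝓘(ℝ, ℝ), ℝ⟯) z = ∑ i, a i * u i z := by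
  have h : evL d z (∑ i, a i • u i) = ∑ i, evL d z (a i • u i) := map_sum _ _ _
  exact h

theorem Dloc_comb {n : ℕ} (a : Fin n → ℝ) (u : Fin n → C^∞⟮𝓡∂ (d + 1), Ω; 𝓘(ℝ, ℝ), ℝ⟯) {c : Ω}
    {y : EE d} (hy : y ∈ (ph d c).target) (v : EE d) :
    Dloc d c (∑ i, a i • u i : C^∞⟮𝓡∂ (d + 1), Ω; 𝓘(ℝ, ℝ), ℝ⟯) y v =
      ∑ i, a i * Dloc d c (u i) y v := by
  have e : loc d c (∑ i, a i • u i : C^∞⟮𝓡∂ (d + 1), Ω; 𝓘(ℝ, ℝ), ℝ⟯) =
      fun y => ∑ i, a i * loc d c (u i) y := by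
    funext y
    exact comb_val a u _
  have h1 : HasFDerivWithinAt (fun y => ∑ i, a i * loc d c (u i) y)
      (∑ i, a i • Dloc d c (u i) y) (range (𝓡∂ (d + 1))) y :=
    HasFDerivWithinAt.fun_sum fun i _ => (Dloc_has (u i).contMDiff hy).const_mul (a i)
  have hr : y ∈ range (𝓡∂ (d + 1)) := extChartAt_target_subset_range c hy
  have h2 : Dloc d c (∑ i, a i • u i : C^∞⟮𝓡∂ (d + 1), Ω; 𝓘(ℝ, ℝ), ℝ⟯) y =
      ∑ i, a i • Dloc d c (u i) y := by
    unfold Dloc
    rw [e]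
    exact h1.fderivWithin ((𝓡∂ (d + 1)).uniqueDiffOn _ hr)
  rw [h2]
  simp

theorem gradSq_self (g : RMetric d Ω) (u : C^∞⟮𝓡∂ (d + 1), Ω; 𝓘(ℝ, ℝ), ℝ⟯) (x : Ω) :
    gradSq g u x = ⨆ v : EE d, ENNReal.ofReal ((Dloc d x u (ph d x x) v) ^ 2 /
      coeff g.inner x x v v) :=
  gradSq_chart g (mem_extChartAt_source x) ((u.contMDiff x).mdifferentiableAt (by simp))

theorem coeff_nonneg (g : RMetric d Ω) (x : Ω) (v : EE d) : 0 ≤ coeff g.inner x x v v := by
  by_cases hv : v = 0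
  · subst hv; simp
  · exact (coeff_pos g (mem_extChartAt_source x) hv).le

/-- Cauchy-Schwarz for combinations -/
theorem gradSq_comb (g : RMetric d Ω) {n : ℕ} (a : Fin n → ℝ)
    (u : Fin n → C^∞⟮𝓡∂ (d + 1), Ω; 𝓘(ℝ, ℝ), ℝ⟯) (x : Ω) :
    gradSq g (∑ i, a i • u i : C^∞⟮𝓡∂ (d + 1), Ω; 𝓘(ℝ, ℝ), ℝ⟯) x ≤
      ENNReal.ofReal (∑ i, a i ^ 2) * ∑ i, gradSq g (u i) x := by
  rw [gradSq_self]
  refine iSup_le fun v => ?_
  have hG := coeff_nonneg g x v
  rw [Dloc_comb a u (mem_extChartAt_target x)]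
  have h1 : (∑ i, a i * Dloc d x (u i) (ph d x x) v) ^ 2 / coeff g.inner x x v v ≤
      (∑ i, a i ^ 2) * ∑ i, (Dloc d x (u i) (ph d x x) v) ^ 2 / coeff g.inner x x v v := by
    rw [← Finset.sum_div, ← mul_div_assoc]
    exact div_le_div_of_nonneg_right (Finset.sum_mul_sq_le_sq_mul_sq _ _ _) hG
  refine (ENNReal.ofReal_le_ofReal h1).trans ?_
  rw [ENNReal.ofReal_mul (Finset.sum_nonneg fun i _ => sq_nonneg _),
    ENNReal.ofReal_sum_of_nonneg fun i _ => div_nonneg (sq_nonneg _) hG]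
  gcongr with i
  rw [gradSq_self]
  exact le_iSup (fun v => ENNReal.ofReal ((Dloc d x (u i) (ph d x x) v) ^ 2 /
    coeff g.inner x x v v)) v

/-- the product rule for `c + z (u - c)` -/
theorem gradSq_cut (g : RMetric d Ω) (u z w : C^∞⟮𝓡∂ (d + 1), Ω; 𝓘(ℝ, ℝ), ℝ⟯) (c : ℝ)
    (hw : ∀ x, w x = c + z x * (u x - c)) (x : Ω) (hz : z x ^ 2 ≤ 1) :
    gradSq g w x ≤ 2 * gradSq g u x + ENNReal.ofReal (2 * (u x - c) ^ 2) * gradSq g z x := by
  set y := ph d x x with hy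
  have hyt : y ∈ (ph d x).target := mem_extChartAt_target x
  have hr : y ∈ range (𝓡∂ (d + 1)) := mem_range_self _
  have hsym : (ph d x).symm y = x := (ph d x).left_inv (mem_extChartAt_source x)
  have e : loc d x w = fun y => c + loc d x z y * (loc d x u y - c) := by
    funext y; exact hw _
  have hD : ∀ v, Dloc d x w y v = z x * Dloc d x u y v + (u x - c) * Dloc d x z y v := by
    intro v
    have h1 := ((Dloc_has z.contMDiff hyt).mul ((Dloc_has u.contMDiff hyt).sub_const c)).const_add c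
    have h2 : Dloc d x w y = loc d x z y • Dloc d x u y + (loc d x u y - c) • Dloc d x z y := by
      unfold Dloc
      rw [e]
      exact h1.fderivWithin ((𝓡∂ (d + 1)).uniqueDiffOn _ hr)
    rw [h2]
    have e1 : loc d x z y = z x := by unfold loc; rw [hsym]
    have e2 : loc d x u y = u x := by unfold loc; rw [hsym]
    simp [e1, e2]
  rw [gradSq_self]
  refine iSup_le fun v => ?_
  have hG := coeff_nonneg g x v
  rw [hD]
  have h1 : (z x * Dloc d x u y v + (u x - c) * Dloc d x z y v) ^ 2 / coeff g.inner x x v v ≤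
      2 * ((Dloc d x u y v) ^ 2 / coeff g.inner x x v v) +
        2 * (u x - c) ^ 2 * ((Dloc d x z y v) ^ 2 / coeff g.inner x x v v) := by
    rw [← mul_div_assoc, ← mul_div_assoc, ← add_div]
    apply div_le_div_of_nonneg_right _ hG
    have h2 : (z x * Dloc d x u y v) ^ 2 ≤ (Dloc d x u y v) ^ 2 := by
      rw [mul_pow]
      nlinarith [sq_nonneg (Dloc d x u y v)]
    nlinarith [sq_nonneg (z x * Dloc d x u y v - (u x - c) * Dloc d x z y v)]
  refine (ENNReal.ofReal_le_ofReal h1).trans ?_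
  rw [ENNReal.ofReal_add (mul_nonneg zero_le_two (div_nonneg (sq_nonneg _) hG))
    (mul_nonneg (mul_nonneg zero_le_two (sq_nonneg _)) (div_nonneg (sq_nonneg _) hG)),
    ENNReal.ofReal_mul zero_le_two, ENNReal.ofReal_mul (mul_nonneg zero_le_two (sq_nonneg _)),
    ENNReal.ofReal_ofNat]
  gcongr
  · rw [gradSq_self]
    exact le_iSup (fun v => ENNReal.ofReal ((Dloc d x u (ph d x x) v) ^ 2 /
      coeff g.inner x x v v)) v
  · rw [gradSq_self]
    exact le_iSup (fun v => ENNReal.ofReal ((Dloc d x z (ph d x x) v) ^ 2 /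
      coeff g.inner x x v v)) v

end Pool.Agent.W545.Man
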