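import Mathlib
import Pool.Agent.W545.Man.Pigeon
set_option autoImplicit false
open Set Filter Topology MeasureTheory Metric
open scoped ENNReal Manifold ContDiff

/-! `|du|²` is a measurable function. -/

namespace Pool.Agent.W545.Man

variable {d : ℕ} {Ω : Type*} [TopologicalSpace Ω] [ChartedSpace (EuclideanHalfSpace (d + 1)) Ω]
  [IsManifold (𝓡∂ (d + 1)) ∞ Ω]

theorem gradSq_lsc (g : RMetric d Ω) (u : C^∞⟮𝓡∂ (d + 1), Ω; 𝓘(ℝ, ℝ), ℝ⟯) :
    LowerSemicontinuous (gradSq g u) := by
  intro c
  have hsrc : (ph d c).source ∈ 𝓝 c :=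
    (isOpen_extChartAt_source c).mem_nhds (mem_extChartAt_source c)
  have hph : ContinuousOn (ph d c) (ph d c).source := continuousOn_extChartAt c
  have hmaps : MapsTo (ph d c) (ph d c).source (ph d c).target := (ph d c).mapsTo
  have h1 : LowerSemicontinuousAt (fun x => ⨆ v : EE d,
      ENNReal.ofReal ((Dloc d c u (ph d c x) v) ^ 2 / coeff g.inner c x v v)) c := by
    apply lowerSemicontinuousAt_iSup
    intro v
    apply ContinuousAt.lowerSemicontinuousAt
    by_cases hv : v = 0
    · subst hv
      simp only [map_zero, ne_eq, OfNat.ofNat_ne_zero, not_false_eq_true, zero_pow, zero_div,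
        ENNReal.ofReal_zero]
      exact continuousAt_const
    · apply ENNReal.continuous_ofReal.continuousAt.comp
      have h2 : ContinuousOn (fun x => Dloc d c u (ph d c x) v) (ph d c).source :=
        ((Dloc_cont u.contMDiff c).clm_apply continuousOn_const).comp hph hmaps
      have h3 : ContinuousOn (fun x => coeff g.inner c x v v) (ph d c).source := by
        have := (coeff_cont g c v v).comp hph hmaps
        apply this.congr
        intro x hx
        simp only [Function.comp_apply]
        rw [(ph d c).left_inv hx]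
      have h4 := (h2.pow 2).div h3 (fun x hx => (coeff_pos g hx hv).ne')
      exact h4.continuousAt hsrc
  have he : (fun x => ⨆ v : EE d,
      ENNReal.ofReal ((Dloc d c u (ph d c x) v) ^ 2 / coeff g.inner c x v v)) =ᶠ[𝓝 c]
      gradSq g u := by
    filter_upwards [hsrc] with x hx
    exact (gradSq_chart g hx ((u.contMDiff x).mdifferentiableAt (by simp))).symm
  intro y hy
  rw [← he.self_of_nhds] at hy
  filter_upwards [h1 y hy, he] with x hx hxe
  rwa [← hxe]

variable [MeasurableSpace Ω] [BorelSpace Ω]

theorem gradSq_meas (g : RMetric d Ω) (u : C^∞⟮𝓡∂ (d + 1), Ω; 𝓘(ℝ, ℝ), ℝ⟯) :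
    Measurable (gradSq g u) := (gradSq_lsc g u).measurable

end Pool.Agent.W545.Man
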