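import Mathlib
import Pool.Agent.W545.Man.Super
import Pool.Agent.W545.Man.Lsc
set_option autoImplicit false
open Set Filter Topology MeasureTheory Metric
open scoped ENNReal Manifold ContDiff

/-! The case of surfaces: the energy is conformally invariant, and a bubble is separated from the
rest by an annulus which carries little energy. -/

namespace Pool.Agent.W545.Man

/-- square half ball -/
def SQ (x0 ρ : ℝ) : Set (EE 1) := {y | |y 1 - x0| ≤ ρ ∧ 0 ≤ y 0 ∧ y 0 ≤ ρ}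

/-- square half annulus -/
def AQ (x0 ρ : ℝ) : Set (EE 1) := SQ x0 (2 * ρ) ∩ {y | ρ ≤ |y 1 - x0| ∨ ρ ≤ y 0}

theorem SQ_mono {x0 ρ ρ' : ℝ} (h : ρ ≤ ρ') : SQ x0 ρ ⊆ SQ x0 ρ' :=
  fun _ hy => ⟨hy.1.trans h, hy.2.1, hy.2.2.trans h⟩

theorem SQ_closed (x0 ρ : ℝ) : IsClosed (SQ x0 ρ) := by
  have c0 : Continuous fun y : EE 1 => y 0 := by fun_prop
  have c1 : Continuous fun y : EE 1 => |y 1 - x0| := by fun_prop
  exact (isClosed_le c1 continuous_const).inter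
    ((isClosed_le continuous_const c0).inter (isClosed_le c0 continuous_const))

theorem SQ_compact (x0 ρ : ℝ) : IsCompact (SQ x0 ρ) := by
  apply Metric.isCompact_of_isClosed_isBounded (SQ_closed x0 ρ)
  apply (isBounded_closedBall (x := (0 : EE 1)) (r := √((|ρ|) ^ 2 + (|ρ| + |x0|) ^ 2))).subset
  intro y hy
  rw [mem_closedBall, dist_zero_right, EuclideanSpace.norm_eq, Fin.sum_univ_two]
  apply Real.sqrt_le_sqrt
  obtain ⟨h1, h2, h3⟩ := hy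
  have e0 : ‖y 0‖ ≤ |ρ| := by
    rw [Real.norm_eq_abs, abs_of_nonneg h2]; exact h3.trans (le_abs_self ρ)
  have e1 : ‖y 1‖ ≤ |ρ| + |x0| := by
    rw [Real.norm_eq_abs]
    have : |y 1| ≤ |y 1 - x0| + |x0| := by
      have := abs_add_le (y 1 - x0) x0
      simpa using this
    linarith [le_abs_self ρ]
  gcongr

theorem AQ_closed (x0 ρ : ℝ) : IsClosed (AQ x0 ρ) := by
  have c0 : Continuous fun y : EE 1 => y 0 := by fun_prop
  have c1 : Continuous fun y : EE 1 => |y 1 - x0| := by fun_prop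
  exact (SQ_closed x0 _).inter ((isClosed_le continuous_const c1).union
    (isClosed_le continuous_const c0))

theorem AQ_compact (x0 ρ : ℝ) : IsCompact (AQ x0 ρ) :=
  (SQ_compact x0 (2 * ρ)).of_isClosed_subset (AQ_closed x0 ρ) inter_subset_left

variable {Ω : Type*} [TopologicalSpace Ω] [ChartedSpace (EuclideanHalfSpace (1 + 1)) Ω]
  [IsManifold (𝓡∂ (1 + 1)) ∞ Ω] [MeasurableSpace Ω]

/-- local data at a boundary point of a surface -/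
def SurfData (g : RMetric 1 Ω) (q : Ω) (R0 C : ℝ) : Prop :=
  SQ (ph 1 q q 1) (2 * R0) ⊆ (ph 1 q).target ∧ ∀ ρ, 0 < ρ → ρ ≤ R0 →
   (∃ l : C^∞⟮𝓡∂ (1 + 1), Ω; 𝓘(ℝ, ℝ), ℝ⟯ →ₗ[ℝ] ℝ, ∀ μ ν : Measure Ω, IsVolume g μ →
      IsBdryVolume g ν → ∀ u : C^∞⟮𝓡∂ (1 + 1), Ω; 𝓘(ℝ, ℝ), ℝ⟯,
      ∫⁻ x in UK 1 q (AQ (ph 1 q q 1) ρ), sq (u x - l u) ∂μ ≤
        ENNReal.ofReal (C * ρ ^ 2) * ∫⁻ x in UK 1 q (AQ (ph 1 q q 1) ρ), gradSq g u x ∂μ ∧
      ∫⁻ x in UK 1 q (SQ (ph 1 q q 1) (2 * ρ)), sq (u x - l u) ∂ν ≤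
        ENNReal.ofReal (C * ρ) * ∫⁻ x in UK 1 q (SQ (ph 1 q q 1) (2 * ρ)), gradSq g u x ∂μ) ∧
   (∃ z : Ω → ℝ, ContMDiff (𝓡∂ (1 + 1)) 𝓘(ℝ, ℝ) ∞ z ∧ (∀ x, 0 ≤ z x ∧ z x ≤ 1) ∧
      (∀ x ∈ UK 1 q (SQ (ph 1 q q 1) ρ), z x = 0) ∧
      (∀ x ∉ UK 1 q (SQ (ph 1 q q 1) (2 * ρ)), z x = 1) ∧
      ∀ x, gradSq g z x ≤ ENNReal.ofReal (C / ρ ^ 2))

omit [MeasurableSpace Ω] in
theorem gradSq_congr {g : RMetric 1 Ω} {u v : Ω → ℝ} {x : Ω} (h : u =ᶠ[𝓝 x] v) :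
    gradSq g u x = gradSq g v x := by
  unfold gradSq dif
  rw [h.mfderiv_eq]

omit [MeasurableSpace Ω] in
theorem gradSq_const {g : RMetric 1 Ω} (c : ℝ) (x : Ω) : gradSq g (fun _ => c) x = 0 := by
  unfold gradSq dif
  rw [mfderiv_const]
  apply le_antisymm _ zero_le
  refine iSup_le fun v => ?_
  rw [nonpos_iff_eq_zero, ENNReal.ofReal_eq_zero]
  apply le_of_eq
  show (0 : ℝ) ^ 2 / _ = 0
  simp

variable [BorelSpace Ω] [T2Space Ω]

omit [MeasurableSpace Ω] [BorelSpace Ω] [T2Space Ω] in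
/-- cutting off the inside of an annulus, as a linear map -/
noncomputable def cutL (l : C^∞⟮𝓡∂ (1 + 1), Ω; 𝓘(ℝ, ℝ), ℝ⟯ →ₗ[ℝ] ℝ) (z : Ω → ℝ)
    (hz : ContMDiff (𝓡∂ (1 + 1)) 𝓘(ℝ, ℝ) ∞ z) :
    C^∞⟮𝓡∂ (1 + 1), Ω; 𝓘(ℝ, ℝ), ℝ⟯ →ₗ[ℝ] C^∞⟮𝓡∂ (1 + 1), Ω; 𝓘(ℝ, ℝ), ℝ⟯ where
  toFun u := ⟨fun x => l u + z x * (u x - l u), by
    have c1 : ∀ t : ℝ, ContMDiff (𝓡∂ (1 + 1)) 𝓘(ℝ, ℝ) ∞ fun _ : Ω => t := fun t => contMDiff_const
    exact (c1 _).add (hz.mul (u.contMDiff.sub (c1 _)))⟩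
  map_add' u v := by
    ext x
    show l (u + v) + z x * ((u + v : C^∞⟮𝓡∂ (1 + 1), Ω; 𝓘(ℝ, ℝ), ℝ⟯) x - l (u + v)) =
      (l u + z x * (u x - l u)) + (l v + z x * (v x - l v))
    rw [map_add]
    show l u + l v + z x * (u x + v x - (l u + l v)) = _
    ring
  map_smul' a u := by
    ext x
    show l (a • u) + z x * ((a • u : C^∞⟮𝓡∂ (1 + 1), Ω; 𝓘(ℝ, ℝ), ℝ⟯) x - l (a • u)) =
      a * (l u + z x * (u x - l u))
    rw [map_smul]
    show a * l u + z x * (a * u x - a * l u) = _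
    ring

omit [IsManifold (𝓡∂ (1 + 1)) ∞ Ω] [MeasurableSpace Ω] [BorelSpace Ω] [T2Space Ω] in
theorem cutL_apply (l : C^∞⟮𝓡∂ (1 + 1), Ω; 𝓘(ℝ, ℝ), ℝ⟯ →ₗ[ℝ] ℝ) (z : Ω → ℝ)
    (hz : ContMDiff (𝓡∂ (1 + 1)) 𝓘(ℝ, ℝ) ∞ z) (u : C^∞⟮𝓡∂ (1 + 1), Ω; 𝓘(ℝ, ℝ), ℝ⟯) (x : Ω) :
    cutL l z hz u x = l u + z x * (u x - l u) := rfl

/-- energy of the cut function -/
theorem energy_cut {g : RMetric 1 Ω} {q : Ω} {C : ℝ} (hC : 0 < C) {ρ : ℝ} (hρ : 0 < ρ)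
    (hS : SQ (ph 1 q q 1) (2 * ρ) ⊆ (ph 1 q).target)
    {l : C^∞⟮𝓡∂ (1 + 1), Ω; 𝓘(ℝ, ℝ), ℝ⟯ →ₗ[ℝ] ℝ} {z : Ω → ℝ}
    (hz : ContMDiff (𝓡∂ (1 + 1)) 𝓘(ℝ, ℝ) ∞ z) (hz01 : ∀ x, 0 ≤ z x ∧ z x ≤ 1)
    (hzin : ∀ x ∈ UK 1 q (SQ (ph 1 q q 1) ρ), z x = 0)
    (hzout : ∀ x ∉ UK 1 q (SQ (ph 1 q q 1) (2 * ρ)), z x = 1)
    (hzg : ∀ x, gradSq g z x ≤ ENNReal.ofReal (C / ρ ^ 2)) {μ : Measure Ω}
    {u : C^∞⟮𝓡∂ (1 + 1), Ω; 𝓘(ℝ, ℝ), ℝ⟯}
    (hl : ∫⁻ x in UK 1 q (AQ (ph 1 q q 1) ρ), sq (u x - l u) ∂μ ≤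
        ENNReal.ofReal (C * ρ ^ 2) * ∫⁻ x in UK 1 q (AQ (ph 1 q q 1) ρ), gradSq g u x ∂μ) :
    energy g μ (cutL l z hz u) ≤ (∫⁻ x in (UK 1 q (SQ (ph 1 q q 1) (2 * ρ)))ᶜ, gradSq g u x ∂μ) +
      ENNReal.ofReal (2 + 2 * C ^ 2) * ∫⁻ x in UK 1 q (AQ (ph 1 q q 1) ρ), gradSq g u x ∂μ := by
  set x0 := ph 1 q q 1 with hx0
  set S2 := UK 1 q (SQ x0 (2 * ρ)) with hS2
  set A := UK 1 q (AQ x0 ρ) with hA
  have hAt : AQ x0 ρ ⊆ (ph 1 q).target := inter_subset_left.trans hS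
  have hS2c : IsCompact S2 := UK_compact hS (SQ_compact _ _)
  have hAm : MeasurableSet A := UK_meas hAt (AQ_compact _ _)
  have hS2m : MeasurableSet S2 := hS2c.measurableSet
  have hpt : ∀ x, gradSq g (cutL l z hz u) x ≤ S2ᶜ.indicator (gradSq g u) x +
      A.indicator (fun x => 2 * gradSq g u x +
        ENNReal.ofReal (2 * (C / ρ ^ 2)) * sq (u x - l u)) x := by
    intro x
    by_cases hx : x ∈ S2
    · by_cases hxA : x ∈ A
      · rw [indicator_of_mem hxA, indicator_of_notMem (show x ∉ S2ᶜ from fun h => h hx), zero_add]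
        refine (gradSq_cut g u ⟨z, hz⟩ (cutL l z hz u) (l u) (fun _ => rfl) x ?_).trans ?_
        · show z x ^ 2 ≤ 1
          exact pow_le_one₀ (hz01 x).1 (hz01 x).2
        · refine add_le_add le_rfl ?_
          calc ENNReal.ofReal (2 * (u x - l u) ^ 2) * gradSq g z x ≤
              ENNReal.ofReal (2 * (u x - l u) ^ 2) * ENNReal.ofReal (C / ρ ^ 2) := by
                gcongr; exact hzg x
            _ = ENNReal.ofReal (2 * (C / ρ ^ 2)) * sq (u x - l u) := by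
                unfold sq
                rw [← ENNReal.ofReal_mul (by positivity), ← ENNReal.ofReal_mul (by positivity)]
                congr 1; ring
      · -- inside
        have hU : IsOpen ((chartAt (EuclideanHalfSpace (1 + 1)) q).source ∩
            (ph 1 q) ⁻¹' {y : EE 1 | |y 1 - x0| < ρ ∧ y 0 < ρ}) := by
          apply isOpen_extChartAt_preimage
          have c0 : Continuous fun y : EE 1 => y 0 := by fun_prop
          have c1 : Continuous fun y : EE 1 => |y 1 - x0| := by fun_prop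
          exact (isOpen_lt c1 continuous_const).inter (isOpen_lt c0 continuous_const)
        have hxU : x ∈ (chartAt (EuclideanHalfSpace (1 + 1)) q).source ∩
            (ph 1 q) ⁻¹' {y : EE 1 | |y 1 - x0| < ρ ∧ y 0 < ρ} := by
          refine ⟨UK_sub hx, ?_⟩
          by_contra hcon
          apply hxA
          refine ⟨hx.1, hx.2, ?_⟩
          have h2 : ¬ (|ph 1 q x 1 - x0| < ρ ∧ ph 1 q x 0 < ρ) := hcon
          rw [not_and_or, not_lt, not_lt] at h2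
          exact h2
        have he : (cutL l z hz u : Ω → ℝ) =ᶠ[𝓝 x] fun _ => l u := by
          filter_upwards [hU.mem_nhds hxU] with x' hx'
          have h3 : x' ∈ UK 1 q (SQ x0 ρ) := by
            refine ⟨by rw [extChartAt_source]; exact hx'.1, hx'.2.1.le, ph_coord_nonneg q x', hx'.2.2.le⟩
          rw [cutL_apply, hzin x' h3]
          ring
        rw [gradSq_congr he, gradSq_const]
        exact zero_le
    · have he : (cutL l z hz u : Ω → ℝ) =ᶠ[𝓝 x] u := by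
        filter_upwards [hS2c.isClosed.isOpen_compl.mem_nhds hx] with x' hx'
        rw [cutL_apply, hzout x' hx']
        ring
      rw [gradSq_congr he, indicator_of_mem (show x ∈ S2ᶜ from hx)]
      exact le_self_add
  have hm1 : Measurable (S2ᶜ.indicator (gradSq g u)) := (gradSq_meas g u).indicator hS2m.compl
  have hm2 : Measurable fun x => ENNReal.ofReal (2 * (C / ρ ^ 2)) * sq (u x - l u) := by
    unfold sq
    exact (measurable_const.mul (ENNReal.continuous_ofReal.comp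
      ((u.contMDiff.continuous.sub continuous_const).pow 2)).measurable)
  calc energy g μ (cutL l z hz u) ≤ ∫⁻ x, (S2ᶜ.indicator (gradSq g u) x +
      A.indicator (fun x => 2 * gradSq g u x +
        ENNReal.ofReal (2 * (C / ρ ^ 2)) * sq (u x - l u)) x) ∂μ := lintegral_mono hpt
    _ = (∫⁻ x in S2ᶜ, gradSq g u x ∂μ) + (2 * (∫⁻ x in A, gradSq g u x ∂μ) +
        ENNReal.ofReal (2 * (C / ρ ^ 2)) * ∫⁻ x in A, sq (u x - l u) ∂μ) := by
        rw [lintegral_add_left hm1, lintegral_indicator hS2m.compl, lintegral_indicator hAm,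
          lintegral_add_right _ hm2, lintegral_const_mul' _ _ (by norm_num),
          lintegral_const_mul' _ _ ENNReal.ofReal_ne_top]
    _ ≤ (∫⁻ x in S2ᶜ, gradSq g u x ∂μ) + (2 * (∫⁻ x in A, gradSq g u x ∂μ) +
        ENNReal.ofReal (2 * (C / ρ ^ 2)) * (ENNReal.ofReal (C * ρ ^ 2) *
          ∫⁻ x in A, gradSq g u x ∂μ)) := by gcongr
    _ = _ := by
        rw [← mul_assoc, ← ENNReal.ofReal_mul (by positivity), ← add_mul]
        congr 2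
        rw [ENNReal.ofReal_add (by norm_num) (by positivity), ENNReal.ofReal_ofNat]
        congr 2
        field_simp

theorem sq_young {δ a b : ℝ} (hδ : 0 < δ) : (a + b) ^ 2 ≤ (1 + δ) * a ^ 2 + (1 + δ⁻¹) * b ^ 2 := by
  have h : 0 ≤ (√δ * a - (√δ)⁻¹ * b) ^ 2 := sq_nonneg _
  have h1 : √δ ^ 2 = δ := Real.sq_sqrt hδ.le
  have h2 : (√δ)⁻¹ ^ 2 = δ⁻¹ := by rw [inv_pow, h1]
  have h3 : √δ * (√δ)⁻¹ = 1 := mul_inv_cancel₀ (Real.sqrt_pos.2 hδ).ne'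
  have e : (√δ * a - (√δ)⁻¹ * b) ^ 2 = √δ ^ 2 * a ^ 2 - 2 * (√δ * (√δ)⁻¹) * (a * b) +
      (√δ)⁻¹ ^ 2 * b ^ 2 := by ring
  rw [e, h1, h2, h3] at h
  nlinarith

omit [IsManifold (𝓡∂ (1 + 1)) ∞ Ω] in
/-- boundary norm of the cut function -/
theorem bsq_cut {q : Ω} {ρ : ℝ} (hS : SQ (ph 1 q q 1) (2 * ρ) ⊆ (ph 1 q).target)
    {l : C^∞⟮𝓡∂ (1 + 1), Ω; 𝓘(ℝ, ℝ), ℝ⟯ →ₗ[ℝ] ℝ} {z : Ω → ℝ}
    (hz : ContMDiff (𝓡∂ (1 + 1)) 𝓘(ℝ, ℝ) ∞ z) (hz01 : ∀ x, 0 ≤ z x ∧ z x ≤ 1)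
    (hzout : ∀ x ∉ UK 1 q (SQ (ph 1 q q 1) (2 * ρ)), z x = 1) {ν : Measure Ω}
    (u : C^∞⟮𝓡∂ (1 + 1), Ω; 𝓘(ℝ, ℝ), ℝ⟯) {f : PosFun 1 Ω} {M : ℝ} (hM : ∀ x, f.1 x ≤ M)
    {δ : ℝ} (hδ : 0 < δ) :
    ∫⁻ x, ENNReal.ofReal (f.1 x ^ 1 * u x ^ 2) ∂ν ≤
      (ENNReal.ofReal (1 + δ) * ∫⁻ x, ENNReal.ofReal (f.1 x ^ 1 * (cutL l z hz u x) ^ 2) ∂ν) +
      ENNReal.ofReal ((1 + δ⁻¹) * M) *
        ∫⁻ x in UK 1 q (SQ (ph 1 q q 1) (2 * ρ)), sq (u x - l u) ∂ν := by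
  set S2 := UK 1 q (SQ (ph 1 q q 1) (2 * ρ)) with hS2
  have hS2m : MeasurableSet S2 := (UK_compact hS (SQ_compact _ _)).measurableSet
  have hMp : ∀ x : Ω, 0 < M := fun x => (f.2 x).trans_le (hM x)
  have hpt : ∀ x, ENNReal.ofReal (f.1 x ^ 1 * u x ^ 2) ≤
      ENNReal.ofReal (1 + δ) * ENNReal.ofReal (f.1 x ^ 1 * (cutL l z hz u x) ^ 2) +
      S2.indicator (fun x => ENNReal.ofReal ((1 + δ⁻¹) * M) * sq (u x - l u)) x := by
    intro x
    rw [pow_one, ← ENNReal.ofReal_mul (by positivity)]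
    have hf := f.2 x
    by_cases hx : x ∈ S2
    · rw [indicator_of_mem hx]
      unfold sq
      have := hMp x
      rw [← ENNReal.ofReal_mul (by positivity), ← ENNReal.ofReal_add (by positivity) (by positivity)]
      apply ENNReal.ofReal_le_ofReal
      have h1 := sq_young (a := cutL l z hz u x) (b := (1 - z x) * (u x - l u)) hδ
      have e : cutL l z hz u x + (1 - z x) * (u x - l u) = u x := by rw [cutL_apply]; ring
      rw [e] at h1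
      have h2 : ((1 - z x) * (u x - l u)) ^ 2 ≤ (u x - l u) ^ 2 := by
        rw [mul_pow]
        have h3 : (1 - z x) ^ 2 ≤ 1 := by
          have := hz01 x
          nlinarith
        nlinarith [sq_nonneg (u x - l u)]
      have h4 : 0 < 1 + δ⁻¹ := by positivity
      calc f.1 x * u x ^ 2 ≤ f.1 x * ((1 + δ) * (cutL l z hz u x) ^ 2 +
            (1 + δ⁻¹) * ((1 - z x) * (u x - l u)) ^ 2) := by gcongr
        _ ≤ f.1 x * ((1 + δ) * (cutL l z hz u x) ^ 2 + (1 + δ⁻¹) * (u x - l u) ^ 2) := by gcongr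
        _ = (1 + δ) * (f.1 x * (cutL l z hz u x) ^ 2) + (1 + δ⁻¹) * f.1 x * (u x - l u) ^ 2 := by ring
        _ ≤ _ := by
          gcongr
          exact hM x
    · rw [indicator_of_notMem hx, add_zero]
      apply ENNReal.ofReal_le_ofReal
      have e : cutL l z hz u x = u x := by rw [cutL_apply, hzout x hx]; ring
      rw [e]
      have : 0 ≤ f.1 x * u x ^ 2 := by positivity
      nlinarith
  have hcm : Continuous (cutL l z hz u) := (cutL l z hz u).contMDiff.continuous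
  have hm1 : Measurable fun x => ENNReal.ofReal (1 + δ) *
      ENNReal.ofReal (f.1 x ^ 1 * (cutL l z hz u x) ^ 2) :=
    measurable_const.mul (ENNReal.continuous_ofReal.comp ((f.cont.pow 1).mul (hcm.pow 2))).measurable
  refine (lintegral_mono hpt).trans ?_
  rw [lintegral_add_left hm1, lintegral_indicator hS2m, lintegral_const_mul' _ _ ENNReal.ofReal_ne_top,
    lintegral_const_mul' _ _ ENNReal.ofReal_ne_top]

omit [T2Space Ω] in
/-- the eigenvalue of the uncut problem gives a good function -/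
theorem exists_good [CompactSpace Ω] {g : RMetric 1 Ω} {f0 : PosFun 1 Ω} {μ ν : Measure Ω}
    [IsFiniteMeasure ν] {k : ℕ} {a : ℝ}
    (hk : ENNReal.ofReal a < sigma k (conf g f0)
      (μ.withDensity fun x => ENNReal.ofReal (f0.1 x ^ (1 + 1)))
      (ν.withDensity fun x => ENNReal.ofReal (f0.1 x ^ 1)))
    {W : Submodule ℝ C^∞⟮𝓡∂ (1 + 1), Ω; 𝓘(ℝ, ℝ), ℝ⟯} (hW : Module.finrank ℝ W = k + 1)
    (T : C^∞⟮𝓡∂ (1 + 1), Ω; 𝓘(ℝ, ℝ), ℝ⟯ →ₗ[ℝ] C^∞⟮𝓡∂ (1 + 1), Ω; 𝓘(ℝ, ℝ), ℝ⟯) :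
    ∃ u ∈ W, u ≠ 0 ∧ ENNReal.ofReal a * ∫⁻ x, ENNReal.ofReal (f0.1 x ^ 1 * T u x ^ 2) ∂ν ≤
      energy g μ (T u) := by
  by_cases h : ∀ u ∈ W, u ≠ 0 →
      bsq (ν.withDensity fun x => ENNReal.ofReal (f0.1 x ^ 1)) (T u) ≠ 0
  · have hinj : Function.Injective (T.domRestrict W) := by
      rw [← LinearMap.ker_eq_bot, LinearMap.ker_eq_bot']
      intro u hu
      by_contra hu0
      refine h u u.2 (fun h' => hu0 (Subtype.ext h')) ?_
      have : T u = 0 := hu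
      rw [this]
      unfold bsq
      show ∫⁻ x, ENNReal.ofReal ((0 : ℝ) ^ 2) ∂_ = 0
      simp
    have hfr : Module.finrank ℝ (LinearMap.range (T.domRestrict W)) = k + 1 := by
      rw [LinearMap.finrank_range_of_inj hinj, hW]
    have h1 : ENNReal.ofReal a < ⨆ (w ∈ LinearMap.range (T.domRestrict W)) (_ : w ≠ 0),
        energy (conf g f0) (μ.withDensity fun x => ENNReal.ofReal (f0.1 x ^ (1 + 1))) w /
        bsq (ν.withDensity fun x => ENNReal.ofReal (f0.1 x ^ 1)) w := by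
      refine hk.trans_le ?_
      unfold sigma
      refine iInf_le_of_le _ (iInf_le_of_le hfr (iInf_le_of_le ?_ le_rfl))
      rintro _ ⟨u, rfl⟩ hu0
      refine h u u.2 ?_
      intro h'
      apply hu0
      rw [show u = 0 from Subtype.ext h', map_zero]
    simp only [lt_iSup_iff] at h1
    obtain ⟨w, ⟨u, rfl⟩, hw0, hw⟩ := h1
    have hu0 : (u : C^∞⟮𝓡∂ (1 + 1), Ω; 𝓘(ℝ, ℝ), ℝ⟯) ≠ 0 := by
      intro h'
      apply hw0
      rw [show u = 0 from Subtype.ext h', map_zero]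
    refine ⟨u, u.2, hu0, ?_⟩
    have hbt : bsq (ν.withDensity fun x => ENNReal.ofReal (f0.1 x ^ 1)) (T u) ≠ ⊤ := by
      rw [bsq_conf]
      exact (cont_integrable ν (f := fun x => f0.1 x ^ 1 * (T u) x ^ 2)
        ((f0.cont.pow 1).mul ((T u).contMDiff.continuous.pow 2))).lintegral_lt_top.ne
    have h2 := (ENNReal.le_div_iff_mul_le (Or.inl (h u u.2 hu0)) (Or.inl hbt)).1 hw.le
    rw [energy_conf le_rfl, bsq_conf] at h2
    refine h2.trans (le_of_eq ?_)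
    unfold energy
    congr 1
    funext x
    simp
  · push Not at h
    obtain ⟨u, huW, hu0, hu⟩ := h
    refine ⟨u, huW, hu0, ?_⟩
    rw [bsq_conf] at hu
    rw [hu, mul_zero]
    exact zero_le

end Pool.Agent.W545.Man
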