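import Mathlib
import Pool.Agent.W545.Man.Surf
set_option autoImplicit false
open Set Filter Topology MeasureTheory Metric
open scoped ENNReal Manifold ContDiff

/-! Superposition of a bubble on a surface. -/

namespace Pool.Agent.W545.Man

theorem arith_sum {x1 x2 x3 x4 x5 x6 x7 : ℝ} (h1 : 0 ≤ x1) (h2 : 0 ≤ x2) (h3 : 0 ≤ x3)
    (h4 : 0 ≤ x4) (h5 : 0 ≤ x5) (h6 : 0 ≤ x6) (h7 : 0 ≤ x7) (B : ℝ≥0∞) :
    ENNReal.ofReal x1 * (ENNReal.ofReal x2 * B) +
      ENNReal.ofReal x1 * ENNReal.ofReal x3 * (ENNReal.ofReal x4 * B) +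
      ENNReal.ofReal x5 * ENNReal.ofReal x6 * ENNReal.ofReal x7 * (ENNReal.ofReal x2 * B) =
    ENNReal.ofReal (x1 * x2 + x1 * x3 * x4 + x5 * x6 * x7 * x2) * B := by
  rw [ENNReal.ofReal_add (by positivity) (by positivity),
    ENNReal.ofReal_add (by positivity) (by positivity),
    ENNReal.ofReal_mul h1, ENNReal.ofReal_mul (show 0 ≤ x1 * x3 by positivity),
    ENNReal.ofReal_mul h1, ENNReal.ofReal_mul (show 0 ≤ x5 * x6 * x7 by positivity),
    ENNReal.ofReal_mul (show 0 ≤ x5 * x6 by positivity), ENNReal.ofReal_mul h5]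
  ring

variable {Ω : Type*} [TopologicalSpace Ω] [ChartedSpace (EuclideanHalfSpace (1 + 1)) Ω]
  [IsManifold (𝓡∂ (1 + 1)) ∞ Ω] [MeasurableSpace Ω] [BorelSpace Ω] [T2Space Ω]

omit [T2Space Ω] [IsManifold (𝓡∂ (1 + 1)) ∞ Ω] in
theorem int3 [CompactSpace Ω] (ν : Measure Ω) [IsFiniteMeasure ν] (f : PosFun 1 Ω)
    (u v : C^∞⟮𝓡∂ (1 + 1), Ω; 𝓘(ℝ, ℝ), ℝ⟯) : Integrable (fun x => f.1 x * (u x * v x)) ν :=
  cont_integrable ν (f.cont.mul (u.contMDiff.continuous.mul v.contMDiff.continuous))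

/-- the scalar product `∫ f u v dν` on a space of smooth functions -/
noncomputable def bilF [CompactSpace Ω] (ν : Measure Ω) [IsFiniteMeasure ν] (f : PosFun 1 Ω)
    (W : Submodule ℝ C^∞⟮𝓡∂ (1 + 1), Ω; 𝓘(ℝ, ℝ), ℝ⟯) : LinearMap.BilinForm ℝ W :=
  LinearMap.mk₂ ℝ (fun u v => ∫ x, f.1 x * (u.1 x * v.1 x) ∂ν)
    (by
      intro u u' v
      rw [← integral_add (int3 ν f u.1 v.1) (int3 ν f u'.1 v.1)]
      congr 1; ext x
      show f.1 x * ((u.1 x + u'.1 x) * v.1 x) = _
      ring)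
    (by
      intro a u v
      rw [smul_eq_mul, ← integral_const_mul]
      congr 1; ext x
      show f.1 x * ((a * u.1 x) * v.1 x) = _
      ring)
    (by
      intro u v v'
      rw [← integral_add (int3 ν f u.1 v.1) (int3 ν f u.1 v'.1)]
      congr 1; ext x
      show f.1 x * (u.1 x * (v.1 x + v'.1 x)) = _
      ring)
    (by
      intro a u v
      rw [smul_eq_mul, ← integral_const_mul]
      congr 1; ext x
      show f.1 x * (u.1 x * (a * v.1 x)) = _
      ring)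

omit [T2Space Ω] in
theorem bilF_self [CompactSpace Ω] (ν : Measure Ω) [IsFiniteMeasure ν] (f : PosFun 1 Ω)
    (W : Submodule ℝ C^∞⟮𝓡∂ (1 + 1), Ω; 𝓘(ℝ, ℝ), ℝ⟯) (u : W) :
    ENNReal.ofReal (bilF ν f W u u) = ∫⁻ x, ENNReal.ofReal (f.1 x ^ 1 * u.1 x ^ 2) ∂ν := by
  show ENNReal.ofReal (∫ x, f.1 x * (u.1 x * u.1 x) ∂ν) = _
  rw [ofReal_integral_eq_lintegral_ofReal (int3 ν f u.1 u.1)
    (Eventually.of_forall fun x => mul_nonneg (f.2 x).le (mul_self_nonneg _))]
  congr 1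
  funext x
  rw [pow_one, pow_two]

omit [T2Space Ω] in
theorem bilF_symm [CompactSpace Ω] (ν : Measure Ω) [IsFiniteMeasure ν] (f : PosFun 1 Ω)
    (W : Submodule ℝ C^∞⟮𝓡∂ (1 + 1), Ω; 𝓘(ℝ, ℝ), ℝ⟯) : LinearMap.IsSymm (bilF ν f W) := by
  refine ⟨fun u v => ?_⟩
  show ∫ x, f.1 x * (u.1 x * v.1 x) ∂ν = ∫ x, f.1 x * (v.1 x * u.1 x) ∂ν
  congr 1; ext x
  ring

theorem UK_disj {q : Ω} {x0 ρ ρ' : ℝ} (h : 2 * ρ' < ρ) :
    Disjoint (UK 1 q (AQ x0 ρ)) (UK 1 q (AQ x0 ρ')) := by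
  rw [Set.disjoint_left]
  rintro x ⟨-, -, h1⟩ ⟨-, h2, -⟩
  obtain ⟨h3, h4, h5⟩ := h2
  rcases h1 with h1 | h1
  · have h1' : ρ ≤ |ph 1 q x 1 - x0| := h1
    linarith
  · have h1' : ρ ≤ ph 1 q x 0 := h1
    linarith

/-- the energies of disjoint sets add up to at most the energy -/
theorem sum_energy_le {J : ℕ} {A : Fin J → Set Ω} (hA : ∀ j, MeasurableSet (A j))
    (hd : Pairwise fun i j => Disjoint (A i) (A j)) (μ : Measure Ω) (F : Ω → ℝ≥0∞) :
    ∑ j, ∫⁻ x in A j, F x ∂μ ≤ ∫⁻ x, F x ∂μ := by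
  rw [← lintegral_biUnion_finset (s := Finset.univ) (fun i _ j _ hij => hd hij) (fun j _ => hA j)]
  exact setLIntegral_le_lintegral _ _

theorem Ub_sub_SQ {q : Ω} (hq : q ∈ bd 1 Ω) (r : ℝ) : Ub 1 q r ⊆ UK 1 q (SQ (ph 1 q q 1) r) := by
  rintro x ⟨h1, h2⟩
  refine ⟨h1, ?_⟩
  rw [mem_preimage, HB_eq_bd hq] at h2
  obtain ⟨h3, h4⟩ := h2
  rw [mem_closedBall, dist_eq_norm] at h3
  have h0 := (mem_bd_iff (mem_extChartAt_source (I := 𝓡∂ (1 + 1)) q)).1 hq
  have e1 := (abs_coord_le (ph 1 q x - ph 1 q q) 1).trans h3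
  have e0 := (abs_coord_le (ph 1 q x - ph 1 q q) 0).trans h3
  have f1 : (ph 1 q x - ph 1 q q : EE 1) 1 = ph 1 q x 1 - ph 1 q q 1 := rfl
  have f0 : (ph 1 q x - ph 1 q q : EE 1) 0 = ph 1 q x 0 - ph 1 q q 0 := rfl
  rw [f1] at e1
  rw [f0, h0, sub_zero] at e0
  exact ⟨e1, ph_coord_nonneg q x, (le_abs_self _).trans e0⟩

theorem energy_conf_one (g : RMetric 1 Ω) (f : PosFun 1 Ω) (μ : Measure Ω) (u : Ω → ℝ) :
    energy (conf g f) (μ.withDensity fun x => ENNReal.ofReal (f.1 x ^ (1 + 1))) u =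
      energy g μ u := by
  rw [energy_conf le_rfl]
  unfold energy
  congr 1
  funext x
  simp

theorem surf_super [CompactSpace Ω] {g : RMetric 1 Ω} {q : Ω} (hq : q ∈ bd 1 Ω) {R0 C : ℝ}
    (hR0 : 0 < R0) (hC : 0 < C) (H : SurfData g q R0 C) : ∃ c3 : ℝ, 0 < c3 ∧
    ∀ μ ν : Measure Ω, IsVolume g μ → IsBdryVolume g ν →
    ∀ (f0 : PosFun 1 Ω) (k : ℕ) (a δ N : ℝ), 0 < a → 0 < δ → 0 ≤ N →
      ENNReal.ofReal a < sigma k (conf g f0)
        (μ.withDensity fun x => ENNReal.ofReal (f0.1 x ^ (1 + 1)))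
        (ν.withDensity fun x => ENNReal.ofReal (f0.1 x ^ 1)) →
      ∫⁻ x, ENNReal.ofReal (f0.1 x ^ 1) ∂ν = ENNReal.ofReal N →
      ∃ f' : PosFun 1 Ω,
        ENNReal.ofReal (a / (1 + δ)) ≤ sigma (k + 1) (conf g f')
          (μ.withDensity fun x => ENNReal.ofReal (f'.1 x ^ (1 + 1)))
          (ν.withDensity fun x => ENNReal.ofReal (f'.1 x ^ 1)) ∧
        ENNReal.ofReal (N + c3 / a) ≤ ∫⁻ x, ENNReal.ofReal (f'.1 x ^ 1) ∂ν := by
  obtain ⟨R1, C1, m1, m2, hR1, hC1, hm1, hm2, hR, Hb⟩ := bd_data g hq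
  refine ⟨m1 / (2 * C1), by positivity, ?_⟩
  intro μ ν hμ hν f0 k a δ N ha hδ hN hk hMass
  have hfμ := vol_locFin hμ
  have hfν := bvol_locFin hν
  have hne : Nonempty Ω := ⟨q⟩
  obtain ⟨xM, -, hxM⟩ := isCompact_univ.exists_isMaxOn univ_nonempty f0.cont.continuousOn
  set M := f0.1 xM with hM
  have hMp : 0 < M := f0.2 xM
  have hupp : ∀ x, f0.1 x ≤ M := fun x => hxM (mem_univ x)
  set δ1 := δ / 2 with hδ1
  have hδ1p : 0 < δ1 := by positivity
  set a' := a / (1 + δ) with ha'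
  have ha'p : 0 < a' := by positivity
  set γ := a * δ1 / (1 + δ) with hγ
  have hγp : 0 < γ := by positivity
  have hγe : (1 + δ1) * a' = a - γ := by
    rw [ha', hγ, hδ1]; field_simp; ring
  set D := (2 + 2 * C ^ 2) * (1 + δ1) with hD
  have hDp : 0 < D := by positivity
  obtain ⟨J, hJ⟩ := exists_nat_gt (3 * D * ((k + 1) * a') / γ)
  have hJp : (0 : ℝ) < J := lt_of_le_of_lt (by positivity) hJ
  have hJ0 : 0 < J := by exact_mod_cast hJp
  have hJ2 : D * ((k + 1) * a' / J) ≤ γ / 3 := by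
    rw [div_lt_iff₀ hγp] at hJ
    rw [← mul_div_assoc, div_le_div_iff₀ hJp (by norm_num)]
    linarith
  set P := a * (1 + δ1⁻¹) * M * C * a' with hP
  have hPp : 0 < P := by positivity
  set R := min R0 (γ / 3 / P) with hRdef
  have hRp : 0 < R := lt_min hR0 (by positivity)
  have hR0' : R ≤ R0 := min_le_left _ _
  have hRP : P * R ≤ γ / 3 := by
    have : R ≤ γ / 3 / P := min_le_right _ _
    rw [le_div_iff₀ hPp] at this
    linarith
  have hsc : ∀ j : ℕ, 0 < R / 4 ^ j := fun j => by positivity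
  have hscR : ∀ j : ℕ, R / 4 ^ j ≤ R := fun j =>
    div_le_self hRp.le (one_le_pow₀ (by norm_num))
  set r := min (R / 4 ^ J) R1 with hr
  have hr0 : 0 < r := lt_min (hsc J) hR1
  have hr1 : r ≤ R1 := min_le_right _ _
  have hrj : ∀ j < J, r ≤ R / 4 ^ j := by
    intro j hj
    refine (min_le_left _ _).trans ?_
    apply div_le_div_of_nonneg_left hRp.le (by positivity)
    exact pow_le_pow_right₀ (by norm_num) hj.le
  set b := 1 / (a * C1 * r) with hb
  have hbp : 0 < b := by positivity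
  obtain ⟨η, hη, hη0, hη1, hηin, hηout⟩ := exists_bump hq (half_pos hr0) (half_lt_self hr0)
    ((inter_subset_inter_left _ (closedBall_subset_closedBall hr1)).trans hR)
  have hFs : ContMDiff (𝓡∂ (1 + 1)) 𝓘(ℝ, ℝ) ∞ fun x => f0.1 x + b * η x := by
    have c1 : ContMDiff (𝓡∂ (1 + 1)) 𝓘(ℝ, ℝ) ∞ fun _ : Ω => b := contMDiff_const
    exact f0.1.contMDiff.add (c1.mul hη)
  have hFp : ∀ x, 0 < f0.1 x + b * η x := fun x =>
    add_pos_of_pos_of_nonneg (f0.2 x) (mul_nonneg hbp.le (hη0 x))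
  have hUm : ∀ s, s ≤ R1 → MeasurableSet (Ub 1 q s) := fun s hs => Ub_meas hq hs hR
  have hmc : Continuous fun x => b * η x := continuous_const.mul hη.continuous
  refine ⟨mkPos _ hFs hFp, ?_, ?_⟩
  · by_contra hcon
    rw [not_le] at hcon
    unfold sigma at hcon
    simp only [iInf_lt_iff] at hcon
    obtain ⟨V, hV, hnd, hlt⟩ := hcon
    set f' := mkPos _ hFs hFp with hf'
    have hbt : ∀ (f : PosFun 1 Ω) (u : C^∞⟮𝓡∂ (1 + 1), Ω; 𝓘(ℝ, ℝ), ℝ⟯),
        ∫⁻ x, ENNReal.ofReal (f.1 x ^ 1 * u x ^ 2) ∂ν ≠ ⊤ := fun f u =>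
      (cont_integrable ν (f := fun x => f.1 x ^ 1 * u x ^ 2)
        ((f.cont.pow 1).mul (u.contMDiff.continuous.pow 2))).lintegral_lt_top.ne
    have hE : ∀ u ∈ V, energy g μ u ≤ ENNReal.ofReal a' *
        ∫⁻ x, ENNReal.ofReal (f'.1 x ^ 1 * u x ^ 2) ∂ν := by
      intro u hu
      by_cases hu0 : u = 0
      · have h0 : energy g μ u = 0 := by
          subst hu0
          unfold energy
          have : ∀ x, gradSq g ((0 : C^∞⟮𝓡∂ (1 + 1), Ω; 𝓘(ℝ, ℝ), ℝ⟯) : Ω → ℝ) x = 0 :=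
            fun x => gradSq_const 0 x
          simp only [this, lintegral_zero]
        rw [h0]; exact zero_le
      · have h1 : energy (conf g f') (μ.withDensity fun x => ENNReal.ofReal (f'.1 x ^ (1 + 1))) u /
            bsq (ν.withDensity fun x => ENNReal.ofReal (f'.1 x ^ 1)) u < ENNReal.ofReal a' := by
          refine lt_of_le_of_lt ?_ hlt
          refine le_iSup_of_le u (le_iSup_of_le hu (le_iSup_of_le (show u ≠ 0 from hu0) ?_))
          exact le_rfl
        have h2 := hnd u hu hu0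
        rw [bsq_conf] at h2
        rw [energy_conf_one, bsq_conf, ENNReal.div_lt_iff (Or.inl h2) (Or.inl (hbt f' u))] at h1
        exact h1.le
    obtain ⟨W, hWV, hW, hl⟩ := exists_ker_sub (k := k + 1) hV
      (intL (d := 1) ν (fun x => b * η x) hmc)
    have hfin : FiniteDimensional ℝ W := Module.finite_of_finrank_pos (by omega)
    have hposB : ∀ u : W, u ≠ 0 → 0 < bilF ν f' W u u := by
      intro u hu
      by_contra hc
      have h1 := bilF_self ν f' W u
      rw [ENNReal.ofReal_of_nonpos (not_lt.1 hc)] at h1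
      have h2 := hnd u.1 (hWV u.2) (fun h => hu (Subtype.ext h))
      rw [bsq_conf] at h2
      exact h2 h1.symm
    have hAt : ∀ j : ℕ, AQ (ph 1 q q 1) (R / 4 ^ j) ⊆ (ph 1 q).target := fun j =>
      inter_subset_left.trans ((SQ_mono (by linarith [hscR j])).trans H.1)
    have hAm : ∀ j : ℕ, MeasurableSet (UK 1 q (AQ (ph 1 q q 1) (R / 4 ^ j))) := fun j =>
      UK_meas (hAt j) (AQ_compact _ _)
    obtain ⟨j, hj⟩ := pigeon (bilF ν f' W) (bilF_symm ν f' W) hposB hJ0
      (fun (j : Fin J) u => ∫⁻ x in UK 1 q (AQ (ph 1 q q 1) (R / 4 ^ (j : ℕ))), gradSq g u.1 x ∂μ)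
      (by
        intro j n c e
        have e1 : ((∑ i, c i • e i : W) : C^∞⟮𝓡∂ (1 + 1), Ω; 𝓘(ℝ, ℝ), ℝ⟯) =
            ∑ i, c i • (e i : C^∞⟮𝓡∂ (1 + 1), Ω; 𝓘(ℝ, ℝ), ℝ⟯) := by simp
        simp only
        rw [e1]
        calc ∫⁻ x in UK 1 q (AQ (ph 1 q q 1) (R / 4 ^ (j : ℕ))),
              gradSq g (∑ i, c i • (e i : C^∞⟮𝓡∂ (1 + 1), Ω; 𝓘(ℝ, ℝ), ℝ⟯) :
                C^∞⟮𝓡∂ (1 + 1), Ω; 𝓘(ℝ, ℝ), ℝ⟯) x ∂μ ≤
            ∫⁻ x in UK 1 q (AQ (ph 1 q q 1) (R / 4 ^ (j : ℕ))), ENNReal.ofReal (∑ i, c i ^ 2) *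
              ∑ i, gradSq g (e i).1 x ∂μ := lintegral_mono fun x => gradSq_comb g c _ x
          _ = _ := by
              rw [lintegral_const_mul' _ _ ENNReal.ofReal_ne_top,
                lintegral_finsetSum _ fun i _ => gradSq_meas g _])
      (c := ENNReal.ofReal a')
      (by
        intro u
        rw [bilF_self]
        refine (sum_energy_le (fun j : Fin J => hAm j) ?_ μ _).trans (hE u.1 (hWV u.2))
        have key : ∀ i j : ℕ, i < j → Disjoint (UK 1 q (AQ (ph 1 q q 1) (R / 4 ^ i)))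
            (UK 1 q (AQ (ph 1 q q 1) (R / 4 ^ j))) := by
          intro i j hij
          apply UK_disj
          obtain ⟨e, rfl⟩ : ∃ e, j = i + 1 + e := ⟨j - (i + 1), by omega⟩
          have h1 : R / 4 ^ (i + 1 + e) ≤ R / 4 ^ (i + 1) :=
            div_le_div_of_nonneg_left hRp.le (by positivity)
              (pow_le_pow_right₀ (by norm_num) (by omega))
          have h2 : R / 4 ^ (i + 1) = R / 4 ^ i / 4 := by rw [pow_succ]; field_simp
          have := hsc i
          rw [h2] at h1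
          linarith
        intro i j hij
        rcases lt_or_gt_of_ne (fun h => hij (Fin.ext h) : (i : ℕ) ≠ j) with h | h
        · exact key _ _ h
        · exact (key _ _ h).symm)
    obtain ⟨⟨l, hl'⟩, z, hz, hz01, hzin, hzout, hzg⟩ := H.2 (R / 4 ^ (j : ℕ)) (hsc j)
      ((hscR j).trans hR0')
    obtain ⟨u, huW, hu0, hu⟩ := exists_good hk hW (cutL l z hz)
    have hjR := hscR j
    have hrρ : r ≤ R / 4 ^ (j : ℕ) := hrj j j.2
    have hρp := hsc j
    set ρ := R / 4 ^ (j : ℕ) with hρ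
    have hSt : SQ (ph 1 q q 1) (2 * ρ) ⊆ (ph 1 q).target := (SQ_mono (by linarith)).trans H.1
    obtain ⟨hl1, hl2⟩ := hl' μ ν hμ hν u
    have k1 := energy_cut hC hρp hSt hz hz01 hzin hzout hzg hl1
    have k2 := bsq_cut (l := l) hSt hz hz01 hzout u hupp hδ1p (ν := ν)
    have k3 := hE u (hWV huW)
    have k4 := hj ⟨u, huW⟩
    rw [bilF_self] at k4
    simp only at k4
    obtain ⟨c, hc⟩ := (Hb μ ν hμ hν r hr0 hr1).1 u u.contMDiff
    set S2 := UK 1 q (SQ (ph 1 q q 1) (2 * ρ)) with hS2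
    set EA := ∫⁻ x in UK 1 q (AQ (ph 1 q q 1) ρ), gradSq g u x ∂μ with hEA
    set Bp := ∫⁻ x, ENNReal.ofReal (f'.1 x ^ 1 * u x ^ 2) ∂ν with hBp
    set B0 := ∫⁻ x, ENNReal.ofReal (f0.1 x ^ 1 * u x ^ 2) ∂ν with hB0
    set BT := ∫⁻ x, ENNReal.ofReal (f0.1 x ^ 1 * (cutL l z hz u x) ^ 2) ∂ν with hBT
    set Er := ∫⁻ x in Ub 1 q r, gradSq g u x ∂μ with hEr
    set Eo := ∫⁻ x in S2ᶜ, gradSq g u x ∂μ with hEo
    have hS2m : MeasurableSet S2 := (UK_compact hSt (SQ_compact _ _)).measurableSet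
    have hBpt : Bp ≠ ⊤ := hbt f' u
    have hBp0 : Bp ≠ 0 := by
      have h2 := hnd u (hWV huW) hu0
      rwa [bsq_conf] at h2
    -- the bubble
    have hBsplit : Bp = B0 + ∫⁻ x, ENNReal.ofReal (b * η x * u x ^ 2) ∂ν := by
      have hmeas : Measurable fun x => ENNReal.ofReal (f0.1 x ^ 1 * u x ^ 2) :=
        (ENNReal.continuous_ofReal.comp
          ((f0.cont.pow 1).mul (u.contMDiff.continuous.pow 2))).measurable
      rw [hBp, hB0, ← lintegral_add_left hmeas]
      congr 1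
      funext x
      have e1 : f'.1 x = f0.1 x + b * η x := rfl
      have := f0.2 x
      have := hη0 x
      rw [e1, pow_one, pow_one, ← ENNReal.ofReal_add (by positivity) (by positivity)]
      congr 1
      ring
    have hBb : ENNReal.ofReal a * ∫⁻ x, ENNReal.ofReal (b * η x * u x ^ 2) ∂ν ≤ Er := by
      have h3 := mean_zero_le ν hmc (fun x => mul_nonneg hbp.le (hη0 x)) u.contMDiff.continuous
        (hl u huW) c
      have h4 : ∫⁻ x, ENNReal.ofReal (b * η x * (u x - c) ^ 2) ∂ν ≤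
          ENNReal.ofReal b * ∫⁻ x in Ub 1 q r, sq (u x - c) ∂ν := by
        rw [← lintegral_const_mul' _ _ ENNReal.ofReal_ne_top, ← lintegral_indicator (hUm r hr1)]
        apply lintegral_mono
        intro x
        simp only
        by_cases hx : x ∈ Ub 1 q r
        · rw [indicator_of_mem hx]
          unfold sq
          rw [← ENNReal.ofReal_mul hbp.le]
          apply ENNReal.ofReal_le_ofReal
          have := hη1 x
          have : b * η x ≤ b := by nlinarith
          gcongr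
        · rw [indicator_of_notMem hx, hηout x hx]
          simp
      calc ENNReal.ofReal a * ∫⁻ x, ENNReal.ofReal (b * η x * u x ^ 2) ∂ν
          ≤ ENNReal.ofReal a * (ENNReal.ofReal b * (ENNReal.ofReal (C1 * r) * Er)) := by
            gcongr
            exact h3.trans (h4.trans (by gcongr))
        _ = ENNReal.ofReal (a * (b * (C1 * r))) * Er := by
            rw [ENNReal.ofReal_mul ha.le, ENNReal.ofReal_mul hbp.le]
            ring
        _ = Er := by
            have : a * (b * (C1 * r)) = 1 := by rw [hb]; field_simp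
            rw [this, ENNReal.ofReal_one, one_mul]
    have hEoEr : Eo + Er ≤ energy g μ u := by
      have hdis : Disjoint S2ᶜ (Ub 1 q r) := by
        rw [Set.disjoint_left]
        intro x hx hx'
        apply hx
        have := Ub_sub_SQ hq r hx'
        exact ⟨this.1, SQ_mono (by linarith) this.2⟩
      rw [hEo, hEr, ← lintegral_union (hUm r hr1) hdis]
      exact setLIntegral_le_lintegral _ _
    have hT2 : ∫⁻ x in S2, sq (u x - l u) ∂ν ≤ ENNReal.ofReal (C * R) * energy g μ u := by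
      refine hl2.trans ?_
      gcongr
      exact setLIntegral_le_lintegral _ _
    have k4' : EA ≤ ENNReal.ofReal ((k + 1) * a' / J) * Bp := by
      refine k4.trans (le_of_eq ?_)
      congr 1
      rw [hW, ENNReal.ofReal_div_of_pos hJp, ENNReal.ofReal_mul (by positivity),
        ENNReal.ofReal_natCast]
      congr 2
      push_cast
      rw [ENNReal.ofReal_add (by positivity) zero_le_one, ENNReal.ofReal_natCast, ENNReal.ofReal_one]
    have hfinal : ENNReal.ofReal a * Bp ≤ ENNReal.ofReal (a - γ / 3) * Bp := by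
      calc ENNReal.ofReal a * Bp
          = ENNReal.ofReal a * B0 + ENNReal.ofReal a *
            ∫⁻ x, ENNReal.ofReal (b * η x * u x ^ 2) ∂ν := by rw [hBsplit, mul_add]
        _ ≤ ENNReal.ofReal a * ((ENNReal.ofReal (1 + δ1) * BT) +
            ENNReal.ofReal ((1 + δ1⁻¹) * M) * (ENNReal.ofReal (C * R) * energy g μ u)) + Er := by
            gcongr
            exact k2.trans (by gcongr)
        _ = ENNReal.ofReal (1 + δ1) * (ENNReal.ofReal a * BT) +
            ENNReal.ofReal a * ENNReal.ofReal ((1 + δ1⁻¹) * M) * ENNReal.ofReal (C * R) *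
              energy g μ u + Er := by ring
        _ ≤ ENNReal.ofReal (1 + δ1) * (Eo + ENNReal.ofReal (2 + 2 * C ^ 2) * EA) +
            ENNReal.ofReal a * ENNReal.ofReal ((1 + δ1⁻¹) * M) * ENNReal.ofReal (C * R) *
              energy g μ u + ENNReal.ofReal (1 + δ1) * Er := by
            gcongr
            · exact hu.trans k1
            · refine le_mul_of_one_le_left zero_le ?_
              rw [ENNReal.one_le_ofReal]
              linarith
        _ = ENNReal.ofReal (1 + δ1) * (Eo + Er) +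
            ENNReal.ofReal (1 + δ1) * ENNReal.ofReal (2 + 2 * C ^ 2) * EA +
            ENNReal.ofReal a * ENNReal.ofReal ((1 + δ1⁻¹) * M) * ENNReal.ofReal (C * R) *
              energy g μ u := by ring
        _ ≤ ENNReal.ofReal (1 + δ1) * (ENNReal.ofReal a' * Bp) +
            ENNReal.ofReal (1 + δ1) * ENNReal.ofReal (2 + 2 * C ^ 2) *
              (ENNReal.ofReal ((k + 1) * a' / J) * Bp) +
            ENNReal.ofReal a * ENNReal.ofReal ((1 + δ1⁻¹) * M) * ENNReal.ofReal (C * R) *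
              (ENNReal.ofReal a' * Bp) := by
            gcongr
            exact hEoEr.trans k3
        _ = ENNReal.ofReal ((1 + δ1) * a' + (1 + δ1) * (2 + 2 * C ^ 2) * ((k + 1) * a' / J) +
              a * ((1 + δ1⁻¹) * M) * (C * R) * a') * Bp := by
            exact arith_sum (by positivity) ha'p.le (by positivity) (by positivity) ha.le
              (by positivity) (by positivity) Bp
        _ ≤ _ := by
            gcongr
            have e1 : (1 + δ1) * (2 + 2 * C ^ 2) * ((k + 1) * a' / J) =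
              D * ((k + 1) * a' / J) := by rw [hD]; ring
            have e2 : a * ((1 + δ1⁻¹) * M) * (C * R) * a' = P * R := by rw [hP]; ring
            rw [hγe, e1, e2]
            linarith
    have h5 : ENNReal.ofReal a ≤ ENNReal.ofReal (a - γ / 3) :=
      (ENNReal.mul_le_mul_iff_left hBp0 hBpt).1 hfinal
    rw [ENNReal.ofReal_le_ofReal_iff'] at h5
    rcases h5 with h5 | h5 <;> linarith
  · have h2 : ENNReal.ofReal b * ν (Ub 1 q (r / 2)) ≤ ∫⁻ x, ENNReal.ofReal (b * η x) ∂ν := by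
      rw [← setLIntegral_const, ← lintegral_indicator (hUm _ (by linarith))]
      apply lintegral_mono
      intro x
      simp only
      by_cases hx : x ∈ Ub 1 q (r / 2)
      · rw [indicator_of_mem hx, hηin x hx, mul_one]
      · rw [indicator_of_notMem hx]
        exact zero_le
    have h1 : ∫⁻ x, ENNReal.ofReal ((mkPos _ hFs hFp).1 x ^ 1) ∂ν =
        (∫⁻ x, ENNReal.ofReal (f0.1 x ^ 1) ∂ν) + ∫⁻ x, ENNReal.ofReal (b * η x) ∂ν := by
      rw [← lintegral_add_left (wtM f0 1)]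
      congr 1
      funext x
      rw [mkPos_apply, pow_one, pow_one, ENNReal.ofReal_add (f0.2 x).le (mul_nonneg hbp.le (hη0 x))]
    rw [h1, hMass, ENNReal.ofReal_add hN (by positivity)]
    gcongr
    refine le_trans ?_ h2
    have h3 := (Hb μ ν hμ hν (r / 2) (half_pos hr0) (by linarith)).2.1
    refine le_trans ?_ (mul_le_mul_right h3 _)
    rw [← ENNReal.ofReal_mul (by positivity)]
    apply ENNReal.ofReal_le_ofReal
    apply le_of_eq
    rw [hb, pow_one]
    field_simp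

end Pool.Agent.W545.Man
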