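import Mathlib
import Pool.Agent.W545.Man.Strict
import Pool.Agent.W545.Man.SurfSuper
import Pool.Agent.W749.ST.Exist
set_option autoImplicit false
open Set Filter Topology MeasureTheory Metric
open scoped ENNReal Manifold ContDiff

/-! Strict monotonicity of the conformal Steklov eigenvalues on surfaces. -/

namespace Pool.Agent.W545.Man

section general

variable {d : ℕ} {Ω : Type*} [TopologicalSpace Ω] [ChartedSpace (EuclideanHalfSpace (d + 1)) Ω]
  [IsManifold (𝓡∂ (d + 1)) ∞ Ω] [MeasurableSpace Ω] [BorelSpace Ω] [T2Space Ω]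

omit [T2Space Ω] in
theorem le_confSup {g : RMetric d Ω} (j : ℕ) (f : PosFun d Ω) (μ' ν' : Measure Ω)
    (h1 : IsVolume (conf g f) μ') (h2 : IsBdryVolume (conf g f) ν') :
    nsigma j (conf g f) μ' ν' ≤ confSup j g := by
  unfold confSup
  exact le_iSup_of_le f (le_iSup_of_le μ' (le_iSup_of_le ν' (le_iSup_of_le h1
    (le_iSup_of_le h2 le_rfl))))

/-- the conformal eigenvalues number `k + 1` are positive -/
theorem confSup_succ_ne_zero [CompactSpace Ω] [ConnectedSpace Ω] (g : RMetric d Ω) {q : Ω}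
    (hq : q ∈ bd d Ω) (k : ℕ) : confSup (k + 1) g ≠ 0 := by
  obtain ⟨μ, hμ⟩ := Pool.Agent.W749.ST.exists_isVolume g
  obtain ⟨ν, hν⟩ := Pool.Agent.W749.ST.exists_isBdryVolume g
  have hne : Nonempty Ω := ⟨q⟩
  intro hS0
  let one : PosFun d Ω := mkPos (fun _ => 1) contMDiff_const fun _ => one_pos
  have h1 := le_confSup (k + 1) one _ _ (isVolume_conf hμ one) (isBdryVolume_conf hν one)
  have h2 := le_antisymm (h1.trans hS0.le) zero_le
  unfold nsigma at h2
  rw [mul_eq_zero, mul_eq_zero] at h2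
  rcases h2 with (h2 | h2) | h2
  · have h3 := sigma_mono (show 1 ≤ k + 1 by omega) (conf g one)
      (μ.withDensity fun x => ENNReal.ofReal (one.1 x ^ (d + 1)))
      (ν.withDensity fun x => ENNReal.ofReal (one.1 x ^ d))
    rw [h2] at h3
    exact sigma_one_pos (isVolume_conf hμ one) (isBdryVolume_conf hν one)
      (nonpos_iff_eq_zero.1 h3)
  · rw [ENNReal.rpow_eq_zero_iff] at h2
    have h3 := vol_univ (isVolume_conf hμ one)
    rcases h2 with h2 | h2
    · exact h3.1 h2.1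
    · exact h3.2 h2.1
  · exact (bvol_univ hq (isVolume_conf hμ one) (isBdryVolume_conf hν one)).1 h2

end general

variable {Ω : Type*} [TopologicalSpace Ω] [ChartedSpace (EuclideanHalfSpace (1 + 1)) Ω]
  [IsManifold (𝓡∂ (1 + 1)) ∞ Ω] [MeasurableSpace Ω] [BorelSpace Ω] [T2Space Ω]

theorem strict_surf [CompactSpace Ω] [ConnectedSpace Ω] (g : RMetric 1 Ω) {q : Ω}
    (hq : q ∈ bd 1 Ω) {R0 C : ℝ} (hR0 : 0 < R0) (hC : 0 < C) (H : SurfData g q R0 C) (k : ℕ) :
    confSup k g < confSup (k + 1) g := by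
  have hS : confSup k g ≠ ⊤ := Pool.Agent.W749.ST.confSup_ne_top' le_rfl g k
  have hpos := confSup_succ_ne_zero g hq k
  by_cases hS0 : confSup k g = 0
  · rw [hS0]
    exact pos_iff_ne_zero.2 hpos
  by_contra hcon
  rw [not_lt] at hcon
  have hne : Nonempty Ω := ⟨q⟩
  obtain ⟨c3, hc3, Hs⟩ := surf_super hq hR0 hC H
  set s := (confSup k g).toReal with hs
  have hs0 : 0 < s := ENNReal.toReal_pos hS0 hS
  have hsS : ENNReal.ofReal s = confSup k g := ENNReal.ofReal_toReal hS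
  set δ := c3 / (4 * (s + c3)) with hδ
  have hδ0 : 0 < δ := by positivity
  have hδ1 : δ * (s + c3) = c3 / 4 := by rw [hδ]; field_simp
  obtain ⟨s', hs'1, hs'2⟩ : ∃ s', max 0 (s - c3 / 4) < s' ∧ s' < s := by
    apply exists_between
    apply max_lt hs0
    linarith
  have hs'0 : 0 < s' := (le_max_left _ _).trans_lt hs'1
  have hs'3 : s - c3 / 4 < s' := (le_max_right _ _).trans_lt hs'1
  have h1 : ENNReal.ofReal s' < confSup k g := by
    rw [← hsS]
    exact (ENNReal.ofReal_lt_ofReal_iff hs0).2 hs'2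
  unfold confSup at h1
  simp only [lt_iSup_iff] at h1
  obtain ⟨f0, μ0, ν0, hμ0, hν0, hlt⟩ := h1
  obtain ⟨μ1, hμ1, rfl⟩ := exists_bg hμ0
  obtain ⟨ν1, hν1, rfl⟩ := exists_bg' hν0
  have hN := bvol_univ hq hμ0 hν0
  rw [univ_wd] at hN
  have hexp : ∀ (f : PosFun 1 Ω) (j : ℕ), nsigma j (conf g f)
      (μ1.withDensity fun x => ENNReal.ofReal (f.1 x ^ (1 + 1)))
      (ν1.withDensity fun x => ENNReal.ofReal (f.1 x ^ 1)) = sigma j (conf g f)
      (μ1.withDensity fun x => ENNReal.ofReal (f.1 x ^ (1 + 1)))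
      (ν1.withDensity fun x => ENNReal.ofReal (f.1 x ^ 1)) *
      ∫⁻ x, ENNReal.ofReal (f.1 x ^ 1) ∂ν1 := by
    intro f j
    unfold nsigma
    rw [univ_wd f 1 ν1]
    have e : (1 - ((1 : ℕ) : ℝ)) / (((1 : ℕ) : ℝ) + 1) = 0 := by norm_num
    rw [e, ENNReal.rpow_zero, mul_one]
  rw [hexp] at hlt
  set N := ∫⁻ x, ENNReal.ofReal (f0.1 x ^ 1) ∂ν1 with hNdef
  have hNr : 0 < N.toReal := ENNReal.toReal_pos hN.1 hN.2
  have hNN : N = ENNReal.ofReal N.toReal := (ENNReal.ofReal_toReal hN.2).symm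
  have hlt2 : ENNReal.ofReal s' / ENNReal.ofReal N.toReal <
      sigma k (conf g f0) (μ1.withDensity fun x => ENNReal.ofReal (f0.1 x ^ (1 + 1)))
        (ν1.withDensity fun x => ENNReal.ofReal (f0.1 x ^ 1)) := by
    rw [ENNReal.div_lt_iff (Or.inl (by rw [Ne, ENNReal.ofReal_eq_zero, not_le]; exact hNr))
      (Or.inl ENNReal.ofReal_ne_top), ← hNN]
    exact hlt
  obtain ⟨a, ha1, ha2⟩ := ENNReal.lt_iff_exists_nnreal_btwn.1 hlt2
  have ha0 : (0 : ℝ) < a := by
    have : (0 : ℝ≥0∞) < a := zero_le.trans_lt ha1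
    exact_mod_cast this
  have haE : (a : ℝ≥0∞) = ENNReal.ofReal (a : ℝ) := by rw [ENNReal.ofReal_coe_nnreal]
  rw [haE] at ha1 ha2
  rw [← ENNReal.ofReal_div_of_pos hNr, ENNReal.ofReal_lt_ofReal_iff ha0, div_lt_iff₀ hNr] at ha1
  obtain ⟨f', b1, b2⟩ := Hs μ1 ν1 hμ1 hν1 f0 k a δ N.toReal ha0 hδ0 hNr.le ha2 hNN
  have hfin := le_confSup (k + 1) f' _ _ (isVolume_conf hμ1 f') (isBdryVolume_conf hν1 f')
  rw [hexp] at hfin
  have h3 : ENNReal.ofReal (a / (1 + δ)) * ENNReal.ofReal (N.toReal + c3 / a) ≤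
      ENNReal.ofReal s := by
    rw [hsS]
    refine le_trans ?_ (hfin.trans hcon)
    gcongr
  rw [← ENNReal.ofReal_mul (by positivity), ENNReal.ofReal_le_ofReal_iff hs0.le] at h3
  have h4 : (a : ℝ) / (1 + δ) * (N.toReal + c3 / a) = (a * N.toReal + c3) / (1 + δ) := by
    field_simp
  rw [h4, div_le_iff₀ (by positivity)] at h3
  nlinarith

end Pool.Agent.W545.Man
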